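import Pool.Agent.Run7.h71.CE.Stm

set_option autoImplicit false

namespace Pool.Agent.Run7.h71.CE

open Set Filter Topology
open scoped ContDiff
open Pool.Agent.Run7.h71.CD

theorem CRV : S_CRV := by
  intro O V hO hV X₀ hX
  have h1 : ContDiffAt ℝ 1 V X₀ := (hV.contDiffAt (hO.mem_nhds hX)).of_le (by exact_mod_cast le_top)
  obtain ⟨γ, h0, ε, hε, h⟩ :=
    h1.exists_forall_mem_closedBall_exists_eq_forall_mem_Ioo_hasDerivAt₀ 0
  refine ⟨γ, h0, ?_⟩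
  have hI : ∀ᶠ τ in 𝓝 (0 : ℝ), τ ∈ Ioo (0 - ε) (0 + ε) :=
    Ioo_mem_nhds (by linarith) (by linarith)
  have hc : ContinuousAt γ 0 := (h 0 ⟨by linarith, by linarith⟩).continuousAt
  have hO' : ∀ᶠ τ in 𝓝 (0 : ℝ), γ τ ∈ O := hc.eventually_mem (by rw [h0]; exact hO.mem_nhds hX)
  filter_upwards [hI, hO'] with τ h2 h3
  exact ⟨h3, h τ h2⟩

end Pool.Agent.Run7.h71.CE
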