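import Pool.Agent.Run7.h71.CE.Stm

set_option autoImplicit false

namespace Pool.Agent.Run7.h71.CE

open Set Filter Topology
open scoped ContDiff
open Pool.Agent.Run7.h71.CD

theorem IDL : S_IDL := by
  intro A _ _ Z N E X ζ ν a b p q l m n hF G hG
  let S : Set A := {x | ∃ g ∈ G, ∃ k : ℕ, x = N^[k] g}
  let J : Ideal A := Ideal.span S
  -- a derivation which maps the generators to `J` maps `J` to `J`
  have key : ∀ D : Derivation ℝ A A, (∀ x ∈ S, D x ∈ J) → ∀ f ∈ J, D f ∈ J := by
    intro D hD f hf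
    refine Submodule.span_induction (p := fun x _ => D x ∈ J) ?_ ?_ ?_ ?_ hf
    · exact fun x hx => hD x hx
    · show D 0 ∈ J
      rw [map_zero]
      exact J.zero_mem
    · intro x y _ _ hx hy
      show D (x + y) ∈ J
      rw [map_add]
      exact J.add_mem hx hy
    · intro c x hx hDx
      show D (c • x) ∈ J
      rw [smul_eq_mul, Derivation.leibniz]
      refine J.add_mem ?_ ?_
      · rw [smul_eq_mul]
        exact J.mul_mem_left _ hDx
      · rw [smul_eq_mul, mul_comm]
        exact J.mul_mem_left _ hx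
  have hN : ∀ f ∈ J, N f ∈ J := by
    refine key N ?_
    rintro x ⟨g, hg, k, rfl⟩
    refine Ideal.subset_span ⟨g, hg, k + 1, ?_⟩
    rw [Function.iterate_succ_apply']
  have hEk : ∀ (k : ℕ) (g : A), E (N^[k] g) = N^[k] (E g) := by
    intro k
    induction k with
    | zero => intro g; rfl
    | succ k ih =>
      intro g
      rw [Function.iterate_succ_apply', Function.iterate_succ_apply', hF.EN, ih]
  have hES : ∀ g ∈ G, ∀ k : ℕ, E (N^[k] g) ∈ J := by
    intro g hg k
    rw [hEk]
    exact Ideal.subset_span ⟨E g, (hG g hg).2, k, rfl⟩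
  have hE : ∀ f ∈ J, E f ∈ J := by
    refine key E ?_
    rintro x ⟨g, hg, k, rfl⟩
    exact hES g hg k
  have hZS : ∀ (k : ℕ), ∀ g ∈ G, Z (N^[k] g) ∈ J := by
    intro k
    induction k with
    | zero =>
      intro g hg
      exact Ideal.subset_span ⟨Z g, (hG g hg).1, 0, rfl⟩
    | succ k ih =>
      intro g hg
      rw [Function.iterate_succ_apply']
      have h1 : Z (N (N^[k] g)) = N (Z (N^[k] g)) + (-(b + q) * Z (N^[k] g) +
          -(a + p) * E (N^[k] g)) := by
        have h2 := hF.ZN (N^[k] g)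
        linear_combination h2
      rw [h1]
      refine J.add_mem (hN _ (ih g hg)) (J.add_mem (J.mul_mem_left _ (ih g hg))
        (J.mul_mem_left _ (hES g hg k)))
  have hZ : ∀ f ∈ J, Z f ∈ J := by
    refine key Z ?_
    rintro x ⟨g, hg, k, rfl⟩
    exact hZS k g hg
  refine ⟨J, ?_, fun f hf => ⟨hZ f hf, hN f hf, hE f hf⟩, ?_⟩
  · intro g hg
    exact Ideal.subset_span ⟨g, hg, 0, rfl⟩
  · intro ev hev f hf
    have h1 : J ≤ RingHom.ker ev := by
      refine Ideal.span_le.2 ?_
      rintro x ⟨g, hg, k, rfl⟩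
      exact hev g hg k
    exact h1 hf

end Pool.Agent.Run7.h71.CE
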