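import Mathlib

/-!
Averages over a finite type, and the abstract part of the argument: systems of
0/1 valued coordinates `x v j` for which every weighted edge `p q` has
`∑ j, x p j * x q j * W j` close to `θ * ∑ j, W j`.
-/

namespace Run7.h859

open Finset

section Average

variable {V : Type} [Fintype V] {V' : Type} [Fintype V']

/-- The average of `f` over the finite type `V` (and `0` if `V` is empty). -/
noncomputable def av (f : V → ℝ) : ℝ := (∑ v, f v) / (Fintype.card V : ℝ)

theorem av_mono {f g : V → ℝ} (h : ∀ v, f v ≤ g v) : av f ≤ av g := by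
  unfold av
  exact div_le_div_of_nonneg_right (Finset.sum_le_sum fun v _ => h v) (Nat.cast_nonneg _)

theorem av_nonneg {f : V → ℝ} (h : ∀ v, 0 ≤ f v) : 0 ≤ av f := by
  unfold av
  exact div_nonneg (Finset.sum_nonneg fun v _ => h v) (Nat.cast_nonneg _)

theorem av_add (f g : V → ℝ) : av (fun v => f v + g v) = av f + av g := by
  unfold av
  rw [Finset.sum_add_distrib, add_div]

theorem av_sub (f g : V → ℝ) : av (fun v => f v - g v) = av f - av g := by
  unfold av
  rw [Finset.sum_sub_distrib, sub_div]

theorem av_mul_left (c : ℝ) (f : V → ℝ) : av (fun v => c * f v) = c * av f := by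
  unfold av
  rw [← Finset.mul_sum, mul_div_assoc]

theorem av_mul_right (c : ℝ) (f : V → ℝ) : av (fun v => f v * c) = av f * c := by
  unfold av
  rw [← Finset.sum_mul, div_mul_eq_mul_div]

theorem av_const_le {c : ℝ} (hc : 0 ≤ c) : av (fun _ : V => c) ≤ c := by
  unfold av
  rw [Finset.sum_const, Finset.card_univ, nsmul_eq_mul]
  rcases Nat.eq_zero_or_pos (Fintype.card V) with h | h
  · rw [h]; simpa using hc
  · rw [mul_div_assoc, mul_comm, div_mul_cancel₀]
    exact_mod_cast h.ne'

theorem av_const [Nonempty V] (c : ℝ) : av (fun _ : V => c) = c := by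
  unfold av
  rw [Finset.sum_const, Finset.card_univ, nsmul_eq_mul, mul_comm, mul_div_assoc, div_self, mul_one]
  exact_mod_cast Fintype.card_ne_zero

theorem av_le {f : V → ℝ} {c : ℝ} (hc : 0 ≤ c) (h : ∀ v, f v ≤ c) : av f ≤ c :=
  (av_mono h).trans (av_const_le hc)

theorem av_comm (f : V → V' → ℝ) :
    av (fun p => av (fun q => f p q)) = av (fun q => av (fun p => f p q)) := by
  unfold av
  rw [← Finset.sum_div, ← Finset.sum_div, Finset.sum_comm, div_div, div_div, mul_comm]

theorem abs_av_le (f : V → ℝ) : |av f| ≤ av (fun v => |f v|) := by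
  unfold av
  rw [abs_div, Nat.abs_cast]
  exact div_le_div_of_nonneg_right (Finset.abs_sum_le_sum_abs _ _) (Nat.cast_nonneg _)

theorem av_sum {ι : Type} (s : Finset ι) (f : V → ι → ℝ) :
    av (fun v => ∑ j ∈ s, f v j) = ∑ j ∈ s, av (fun v => f v j) := by
  unfold av
  rw [Finset.sum_comm, Finset.sum_div]

/-- Cauchy-Schwarz for averages. -/
theorem av_cs (f g : V → ℝ) :
    (av (fun v => f v * g v)) ^ 2 ≤ av (fun v => f v ^ 2) * av (fun v => g v ^ 2) := by
  unfold av
  rw [div_pow, div_mul_div_comm, ← sq]
  exact div_le_div_of_nonneg_right (Finset.sum_mul_sq_le_sq_mul_sq _ _ _) (by positivity)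

theorem av_sq_le (f : V → ℝ) : (av f) ^ 2 ≤ av (fun v => f v ^ 2) := by
  have h := av_cs f (fun _ : V => (1 : ℝ))
  simp only [mul_one, one_pow] at h
  have h1 : av (fun _ : V => (1 : ℝ)) ≤ 1 := av_const_le zero_le_one
  have h2 : 0 ≤ av (fun v => f v ^ 2) := av_nonneg fun v => sq_nonneg _
  nlinarith

theorem av_mul_av (f : V → ℝ) (g : V' → ℝ) :
    av f * av g = av (fun p => av (fun q => f p * g q)) := by
  simp only [av_mul_left, av_mul_right]

end Average

section System

variable {V ι : Type} [Fintype V] [Fintype ι]

/-- An edge weight `e`, coordinates `x`, with the concentration along edges. -/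
structure Sys (e : V → V → ℝ) (x : V → ι → ℝ) (θ K : ℝ) : Prop where
  x01 : ∀ v j, x v j = 0 ∨ x v j = 1
  e0 : ∀ p q, 0 ≤ e p q
  e1 : ∀ p q, e p q ≤ 1
  esymm : ∀ p q, e p q = e q p
  θpos : 0 < θ
  θle : θ ≤ 1
  edge : ∀ W : ι → ℝ, (∀ j, 0 ≤ W j) → (∀ j, W j ≤ 1) →
    av (fun p => av (fun q => e p q * |∑ j, x p j * x q j * W j - θ * ∑ j, W j|)) ≤ K

variable {e : V → V → ℝ} {x : V → ι → ℝ} {θ K : ℝ}

theorem Sys.x0 (S : Sys e x θ K) (v : V) (j : ι) : 0 ≤ x v j := by
  rcases S.x01 v j with h | h <;> rw [h]; norm_num

theorem Sys.x1 (S : Sys e x θ K) (v : V) (j : ι) : x v j ≤ 1 := by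
  rcases S.x01 v j with h | h <;> rw [h]; norm_num

theorem Sys.K0 (S : Sys e x θ K) : 0 ≤ K := by
  refine le_trans ?_ (S.edge (fun _ => 0) (fun _ => le_rfl) (fun _ => zero_le_one))
  exact av_nonneg fun p => av_nonneg fun q => mul_nonneg (S.e0 _ _) (abs_nonneg _)

/-- For a path `p q r`, the coordinates at `p` and `r` are close. -/
theorem Sys.cherry (S : Sys e x θ K) (W : ι → ℝ) (h0 : ∀ j, 0 ≤ W j) (h1 : ∀ j, W j ≤ 1) :
    av (fun p => av (fun q => av (fun r => e p q * e q r * |∑ j, (x p j - x r j) * W j|)))
      ≤ 2 * K / θ := by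
  rw [le_div_iff₀ S.θpos, ← av_mul_right]
  have key : ∀ p q r, e p q * e q r * |∑ j, (x p j - x r j) * W j| * θ ≤
      e p q * |∑ j, x p j * x q j * (x r j * W j) - θ * ∑ j, x r j * W j| +
      e q r * |∑ j, x q j * x r j * (x p j * W j) - θ * ∑ j, x p j * W j| := by
    intro p q r
    have e1 : (∑ j, (x p j - x r j) * W j) * θ =
        (∑ j, x p j * x q j * (x r j * W j) - θ * ∑ j, x r j * W j) -
        (∑ j, x q j * x r j * (x p j * W j) - θ * ∑ j, x p j * W j) := by
      have : ∑ j, x p j * x q j * (x r j * W j) = ∑ j, x q j * x r j * (x p j * W j) :=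
        Finset.sum_congr rfl fun j _ => by ring
      rw [this]
      simp only [sub_mul, Finset.sum_sub_distrib]
      ring
    have e2 : |∑ j, (x p j - x r j) * W j| * θ =
        |(∑ j, x p j * x q j * (x r j * W j) - θ * ∑ j, x r j * W j) -
        (∑ j, x q j * x r j * (x p j * W j) - θ * ∑ j, x p j * W j)| := by
      rw [← e1, abs_mul, abs_of_pos S.θpos]
    rw [mul_assoc, e2]
    have hp := S.e0 p q
    have hq := S.e0 q r
    have hp1 := S.e1 p q
    have hq1 := S.e1 q r
    set A := ∑ j, x p j * x q j * (x r j * W j) - θ * ∑ j, x r j * W j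
    set B := ∑ j, x q j * x r j * (x p j * W j) - θ * ∑ j, x p j * W j
    have h3 : |A - B| ≤ |A| + |B| := abs_sub A B
    have hA := abs_nonneg A
    have hB := abs_nonneg B
    calc e p q * e q r * |A - B| ≤ e p q * e q r * (|A| + |B|) :=
          mul_le_mul_of_nonneg_left h3 (mul_nonneg hp hq)
      _ = (e p q * |A|) * e q r + (e q r * |B|) * e p q := by ring
      _ ≤ (e p q * |A|) * 1 + (e q r * |B|) * 1 := by
          apply add_le_add
          · exact mul_le_mul_of_nonneg_left hq1 (mul_nonneg hp hA)
          · exact mul_le_mul_of_nonneg_left hp1 (mul_nonneg hq hB)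
      _ = _ := by ring
  have hx : ∀ v : V, (∀ j, 0 ≤ x v j * W j) ∧ (∀ j, x v j * W j ≤ 1) := fun v =>
    ⟨fun j => mul_nonneg (S.x0 v j) (h0 j), fun j => mul_le_one₀ (S.x1 v j) (h0 j) (h1 j)⟩
  calc av (fun p => av (fun q => av (fun r =>
          e p q * e q r * |∑ j, (x p j - x r j) * W j|)) * θ)
      = av (fun p => av (fun q => av (fun r =>
          e p q * e q r * |∑ j, (x p j - x r j) * W j| * θ))) := by
        simp only [av_mul_right]
    _ ≤ av (fun p => av (fun q => av (fun r =>
          e p q * |∑ j, x p j * x q j * (x r j * W j) - θ * ∑ j, x r j * W j| +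
          e q r * |∑ j, x q j * x r j * (x p j * W j) - θ * ∑ j, x p j * W j|))) :=
        av_mono fun p => av_mono fun q => av_mono fun r => key p q r
    _ = av (fun p => av (fun q => av (fun r =>
          e p q * |∑ j, x p j * x q j * (x r j * W j) - θ * ∑ j, x r j * W j|))) +
        av (fun p => av (fun q => av (fun r =>
          e q r * |∑ j, x q j * x r j * (x p j * W j) - θ * ∑ j, x p j * W j|))) := by
        simp only [av_add]
    _ ≤ K + K := by
        apply add_le_add
        · have : av (fun p => av (fun q => av (fun r =>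
              e p q * |∑ j, x p j * x q j * (x r j * W j) - θ * ∑ j, x r j * W j|))) =
              av (fun r => av (fun p => av (fun q =>
              e p q * |∑ j, x p j * x q j * (x r j * W j) - θ * ∑ j, x r j * W j|))) := by
            have h2 : ∀ p, av (fun q => av (fun r =>
              e p q * |∑ j, x p j * x q j * (x r j * W j) - θ * ∑ j, x r j * W j|)) =
              av (fun r => av (fun q =>
              e p q * |∑ j, x p j * x q j * (x r j * W j) - θ * ∑ j, x r j * W j|)) :=
              fun p => av_comm _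
            simp only [h2]
            exact av_comm _
          rw [this]
          exact av_le S.K0 fun r => S.edge _ (hx r).1 (hx r).2
        · exact av_le S.K0 fun p => S.edge _ (hx p).1 (hx p).2
    _ = 2 * K := by ring

/-- The average number of triangles at `b`. -/
noncomputable def triW (e : V → V → ℝ) (b : V) : ℝ :=
  av (fun y => av (fun z => e b y * e y z * e z b))

/-- The degree at `b`. -/
noncomputable def degW (e : V → V → ℝ) (b : V) : ℝ := av (fun c => e b c)

theorem Sys.degW_nonneg (S : Sys e x θ K) (b : V) : 0 ≤ degW e b := av_nonneg fun _ => S.e0 _ _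

theorem Sys.degW_le (S : Sys e x θ K) (b : V) : degW e b ≤ 1 := av_le zero_le_one fun _ => S.e1 _ _

theorem Sys.triW_nonneg (S : Sys e x θ K) (b : V) : 0 ≤ triW e b :=
  av_nonneg fun _ => av_nonneg fun _ => mul_nonneg (mul_nonneg (S.e0 _ _) (S.e0 _ _)) (S.e0 _ _)

theorem Sys.triW_le_sq (S : Sys e x θ K) (b : V) : triW e b ≤ degW e b ^ 2 := by
  rw [sq]
  unfold triW degW
  rw [av_mul_av]
  refine av_mono fun y => av_mono fun z => ?_
  rw [S.esymm z b]
  have h1 := S.e0 b y
  have h2 := S.e0 b z
  have h3 := S.e1 y z
  have : e b y * e y z * e b z = (e b y * e b z) * e y z := by ring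
  rw [this]
  exact mul_le_of_le_one_right (mul_nonneg h1 h2) h3

theorem Sys.triW_le_one (S : Sys e x θ K) (b : V) : triW e b ≤ 1 :=
  (S.triW_le_sq b).trans (pow_le_one₀ (S.degW_nonneg b) (S.degW_le b))

/-- At vertices in many triangles, the neighbours have coordinates close to those of the vertex. -/
theorem Sys.A1 (S : Sys e x θ K) (W : ι → ℝ) (h0 : ∀ j, 0 ≤ W j) (h1 : ∀ j, W j ≤ 1) :
    av (fun b => av (fun c => triW e b * e b c * |∑ j, (x c j - x b j) * W j|)) ≤ 4 * K / θ := by
  have hC := S.cherry W h0 h1
  have key : ∀ b c y z, e b y * e y z * e z b * e b c * |∑ j, (x c j - x b j) * W j| ≤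
      e c b * e b y * |∑ j, (x c j - x y j) * W j| +
      e y z * e z b * |∑ j, (x y j - x b j) * W j| := by
    intro b c y z
    have e1 : ∑ j, (x c j - x b j) * W j =
        ∑ j, (x c j - x y j) * W j + ∑ j, (x y j - x b j) * W j := by
      rw [← Finset.sum_add_distrib]
      exact Finset.sum_congr rfl fun j _ => by ring
    rw [e1]
    set A := ∑ j, (x c j - x y j) * W j
    set B := ∑ j, (x y j - x b j) * W j
    have h3 : |A + B| ≤ |A| + |B| := abs_add_le A B
    have hA := abs_nonneg A
    have hB := abs_nonneg B
    have a1 := S.e0 b y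
    have a2 := S.e0 y z
    have a3 := S.e0 z b
    have a4 := S.e0 b c
    have b1 := S.e1 b y
    have b2 := S.e1 y z
    have b3 := S.e1 z b
    have b4 := S.e1 b c
    rw [S.esymm c b]
    calc e b y * e y z * e z b * e b c * |A + B|
        ≤ e b y * e y z * e z b * e b c * (|A| + |B|) :=
          mul_le_mul_of_nonneg_left h3 (by positivity)
      _ = (e b c * e b y * |A|) * (e y z * e z b) + (e y z * e z b * |B|) * (e b y * e b c) := by
          ring
      _ ≤ (e b c * e b y * |A|) * 1 + (e y z * e z b * |B|) * 1 := by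
          apply add_le_add
          · exact mul_le_mul_of_nonneg_left (mul_le_one₀ b2 a3 b3) (by positivity)
          · exact mul_le_mul_of_nonneg_left (mul_le_one₀ b1 a4 b4) (by positivity)
      _ = _ := by ring
  have hK : 0 ≤ 2 * K / θ := div_nonneg (mul_nonneg zero_le_two S.K0) S.θpos.le
  calc av (fun b => av (fun c => triW e b * e b c * |∑ j, (x c j - x b j) * W j|))
      = av (fun b => av (fun c => av (fun y => av (fun z =>
          e b y * e y z * e z b * e b c * |∑ j, (x c j - x b j) * W j|)))) := by
        simp only [triW, av_mul_right]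
    _ ≤ av (fun b => av (fun c => av (fun y => av (fun z =>
          e c b * e b y * |∑ j, (x c j - x y j) * W j| +
          e y z * e z b * |∑ j, (x y j - x b j) * W j|)))) :=
        av_mono fun b => av_mono fun c => av_mono fun y => av_mono fun z => key b c y z
    _ = av (fun b => av (fun c => av (fun y => av (fun _ : V =>
          e c b * e b y * |∑ j, (x c j - x y j) * W j|)))) +
        av (fun b => av (fun _ : V => av (fun y => av (fun z =>
          e y z * e z b * |∑ j, (x y j - x b j) * W j|)))) := by
        simp only [av_add]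
    _ ≤ 2 * K / θ + 2 * K / θ := by
        apply add_le_add
        · calc av (fun b => av (fun c => av (fun y => av (fun _ : V =>
                e c b * e b y * |∑ j, (x c j - x y j) * W j|))))
              ≤ av (fun b => av (fun c => av (fun y =>
                e c b * e b y * |∑ j, (x c j - x y j) * W j|))) :=
                av_mono fun b => av_mono fun c => av_mono fun y => av_const_le
                  (mul_nonneg (mul_nonneg (S.e0 _ _) (S.e0 _ _)) (abs_nonneg _))
            _ = av (fun c => av (fun b => av (fun y =>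
                e c b * e b y * |∑ j, (x c j - x y j) * W j|))) := av_comm _
            _ ≤ 2 * K / θ := hC
        · calc av (fun b => av (fun _ : V => av (fun y => av (fun z =>
                e y z * e z b * |∑ j, (x y j - x b j) * W j|))))
              ≤ av (fun b => av (fun y => av (fun z =>
                e y z * e z b * |∑ j, (x y j - x b j) * W j|))) :=
                av_mono fun b => av_const_le (av_nonneg fun y => av_nonneg fun z =>
                  mul_nonneg (mul_nonneg (S.e0 _ _) (S.e0 _ _)) (abs_nonneg _))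
            _ = av (fun y => av (fun z => av (fun b =>
                e y z * e z b * |∑ j, (x y j - x b j) * W j|))) := by
                rw [av_comm]
                refine congrArg av (funext fun y => ?_)
                exact av_comm _
            _ ≤ 2 * K / θ := hC
    _ = 4 * K / θ := by ring

end System

end Run7.h859
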