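import Pool.Agent.Run7.h859.LemmaK

/-!
The Boolean cube: unions of members of a family, one chosen representation for every union,
and the concentration of the counts `∑ j, W j * [x misses Z j]`.
-/

namespace Run7.h859

open Finset

set_option linter.unusedSectionVars false

variable {Ω : Type} [Fintype Ω] [DecidableEq Ω]

/-- The indicator that `p` misses `Z`. -/
def miss (Z p : Finset Ω) : ℝ := if Disjoint p Z then 1 else 0

theorem miss_01 (Z p : Finset Ω) : miss Z p = 0 ∨ miss Z p = 1 := by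
  unfold miss; split_ifs <;> simp

theorem miss_union (Z p q : Finset Ω) : miss Z (p ∪ q) = miss Z p * miss Z q := by
  unfold miss
  simp only [Finset.disjoint_union_left]
  split_ifs <;> simp_all

theorem miss_mul (Z Z' p : Finset Ω) : miss Z p * miss Z' p = miss (Z ∪ Z') p := by
  unfold miss
  simp only [Finset.disjoint_union_right]
  split_ifs <;> simp_all

theorem sum_miss (Z : Finset Ω) :
    ∑ p : Finset Ω, miss Z p = 2 ^ (Fintype.card Ω) * (1 / 2 : ℝ) ^ Z.card := by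
  unfold miss
  rw [Finset.sum_boole]
  have h1 : (Finset.univ.filter fun p : Finset Ω => Disjoint p Z) = Zᶜ.powerset := by
    ext p
    simp only [Finset.mem_filter, Finset.mem_univ, true_and, Finset.mem_powerset]
    exact ⟨fun h => Finset.subset_compl_iff_disjoint_right.mpr h,
      fun h => Finset.subset_compl_iff_disjoint_right.mp h⟩
  rw [h1, Finset.card_powerset, Finset.card_compl, Nat.cast_pow, Nat.cast_ofNat, one_div, inv_pow,
    ← div_eq_mul_inv, eq_div_iff (by positivity), ← pow_add,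
    Nat.sub_add_cancel (Finset.card_le_univ Z)]

section Variance

variable {ι : Type} [Fintype ι] (Z : ι → Finset Ω) (ℓ : ℕ)

theorem card_le_of_disjoint (h1 : 1 ≤ ℓ) (hc : ∀ j, (Z j).card = ℓ)
    (hd : ∀ j k, j ≠ k → Disjoint (Z j) (Z k)) : Fintype.card ι ≤ Fintype.card Ω := by
  classical
  have h2 : (Finset.univ.biUnion Z).card = ∑ j, (Z j).card :=
    Finset.card_biUnion fun j _ k _ hjk => hd j k hjk
  have h3 : (Finset.univ.biUnion Z).card ≤ Fintype.card Ω := Finset.card_le_univ _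
  rw [h2, Finset.sum_congr rfl fun j _ => hc j, Finset.sum_const, Finset.card_univ,
    smul_eq_mul] at h3
  nlinarith

theorem sum_dev_mul (hc : ∀ j, (Z j).card = ℓ) (hd : ∀ j k, j ≠ k → Disjoint (Z j) (Z k))
    (j k : ι) (hjk : j ≠ k) :
    ∑ p : Finset Ω, (miss (Z j) p - (1 / 2 : ℝ) ^ ℓ) * (miss (Z k) p - (1 / 2 : ℝ) ^ ℓ) = 0 := by
  have e1 : ∀ p : Finset Ω, (miss (Z j) p - (1 / 2 : ℝ) ^ ℓ) * (miss (Z k) p - (1 / 2 : ℝ) ^ ℓ) =
      miss (Z j ∪ Z k) p - (1 / 2 : ℝ) ^ ℓ * miss (Z j) p - (1 / 2 : ℝ) ^ ℓ * miss (Z k) p +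
      (1 / 2 : ℝ) ^ ℓ * (1 / 2 : ℝ) ^ ℓ := by
    intro p
    rw [← miss_mul]; ring
  simp only [e1]
  rw [Finset.sum_add_distrib, Finset.sum_sub_distrib, Finset.sum_sub_distrib, ← Finset.mul_sum,
    ← Finset.mul_sum, sum_miss, sum_miss, sum_miss, Finset.card_union_of_disjoint (hd j k hjk),
    hc, hc, Finset.sum_const, Finset.card_univ, Fintype.card_finset, nsmul_eq_mul]
  push_cast
  rw [pow_add]
  ring

theorem sum_dev_sq (hc : ∀ j, (Z j).card = ℓ) (j : ι) :
    ∑ p : Finset Ω, (miss (Z j) p - (1 / 2 : ℝ) ^ ℓ) * (miss (Z j) p - (1 / 2 : ℝ) ^ ℓ) =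
      2 ^ (Fintype.card Ω) * ((1 / 2 : ℝ) ^ ℓ - (1 / 2 : ℝ) ^ ℓ * (1 / 2 : ℝ) ^ ℓ) := by
  have e1 : ∀ p : Finset Ω, (miss (Z j) p - (1 / 2 : ℝ) ^ ℓ) * (miss (Z j) p - (1 / 2 : ℝ) ^ ℓ) =
      (1 - 2 * (1 / 2 : ℝ) ^ ℓ) * miss (Z j) p +
      (1 / 2 : ℝ) ^ ℓ * (1 / 2 : ℝ) ^ ℓ := by
    intro p
    rcases miss_01 (Z j) p with h | h <;> rw [h] <;> ring
  simp only [e1]
  rw [Finset.sum_add_distrib, ← Finset.mul_sum, sum_miss, hc, Finset.sum_const, Finset.card_univ,
    Fintype.card_finset, nsmul_eq_mul]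
  push_cast
  ring

/-- The variance bound. -/
theorem sum_sq_le (h1 : 1 ≤ ℓ) (hc : ∀ j, (Z j).card = ℓ)
    (hd : ∀ j k, j ≠ k → Disjoint (Z j) (Z k)) (W : ι → ℝ)
    (w0 : ∀ j, 0 ≤ W j) (w1 : ∀ j, W j ≤ 1) :
    ∑ p : Finset Ω, (∑ j, miss (Z j) p * W j - (1 / 2 : ℝ) ^ ℓ * ∑ j, W j) ^ 2 ≤
      2 ^ (Fintype.card Ω) * ((Fintype.card Ω : ℝ) / 4) := by
  classical
  have e1 : ∀ p : Finset Ω, (∑ j, miss (Z j) p * W j - (1 / 2 : ℝ) ^ ℓ * ∑ j, W j) ^ 2 =
      ∑ j, ∑ k, W j * W k *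
        ((miss (Z j) p - (1 / 2 : ℝ) ^ ℓ) * (miss (Z k) p - (1 / 2 : ℝ) ^ ℓ)) := by
    intro p
    have : ∑ j, miss (Z j) p * W j - (1 / 2 : ℝ) ^ ℓ * ∑ j, W j =
        ∑ j, W j * (miss (Z j) p - (1 / 2 : ℝ) ^ ℓ) := by
      rw [Finset.mul_sum, ← Finset.sum_sub_distrib]
      exact Finset.sum_congr rfl fun j _ => by ring
    rw [this, sq, Finset.sum_mul_sum]
    exact Finset.sum_congr rfl fun j _ => Finset.sum_congr rfl fun k _ => by ring
  simp only [e1]
  rw [Finset.sum_comm]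
  have e2 : ∀ j, ∑ p : Finset Ω, ∑ k, W j * W k *
        ((miss (Z j) p - (1 / 2 : ℝ) ^ ℓ) * (miss (Z k) p - (1 / 2 : ℝ) ^ ℓ)) ≤
      2 ^ (Fintype.card Ω) * (1 / 4) := by
    intro j
    rw [Finset.sum_comm]
    have e3 : ∀ k, ∑ p : Finset Ω, W j * W k *
        ((miss (Z j) p - (1 / 2 : ℝ) ^ ℓ) * (miss (Z k) p - (1 / 2 : ℝ) ^ ℓ)) =
        if k = j then W j * W j *
          (2 ^ (Fintype.card Ω) * ((1 / 2 : ℝ) ^ ℓ - (1 / 2 : ℝ) ^ ℓ * (1 / 2 : ℝ) ^ ℓ)) else 0 := by
      intro k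
      rw [← Finset.mul_sum]
      split_ifs with h
      · rw [h, sum_dev_sq Z ℓ hc j]
      · rw [sum_dev_mul Z ℓ hc hd j k (fun h' => h h'.symm), mul_zero]
    simp only [e3]
    rw [Finset.sum_ite_eq' Finset.univ j, if_pos (Finset.mem_univ _)]
    have h5 : (1 / 2 : ℝ) ^ ℓ - (1 / 2 : ℝ) ^ ℓ * (1 / 2 : ℝ) ^ ℓ ≤ 1 / 4 := by
      nlinarith [sq_nonneg ((1 / 2 : ℝ) ^ ℓ - 1 / 2)]
    have h6 : 0 ≤ (1 / 2 : ℝ) ^ ℓ - (1 / 2 : ℝ) ^ ℓ * (1 / 2 : ℝ) ^ ℓ := by
      have : (1 / 2 : ℝ) ^ ℓ ≤ 1 := pow_le_one₀ (by norm_num) (by norm_num)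
      have : 0 ≤ (1 / 2 : ℝ) ^ ℓ := by positivity
      nlinarith
    have h7 : W j * W j ≤ 1 := mul_le_one₀ (w1 j) (w0 j) (w1 j)
    have h8 : 0 ≤ W j * W j := mul_self_nonneg _
    calc W j * W j * (2 ^ (Fintype.card Ω) *
          ((1 / 2 : ℝ) ^ ℓ - (1 / 2 : ℝ) ^ ℓ * (1 / 2 : ℝ) ^ ℓ))
        ≤ 1 * (2 ^ (Fintype.card Ω) *
          ((1 / 2 : ℝ) ^ ℓ - (1 / 2 : ℝ) ^ ℓ * (1 / 2 : ℝ) ^ ℓ)) := by gcongr
      _ ≤ 2 ^ (Fintype.card Ω) * (1 / 4) := by rw [one_mul]; gcongr
  calc _ ≤ ∑ _j : ι, (2 : ℝ) ^ (Fintype.card Ω) * (1 / 4) := Finset.sum_le_sum fun j _ => e2 j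
    _ = (Fintype.card ι : ℝ) * (2 ^ (Fintype.card Ω) * (1 / 4)) := by
        rw [Finset.sum_const, Finset.card_univ, nsmul_eq_mul]
    _ ≤ (Fintype.card Ω : ℝ) * (2 ^ (Fintype.card Ω) * (1 / 4)) := by
        have : (Fintype.card ι : ℝ) ≤ Fintype.card Ω := by
          exact_mod_cast card_le_of_disjoint Z ℓ h1 hc hd
        gcongr
    _ = _ := by ring

end Variance

section Edges

variable (α β : Finset Ω → Finset Ω)

/-- The pair `(p, q)` is the chosen representation of `p ∪ q`. -/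
def half (p q : Finset Ω) : ℝ := if α (p ∪ q) = p ∧ β (p ∪ q) = q then 1 else 0

/-- `p` and `q` form, in some order, the chosen representation of `p ∪ q`. -/
def edg (p q : Finset Ω) : ℝ :=
  if (α (p ∪ q) = p ∧ β (p ∪ q) = q) ∨ (α (p ∪ q) = q ∧ β (p ∪ q) = p) then 1 else 0

theorem edg_01 (p q : Finset Ω) : edg α β p q = 0 ∨ edg α β p q = 1 := by
  unfold edg; split_ifs <;> simp

theorem edg_nonneg (p q : Finset Ω) : 0 ≤ edg α β p q := by
  unfold edg; split_ifs <;> norm_num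

theorem edg_le_one (p q : Finset Ω) : edg α β p q ≤ 1 := by
  unfold edg; split_ifs <;> norm_num

theorem edg_symm (p q : Finset Ω) : edg α β p q = edg α β q p := by
  unfold edg
  rw [Finset.union_comm p q]
  congr 1
  exact propext or_comm

theorem half_nonneg (p q : Finset Ω) : 0 ≤ half α β p q := by
  unfold half; split_ifs <;> norm_num

theorem edg_le (p q : Finset Ω) : edg α β p q ≤ half α β p q + half α β q p := by
  unfold edg half
  rw [Finset.union_comm q p]
  by_cases h1 : α (p ∪ q) = p ∧ β (p ∪ q) = q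
  · rw [if_pos (Or.inl h1), if_pos h1]
    split_ifs <;> norm_num
  · by_cases h2 : α (p ∪ q) = q ∧ β (p ∪ q) = p
    · rw [if_pos (Or.inr h2), if_neg h1, if_pos h2]
      norm_num
    · have h3 : ¬((α (p ∪ q) = p ∧ β (p ∪ q) = q) ∨ (α (p ∪ q) = q ∧ β (p ∪ q) = p)) := by
        rintro (h | h)
        · exact h1 h
        · exact h2 h
      rw [if_neg h3, if_neg h1, if_neg h2]
      norm_num

theorem le_edg (p q : Finset Ω) :
    half α β p q + half α β q p - (if p = q then 1 else 0) ≤ edg α β p q := by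
  unfold edg half
  rw [Finset.union_comm q p]
  by_cases h1 : α (p ∪ q) = p ∧ β (p ∪ q) = q
  · by_cases h2 : α (p ∪ q) = q ∧ β (p ∪ q) = p
    · have : p = q := h1.1.symm.trans h2.1
      rw [if_pos h1, if_pos h2, if_pos this, if_pos (Or.inl h1)]
      norm_num
    · rw [if_pos h1, if_neg h2, if_pos (Or.inl h1)]
      split_ifs <;> norm_num
  · by_cases h2 : α (p ∪ q) = q ∧ β (p ∪ q) = p
    · rw [if_neg h1, if_pos h2, if_pos (Or.inr h2)]
      split_ifs <;> norm_num
    · have h3 : ¬((α (p ∪ q) = p ∧ β (p ∪ q) = q) ∨ (α (p ∪ q) = q ∧ β (p ∪ q) = p)) := by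
        rintro (h | h)
        · exact h1 h
        · exact h2 h
      rw [if_neg h1, if_neg h2, if_neg h3]
      split_ifs <;> norm_num

theorem sum_half_le (f : Finset Ω → ℝ) (hf : ∀ x, 0 ≤ f x) (A : Finset (Finset Ω)) :
    ∑ p ∈ A, ∑ q ∈ A, half α β p q * f (p ∪ q) ≤ ∑ x, f x := by
  classical
  have h1 : ∀ p q, half α β p q * f (p ∪ q) ≤
      ∑ x, if α x = p then (if β x = q then f x else 0) else 0 := by
    intro p q
    have h2 : half α β p q * f (p ∪ q) =
        if α (p ∪ q) = p then (if β (p ∪ q) = q then f (p ∪ q) else 0) else 0 := by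
      unfold half
      split_ifs <;> simp_all
    rw [h2]
    exact Finset.single_le_sum (f := fun x => if α x = p then (if β x = q then f x else 0) else 0)
      (fun x _ => by
        have := hf x
        show 0 ≤ if α x = p then (if β x = q then f x else 0) else 0
        split_ifs <;> simp_all) (Finset.mem_univ _)
  have nn : ∀ p q : Finset Ω, 0 ≤ half α β p q * f (p ∪ q) := fun p q =>
    mul_nonneg (half_nonneg _ _ _ _) (hf _)
  calc ∑ p ∈ A, ∑ q ∈ A, half α β p q * f (p ∪ q)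
      ≤ ∑ p, ∑ q, half α β p q * f (p ∪ q) := by
        refine le_trans (Finset.sum_le_sum fun p _ =>
          Finset.sum_le_sum_of_subset_of_nonneg (Finset.subset_univ _) fun q _ _ => nn p q) ?_
        exact Finset.sum_le_sum_of_subset_of_nonneg (Finset.subset_univ _)
          fun p _ _ => Finset.sum_nonneg fun q _ => nn p q
    _ ≤ ∑ p, ∑ q, ∑ x, if α x = p then (if β x = q then f x else 0) else 0 :=
        Finset.sum_le_sum fun p _ => Finset.sum_le_sum fun q _ => h1 p q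
    _ = ∑ x, ∑ p, ∑ q, if α x = p then (if β x = q then f x else 0) else 0 := by
        rw [Finset.sum_congr rfl fun p _ => Finset.sum_comm]
        rw [Finset.sum_comm]
    _ = ∑ x, f x := by
        refine Finset.sum_congr rfl fun x _ => ?_
        have h3 : ∀ p, (∑ q, if α x = p then (if β x = q then f x else 0) else 0) =
            if α x = p then f x else 0 := by
          intro p
          split_ifs with h
          · rw [Finset.sum_ite_eq Finset.univ (β x) (fun _ => f x), if_pos (Finset.mem_univ _)]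
          · simp
        simp only [h3]
        rw [Finset.sum_ite_eq Finset.univ (α x) (fun _ => f x), if_pos (Finset.mem_univ _)]

theorem push (f : Finset Ω → ℝ) (hf : ∀ x, 0 ≤ f x) (A : Finset (Finset Ω)) :
    ∑ p ∈ A, ∑ q ∈ A, edg α β p q * f (p ∪ q) ≤ 2 * ∑ x, f x := by
  calc ∑ p ∈ A, ∑ q ∈ A, edg α β p q * f (p ∪ q)
      ≤ ∑ p ∈ A, ∑ q ∈ A, (half α β p q * f (p ∪ q) + half α β q p * f (q ∪ p)) := by
        refine Finset.sum_le_sum fun p _ => Finset.sum_le_sum fun q _ => ?_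
        rw [Finset.union_comm q p, ← add_mul]
        exact mul_le_mul_of_nonneg_right (edg_le α β p q) (hf _)
    _ = ∑ p ∈ A, ∑ q ∈ A, half α β p q * f (p ∪ q) +
        ∑ p ∈ A, ∑ q ∈ A, half α β q p * f (q ∪ p) := by
        simp only [Finset.sum_add_distrib]
    _ = ∑ p ∈ A, ∑ q ∈ A, half α β p q * f (p ∪ q) +
        ∑ q ∈ A, ∑ p ∈ A, half α β q p * f (q ∪ p) := by
        rw [Finset.sum_comm (s := A) (t := A) (f := fun p q => half α β q p * f (q ∪ p))]
    _ ≤ 2 * ∑ x, f x := by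
        have := sum_half_le α β f hf A
        linarith

/-- Counting: enough edges. -/
theorem count_edges (A D : Finset (Finset Ω)) (hD : ∀ x ∈ D, α x ∈ A ∧ β x ∈ A ∧ α x ∪ β x = x)
    (g : Finset Ω → Finset Ω → ℝ) (g0 : ∀ p q, 0 ≤ g p q) (g1 : ∀ p q, g p q ≤ 1)
    (gs : ∀ p q, g p q = g q p) (hg : ∀ x ∈ D, g (α x) (β x) = 1) :
    2 * (D.card : ℝ) - A.card ≤ ∑ p ∈ A, ∑ q ∈ A, edg α β p q * g p q := by
  classical
  have h1 : (D.card : ℝ) ≤ ∑ p ∈ A, ∑ q ∈ A, half α β p q * g p q := by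
    have e1 : ∑ p ∈ A, ∑ q ∈ A, half α β p q * g p q =
        ∑ r ∈ A ×ˢ A, half α β r.1 r.2 * g r.1 r.2 := by
      rw [Finset.sum_product]
    rw [e1]
    have inj : Set.InjOn (fun x => (α x, β x)) (D : Set (Finset Ω)) := by
      intro x hx y hy hxy
      simp only [Prod.mk.injEq] at hxy
      rw [← (hD x hx).2.2, ← (hD y hy).2.2, hxy.1, hxy.2]
    calc (D.card : ℝ) = ∑ x ∈ D, (1 : ℝ) := by simp
      _ = ∑ x ∈ D, half α β (α x) (β x) * g (α x) (β x) := by
          refine Finset.sum_congr rfl fun x hx => ?_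
          rw [hg x hx]
          unfold half
          rw [(hD x hx).2.2, if_pos ⟨rfl, rfl⟩, mul_one]
      _ = ∑ r ∈ D.image (fun x => (α x, β x)), half α β r.1 r.2 * g r.1 r.2 := by
          rw [Finset.sum_image inj]
      _ ≤ _ := by
          apply Finset.sum_le_sum_of_subset_of_nonneg
          · intro r hr
            rw [Finset.mem_image] at hr
            obtain ⟨x, hx, rfl⟩ := hr
            exact Finset.mem_product.mpr ⟨(hD x hx).1, (hD x hx).2.1⟩
          · intro r _ _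
            exact mul_nonneg (half_nonneg _ _ _ _) (g0 _ _)
  have h2 : ∑ p ∈ A, ∑ q ∈ A, half α β q p * g q p = ∑ p ∈ A, ∑ q ∈ A, half α β p q * g p q :=
    Finset.sum_comm
  have h3 : ∑ p ∈ A, ∑ q ∈ A, (if p = q then (1 : ℝ) else 0) = A.card := by
    have : ∀ p ∈ A, ∑ q ∈ A, (if p = q then (1 : ℝ) else 0) = 1 := by
      intro p hp
      rw [Finset.sum_ite_eq A p, if_pos hp]
    rw [Finset.sum_congr rfl this]
    simp
  calc 2 * (D.card : ℝ) - A.card
      ≤ ∑ p ∈ A, ∑ q ∈ A, half α β p q * g p q + ∑ p ∈ A, ∑ q ∈ A, half α β q p * g q p -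
        ∑ p ∈ A, ∑ q ∈ A, (if p = q then (1 : ℝ) else 0) := by
        rw [h2, h3]; linarith
    _ = ∑ p ∈ A, ∑ q ∈ A, (half α β p q * g p q + half α β q p * g q p -
        (if p = q then (1 : ℝ) else 0)) := by
        simp only [Finset.sum_add_distrib, Finset.sum_sub_distrib]
    _ ≤ _ := by
        refine Finset.sum_le_sum fun p _ => Finset.sum_le_sum fun q _ => ?_
        rw [gs q p, ← add_mul]
        have h4 := le_edg α β p q
        have h5 : (half α β p q + half α β q p - (if p = q then 1 else 0)) * g p q ≤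
            edg α β p q * g p q := mul_le_mul_of_nonneg_right h4 (g0 p q)
        refine le_trans ?_ h5
        rw [sub_mul]
        apply sub_le_sub_left
        split_ifs
        · rw [one_mul]; exact g1 p q
        · rw [zero_mul]

/-- Fixed `b`: the neighbours of `b` are determined by their union with `b`. -/
theorem nbr_unique (a a' b : Finset Ω) (h : edg α β a b = 1) (h' : edg α β a' b = 1)
    (hu : a ∪ b = a' ∪ b) : a = a' := by
  unfold edg at h h'
  rw [← hu] at h'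
  split_ifs at h h' with h1 h2
  · rcases h1 with h1 | h1 <;> rcases h2 with h2 | h2
    · rw [← h1.1, ← h2.1]
    · rw [← h1.1, ← h2.2, h2.1, h1.2]
    · rw [← h1.2, ← h2.1, h1.1, h2.2]
    · rw [← h1.2, ← h2.2]
  · exact absurd h' (by norm_num)
  · exact absurd h (by norm_num)
  · exact absurd h (by norm_num)

/-- The number of moves at neighbours of `b` inside `b` is at most the size of the family. -/
theorem moves_le (A : Finset (Finset Ω)) (b : Finset Ω) (F : Finset Ω → Finset (Finset Ω))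
    (hF : ∀ a ∈ A, ∀ Z ∈ F a, symmDiff a Z ∈ A) :
    ∑ a ∈ A, edg α β a b * (((F a).filter fun Z => Z ⊆ b).card : ℝ) ≤ A.card := by
  classical
  have h1 : ∀ a ∈ A, edg α β a b * (((F a).filter fun Z => Z ⊆ b).card : ℝ) ≤
      ∑ a' ∈ A, if edg α β a b = 1 ∧ a' ∪ b = a ∪ b then (1 : ℝ) else 0 := by
    intro a ha
    rcases edg_01 α β a b with h | h
    · rw [h, zero_mul]
      exact Finset.sum_nonneg fun a' _ => by split_ifs <;> norm_num
    · rw [h, one_mul]
      simp only [true_and]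
      rw [Finset.sum_boole]
      have : ((F a).filter fun Z => Z ⊆ b).card ≤ (A.filter fun a' => a' ∪ b = a ∪ b).card := by
        apply Finset.card_le_card_of_injOn (fun Z => symmDiff a Z)
        · intro Z hZ
          rw [Finset.mem_coe, Finset.mem_filter] at hZ
          rw [Finset.mem_coe, Finset.mem_filter]
          refine ⟨hF a ha Z hZ.1, ?_⟩
          ext i
          have := @hZ.2 i
          simp only [Finset.mem_union, Finset.mem_symmDiff]
          tauto
        · intro Z _ Z' _ hZZ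
          exact symmDiff_right_injective a hZZ
      exact_mod_cast this
  calc ∑ a ∈ A, edg α β a b * (((F a).filter fun Z => Z ⊆ b).card : ℝ)
      ≤ ∑ a ∈ A, ∑ a' ∈ A, if edg α β a b = 1 ∧ a' ∪ b = a ∪ b then (1 : ℝ) else 0 :=
        Finset.sum_le_sum h1
    _ = ∑ a' ∈ A, ∑ a ∈ A, if edg α β a b = 1 ∧ a' ∪ b = a ∪ b then (1 : ℝ) else 0 :=
        Finset.sum_comm
    _ ≤ ∑ _a' ∈ A, (1 : ℝ) := by
        refine Finset.sum_le_sum fun a' _ => ?_
        rw [Finset.sum_boole]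
        have : (A.filter fun a => edg α β a b = 1 ∧ a' ∪ b = a ∪ b).card ≤ 1 := by
          rw [Finset.card_le_one]
          intro a1 h1 a2 h2
          rw [Finset.mem_filter] at h1 h2
          exact nbr_unique α β a1 a2 b h1.2.1 h2.2.1 (h1.2.2.symm.trans h2.2.2)
        exact_mod_cast this
    _ = A.card := by simp

end Edges

end Run7.h859
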