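import Pool.Agent.Run7.h859.Graph

/-!
Quantitative bookkeeping and the final statements for a general finite ground set.
-/

namespace Run7.h859

open Finset Filter Topology

set_option linter.unusedSectionVars false

/-- `κ₀` as a function of `δ`. -/
noncomputable def kB (d : ℕ) (γ δ : ℝ) : ℝ :=
  (4 * 2 ^ d * δ + √(10 * (2 ^ d * 2 ^ d) * δ)) / γ ^ 2

/-- `muB` as a function of `δ`, `κ` and `y = 1 / N`. -/
noncomputable def muY (d : ℕ) (ε δ κ y : ℝ) : ℝ :=
  2 ^ d * (δ + κ) / ε + d * (2 ^ d * (δ + κ)) / ε ^ 2 +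
    d * ((2 ^ d * κ + y) / ((1 - √(1 / 2 : ℝ)) ^ d * (ε / d)))

theorem muB_eq (d : ℕ) (ε δ κ N : ℝ) : muB δ κ N ε d = muY d ε δ κ (1 / N) := rfl

/-- The total error. -/
noncomputable def errY (d : ℕ) (ε γ δ y : ℝ) : ℝ :=
  2 * √(muY d ε δ (2 ^ d * (δ + kB d γ δ)) y / γ) +
    4 * √(muY d ε δ (2 ^ d * (δ + kB d γ δ)) y) + 2 * muY d ε δ (kB d γ δ) y

theorem errY_tendsto (d : ℕ) (ε γ η : ℝ) :
    Tendsto (fun N : ℕ => errY d ε γ (√(1 / (2 * η * N))) (1 / N)) atTop (𝓝 0) := by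
  have hc : Continuous fun p : ℝ × ℝ => errY d ε γ p.1 p.2 := by
    unfold errY muY kB
    fun_prop
  have h0 : errY d ε γ 0 0 = 0 := by
    unfold errY muY kB
    simp
  have h1 : Tendsto (fun N : ℕ => (1 : ℝ) / N) atTop (𝓝 0) := tendsto_one_div_atTop_nhds_zero_nat
  have h2 : Tendsto (fun N : ℕ => √(1 / (2 * η * N))) atTop (𝓝 0) := by
    have h3 : (fun N : ℕ => √(1 / (2 * η * N))) = fun N : ℕ => √((1 / (2 * η)) * (1 / N)) := by
      funext N
      congr 1
      rw [one_div_mul_one_div]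
    rw [h3]
    have h4 : Tendsto (fun N : ℕ => (1 / (2 * η)) * ((1 : ℝ) / N)) atTop (𝓝 ((1 / (2 * η)) * 0)) :=
      h1.const_mul _
    rw [mul_zero] at h4
    have h5 := (Real.continuous_sqrt.tendsto 0).comp h4
    rw [Real.sqrt_zero] at h5
    exact h5
  have h3 : Tendsto (fun N : ℕ => ((√(1 / (2 * η * N)), (1 : ℝ) / N) : ℝ × ℝ)) atTop
      (𝓝 ((0 : ℝ), (0 : ℝ))) := by
    rw [nhds_prod_eq]
    exact h2.prodMk h1
  have h4 := (hc.tendsto ((0 : ℝ), (0 : ℝ))).comp h3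
  rw [h0] at h4
  exact h4

variable {Ω : Type} [Fintype Ω] [DecidableEq Ω]

/-- The condition defining generic (non-exceptional) members. -/
def Gen (A : Finset (Finset Ω)) {I : Type} [Fintype I] (U : I → Finset (Finset Ω)) (ε : ℝ) (d : ℕ)
    (a : Finset Ω) : Prop :=
  (ε * Fintype.card Ω < |(a.card : ℝ) - (1 - √(1 / 2 : ℝ)) * Fintype.card Ω|) ∨
  (ε * Fintype.card I < ((Finset.univ.filter fun i => ε * Fintype.card Ω <
    |(((U i).filter fun Z => Disjoint a Z).card : ℝ) -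
      ∑ Z ∈ U i, √(1 / 2 : ℝ) ^ Z.card|).card : ℝ)) ∨
  (∃ F : Finset (Finset Ω),
    (∀ Z ∈ F, Z.Nonempty ∧ Z.card ≤ d ∧ symmDiff a Z ∈ A) ∧
    (∀ Z ∈ F, ∀ Z' ∈ F, Z ≠ Z' → Disjoint Z Z') ∧ ε * Fintype.card Ω < F.card)

/-- Admissible lists of test families. -/
def Adm {I : Type} (U : I → Finset (Finset Ω)) (d : ℕ) : Prop :=
  ∀ i, (∀ Z ∈ U i, Z.Nonempty ∧ Z.card ≤ d) ∧ ∀ Z ∈ U i, ∀ Z' ∈ U i, Z ≠ Z' → Disjoint Z Z'

theorem av_mem (A : Finset (Finset Ω)) (f : Finset Ω → ℝ) :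
    av (fun v : Mem A => f v.1) = (∑ v ∈ A, f v) / A.card := by
  unfold av
  rw [Fintype.card_coe, Finset.sum_coe_sort A f]

theorem av_av_mem (A : Finset (Finset Ω)) (f : Finset Ω → Finset Ω → ℝ) :
    av (fun v : Mem A => av (fun w : Mem A => f v.1 w.1)) =
      (∑ v ∈ A, ∑ w ∈ A, f v w) / (A.card : ℝ) ^ 2 := by
  simp only [av_mem A (f _)]
  rw [av_mem A (fun v => (∑ w ∈ A, f v w) / A.card), ← Finset.sum_div, div_div, sq]

/-- The set of unions. -/
def un (A B : Finset (Finset Ω)) : Finset (Finset Ω) := Finset.image₂ (fun a b => a ∪ b) A B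

theorem un_card_le (A B : Finset (Finset Ω)) : (un A B).card ≤ A.card * B.card :=
  Finset.card_image₂_le _ A B

/-- Edges inside `B` are at most twice the number of unions. -/
theorem edges_inside (α β : Finset Ω → Finset Ω) (B : Finset (Finset Ω)) :
    ∑ p ∈ B, ∑ q ∈ B, edg α β p q ≤ 2 * ((un B B).card : ℝ) := by
  classical
  have h := push α β (fun x => if x ∈ un B B then 1 else 0)
    (fun x => by split_ifs <;> norm_num) B
  rw [Finset.sum_boole] at h
  have e1 : (Finset.univ.filter fun x => x ∈ un B B) = un B B := by ext x; simp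
  rw [e1] at h
  refine le_trans (le_of_eq ?_) h
  refine Finset.sum_congr rfl fun p hp => Finset.sum_congr rfl fun q hq => ?_
  rw [if_pos (show p ∪ q ∈ un B B from Finset.mem_image₂_of_mem hp hq), mul_one]

/-- **Core statement.** -/
theorem core (A : Finset (Finset Ω)) (hA0 : A.Nonempty) (α β : Finset Ω → Finset Ω)
    (η : ℝ) (hη : 0 < η) (hA : η * 2 ^ Fintype.card Ω ≤ (A.card : ℝ) ^ 2)
    (d : ℕ) (hd : 1 ≤ d) (hN : 0 < Fintype.card Ω) (ε : ℝ) (hε : 0 < ε) (γ : ℝ) (hγ : 0 < γ)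
    {I : Type} [Fintype I] (U : I → Finset (Finset Ω)) (hU : Adm U d)
    (B : Finset (Finset Ω)) (hBA : B ⊆ A) (hB : ∀ a ∈ B, Gen A U ε d a) :
    ∃ t a b u k : ℝ, 0 ≤ t ∧ 0 ≤ a ∧ 0 ≤ b ∧ 0 ≤ u ∧ 0 ≤ k ∧ t + a + b + u = 1 ∧
      (B.card : ℝ) / A.card -
        errY d ε γ (√(1 / (2 * η * Fintype.card Ω))) (1 / Fintype.card Ω) ≤ u ∧
      k ≤ 2 * ((un B B).card : ℝ) / (A.card : ℝ) ^ 2 ∧
      k ≤ u ^ 2 / 2 + √(γ / 2) ∧
      av (fun p : Mem A => av (fun q : Mem A => edg α β p.1 q.1)) -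
        (errY d ε γ (√(1 / (2 * η * Fintype.card Ω))) (1 / Fintype.card Ω) + √(γ / 2)) ≤
        t ^ 2 + 2 * t * a + (a + b + u) ^ 2 / 2 ∧
      av (fun p : Mem A => av (fun q : Mem A => edg α β p.1 q.1)) -
        (errY d ε γ (√(1 / (2 * η * Fintype.card Ω))) (1 / Fintype.card Ω) + √(γ / 2)) ≤
        t ^ 2 + 2 * t * a + (a + b) ^ 2 / 2 + 2 * b * u + k ∧
      av (fun v : Mem A => triW (fun p q : Mem A => edg α β p.1 q.1) v) ≤ γ + t := by
  classical
  have hm : (0 : ℝ) < A.card := by exact_mod_cast Finset.card_pos.mpr hA0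
  have : Nonempty (Mem A) := ⟨⟨hA0.choose, hA0.choose_spec⟩⟩
  have E := EG.of A α β η hη hA
  set δ := √(1 / (2 * η * Fintype.card Ω)) with hδ
  have R0 := E.tri d γ hγ
  have R1 := R0.next E
  have m2 := R0.lemmaM E hd hN ε hε U (fun i => (hU i).1) (fun i => (hU i).2)
    (fun a => a.1 ∈ B) (fun a ha => hB a.1 ha)
  have m3 := R1.lemmaM E hd hN ε hε U (fun i => (hU i).1) (fun i => (hU i).2)
    (fun a => a.1 ∈ B) (fun a ha => hB a.1 ha)
  obtain ⟨t, a, b, u, k, h1, h2, h3, h4, hk0, h5, h6, hkB, hkM, h7, h8, h9⟩ :=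
    decomposition E γ hγ _ _ (fun a => a.1 ∈ B) m2 m3
  have m2nn := le_trans (av_nonneg (fun a : Mem A => mul_nonneg
    (show 0 ≤ (if a.1 ∈ B then (1 : ℝ) else 0) by split_ifs <;> norm_num)
    (av_nonneg fun v => mul_nonneg (E.e0 a v) (R0.w0 v)))) m2
  set μ₂ := muB δ ((4 * 2 ^ d * δ + √(10 * (2 ^ d * 2 ^ d) * δ)) / γ ^ 2)
    (Fintype.card Ω) ε d with hμ₂
  set μ₃ := muB δ (2 ^ d * (δ + (4 * 2 ^ d * δ + √(10 * (2 ^ d * 2 ^ d) * δ)) / γ ^ 2))
    (Fintype.card Ω) ε d with hμ₃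
  have herr : errY d ε γ δ (1 / Fintype.card Ω) = 2 * √(μ₃ / γ) + 4 * √μ₃ + 2 * μ₂ := by
    rw [hμ₂, hμ₃, muB_eq, muB_eq]
    unfold errY kB
    ring
  have s1 : 0 ≤ √(μ₃ / γ) := Real.sqrt_nonneg _
  have s2 : 0 ≤ √μ₃ := Real.sqrt_nonneg _
  have hβ : av (fun a : Mem A => if a.1 ∈ B then (1 : ℝ) else 0) = (B.card : ℝ) / A.card := by
    rw [av_mem A (fun a => if a ∈ B then (1 : ℝ) else 0), Finset.sum_boole]
    congr 2
    congr 1
    ext x
    simp only [Finset.mem_filter]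
    exact ⟨fun h => h.2, fun h => ⟨hBA h, h⟩⟩
  have hbl : bl (fun p q : Mem A => edg α β p.1 q.1) (fun a => if a.1 ∈ B then 1 else 0)
      (fun a => if a.1 ∈ B then 1 else 0) ≤ 2 * ((un B B).card : ℝ) / (A.card : ℝ) ^ 2 := by
    unfold bl
    rw [av_av_mem A (fun p q => (if p ∈ B then (1 : ℝ) else 0) * (if q ∈ B then 1 else 0) *
      edg α β p q)]
    apply div_le_div_of_nonneg_right _ (by positivity)
    refine le_trans (le_of_eq ?_) (edges_inside α β B)
    have e1 : ∀ p, ∑ q ∈ A, (if p ∈ B then (1 : ℝ) else 0) * (if q ∈ B then 1 else 0) *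
        edg α β p q = if p ∈ B then ∑ q ∈ B, edg α β p q else 0 := by
      intro p
      split_ifs with hp
      · have e2 : ∀ q, (1 : ℝ) * (if q ∈ B then (1 : ℝ) else 0) * edg α β p q =
            if q ∈ B then edg α β p q else 0 := by
          intro q; split_ifs <;> ring
        simp only [e2]
        rw [← Finset.sum_filter]
        congr 1
        ext x
        simp only [Finset.mem_filter]
        exact ⟨fun h => h.2, fun h => ⟨hBA h, h⟩⟩
      · simp
    simp only [e1]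
    rw [← Finset.sum_filter]
    congr 1
    ext x
    simp only [Finset.mem_filter]
    exact ⟨fun h => h.2, fun h => ⟨hBA h, h⟩⟩
  refine ⟨t, a, b, u, k, h1, h2, h3, h4, hk0, h5, ?_, hkB.trans hbl, hkM, ?_, ?_, h9⟩
  · rw [hβ] at h6
    rw [herr]
    linarith
  · rw [herr]
    linarith
  · rw [herr]
    linarith

/-- Touching generic members: the representations which use a generic member. -/
theorem touch_bound (A : Finset (Finset Ω)) (hA0 : A.Nonempty) (α β : Finset Ω → Finset Ω)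
    (η : ℝ) (hη : 0 < η) (hA : η * 2 ^ Fintype.card Ω ≤ (A.card : ℝ) ^ 2)
    (d : ℕ) (hd : 1 ≤ d) (hN : 0 < Fintype.card Ω) (ε : ℝ) (hε : 0 < ε) (γ : ℝ) (hγ : 0 < γ)
    {I : Type} [Fintype I] (U : I → Finset (Finset Ω)) (hU : Adm U d)
    [DecidablePred (Gen A U ε d)] :
    (∑ p ∈ A, ∑ q ∈ A, edg α β p q * (if Gen A U ε d p ∨ Gen A U ε d q then 1 else 0)) ≤
      (1 / 2 + errY d ε γ (√(1 / (2 * η * Fintype.card Ω))) (1 / Fintype.card Ω) +
        √(γ / 2)) * (A.card : ℝ) ^ 2 := by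
  classical
  have hm : (0 : ℝ) < A.card := by exact_mod_cast Finset.card_pos.mpr hA0
  have : Nonempty (Mem A) := ⟨⟨hA0.choose, hA0.choose_spec⟩⟩
  have E := EG.of A α β η hη hA
  set δ := √(1 / (2 * η * Fintype.card Ω)) with hδ
  obtain ⟨e, he⟩ : ∃ e : Mem A → Mem A → ℝ, e = fun p q => edg α β p.1 q.1 := ⟨_, rfl⟩
  rw [← he] at E
  have R0 := E.tri d γ hγ
  have R1 := R0.next E
  have m2 := R0.lemmaM E hd hN ε hε U (fun i => (hU i).1) (fun i => (hU i).2)
    (fun a => Gen A U ε d a.1) (fun a ha => ha)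
  have m3 := R1.lemmaM E hd hN ε hε U (fun i => (hU i).1) (fun i => (hU i).2)
    (fun a => Gen A U ε d a.1) (fun a ha => ha)
  have e0 := E.e0
  have e1 := E.e1
  have es := E.es
  obtain ⟨χG, hG⟩ : ∃ χG : Mem A → ℝ, ∀ v, χG v = if Gen A U ε d v.1 then 1 else 0 :=
    ⟨_, fun _ => rfl⟩
  obtain ⟨χT, hT⟩ : ∃ χT : Mem A → ℝ, ∀ v, χT v = if γ ≤ triW e v then 1 else 0 :=
    ⟨_, fun _ => rfl⟩
  simp only [← hG, ← hT] at m2 m3
  set μ₂ := muB δ ((4 * 2 ^ d * δ + √(10 * (2 ^ d * 2 ^ d) * δ)) / γ ^ 2)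
    (Fintype.card Ω) ε d with hμ₂
  set μ₃ := muB δ (2 ^ d * (δ + (4 * 2 ^ d * δ + √(10 * (2 ^ d * 2 ^ d) * δ)) / γ ^ 2))
    (Fintype.card Ω) ε d with hμ₃
  have hT01 : ∀ v, χT v = 0 ∨ χT v = 1 := fun v => by rw [hT]; split_ifs <;> simp
  have hG01 : ∀ v, χG v = 0 ∨ χG v = 1 := fun v => by rw [hG]; split_ifs <;> simp
  have hT0 : ∀ v, 0 ≤ χT v := fun v => by rcases hT01 v with h | h <;> rw [h]; norm_num
  have hG0 : ∀ v, 0 ≤ χG v := fun v => by rcases hG01 v with h | h <;> rw [h]; norm_num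
  have hT1 : ∀ v, χT v ≤ 1 := fun v => by rcases hT01 v with h | h <;> rw [h]; norm_num
  obtain ⟨_, μ30, hTG⟩ := few_common E γ hγ μ₃ χG χT hG01 hT m3
  have bGT : bl e χG χT ≤ μ₂ := by
    refine le_trans (le_of_eq ?_) m2
    rw [bl_eq]
    refine congrArg av (funext fun a => ?_)
    congr 1
    exact congrArg av (funext fun b => mul_comm _ _)
  have small : ∀ v, χT v = 0 → triW e v ≤ γ := by
    intro v hv
    by_contra hcon
    push Not at hcon
    have := hT v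
    rw [if_pos hcon.le, hv] at this
    norm_num at this
  have mS : bl e (fun v => 1 - χT v) (fun v => 1 - χT v) ≤ 1 / 2 + √(γ / 2) := by
    have h := mantel e e0 e1 es γ hγ.le (fun v => 1 - χT v) (fun v => by
        rcases hT01 v with h | h
        · right; rw [h]; norm_num
        · left; rw [h]; norm_num) (fun v hv => small v (by linarith))
    refine le_trans h ?_
    have a0 : 0 ≤ av (fun v => 1 - χT v) := av_nonneg fun v => by have := hT1 v; linarith
    have a1 : av (fun v => 1 - χT v) ≤ 1 := av_le zero_le_one fun v => by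
      have := hT0 v; linarith
    nlinarith
  have s1 : 0 ≤ √(γ / 2) := Real.sqrt_nonneg _
  have s2 : 0 ≤ √μ₃ := Real.sqrt_nonneg _
  have pt : ∀ p q : Mem A, e p q * (if Gen A U ε d p.1 ∨ Gen A U ε d q.1 then 1 else 0) ≤
      (1 - χT p) * (1 - χT q) * e p q + (χG q * χT p * e p q + χG p * χT q * e p q) +
      (χG p * χT p + χG q * χT q) := by
    intro p q
    have a0 := e0 p q
    have a1 := e1 p q
    have hor : (if Gen A U ε d p.1 ∨ Gen A U ε d q.1 then (1 : ℝ) else 0) ≤ χG p + χG q := by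
      rw [hG, hG]
      by_cases h : Gen A U ε d p.1 <;> by_cases h' : Gen A U ε d q.1 <;> simp [h, h']
    have hor1 : (if Gen A U ε d p.1 ∨ Gen A U ε d q.1 then (1 : ℝ) else 0) ≤ 1 := by
      split_ifs <;> norm_num
    have hor0 : 0 ≤ (if Gen A U ε d p.1 ∨ Gen A U ε d q.1 then (1 : ℝ) else 0) := by
      split_ifs <;> norm_num
    set o := (if Gen A U ε d p.1 ∨ Gen A U ε d q.1 then (1 : ℝ) else 0)
    have g1 := hG0 p
    have g2 := hG0 q
    rcases hT01 p with hp | hp <;> rcases hT01 q with hq | hq <;> rw [hp, hq]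
    · nlinarith
    · nlinarith [mul_nonneg a0 g1, mul_nonneg a0 g2,
        mul_nonneg (sub_nonneg.mpr a1) g2, mul_nonneg (sub_nonneg.mpr a1) g1]
    · nlinarith [mul_nonneg a0 g1, mul_nonneg a0 g2,
        mul_nonneg (sub_nonneg.mpr a1) g2, mul_nonneg (sub_nonneg.mpr a1) g1]
    · nlinarith [mul_nonneg a0 g1, mul_nonneg a0 g2,
        mul_nonneg (sub_nonneg.mpr a1) g2, mul_nonneg (sub_nonneg.mpr a1) g1]
  have main : av (fun p : Mem A => av (fun q : Mem A =>
      e p q * (if Gen A U ε d p.1 ∨ Gen A U ε d q.1 then 1 else 0))) ≤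
      1 / 2 + √(γ / 2) + 2 * μ₂ + 2 * √(μ₃ / γ) := by
    calc _ ≤ av (fun p => av (fun q =>
          (1 - χT p) * (1 - χT q) * e p q + (χG q * χT p * e p q + χG p * χT q * e p q) +
          (χG p * χT p + χG q * χT q))) := av_mono fun p => av_mono fun q => pt p q
      _ = bl e (fun v => 1 - χT v) (fun v => 1 - χT v) + (bl e χG χT + bl e χG χT) +
          (av (fun v => χG v * χT v) + av (fun v => χG v * χT v)) := by
          simp only [av_add, av_const]
          have h5 : av (fun p => av (fun q => χG q * χT p * e p q)) = bl e χG χT := by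
            unfold bl
            rw [av_comm]
            refine congrArg av (funext fun q => congrArg av (funext fun p => ?_))
            rw [es p q]
          rw [h5]
          rfl
      _ ≤ _ := by linarith
  have conv : (∑ p ∈ A, ∑ q ∈ A, edg α β p q *
      (if Gen A U ε d p ∨ Gen A U ε d q then (1 : ℝ) else 0)) = av (fun p : Mem A =>
      av (fun q : Mem A => e p q * (if Gen A U ε d p.1 ∨ Gen A U ε d q.1 then 1 else 0))) *
        (A.card : ℝ) ^ 2 := by
    rw [he]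
    rw [av_av_mem A (fun p q => edg α β p q *
      (if Gen A U ε d p ∨ Gen A U ε d q then (1 : ℝ) else 0))]
    field_simp
  rw [conv]
  apply mul_le_mul_of_nonneg_right _ (by positivity)
  refine le_trans main ?_
  have : errY d ε γ δ (1 / Fintype.card Ω) = 2 * √(μ₃ / γ) + 4 * √μ₃ + 2 * μ₂ := by
    rw [hμ₂, hμ₃, muB_eq, muB_eq]
    unfold errY kB
    ring
  rw [this]
  linarith

end Run7.h859
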