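import Pool.Agent.Run7.h859.Moves

/-!
The graph part: Mantel's bound outside the vertices in many triangles, and the decomposition
of the family.
-/

namespace Run7.h859

open Finset

set_option linter.unusedSectionVars false

section Bilinear

variable {V : Type} [Fintype V] (e : V → V → ℝ)

/-- The weighted number of edges between two weight functions. -/
noncomputable def bl (f g : V → ℝ) : ℝ := av (fun p => av (fun q => f p * g q * e p q))

theorem bl_add_left (f f' g : V → ℝ) :
    bl e (fun v => f v + f' v) g = bl e f g + bl e f' g := by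
  unfold bl
  rw [← av_add]
  refine congrArg av (funext fun p => ?_)
  rw [← av_add]
  refine congrArg av (funext fun q => ?_)
  ring

theorem bl_symm (he : ∀ p q, e p q = e q p) (f g : V → ℝ) : bl e f g = bl e g f := by
  unfold bl
  rw [av_comm]
  refine congrArg av (funext fun p => congrArg av (funext fun q => ?_))
  rw [he q p]; ring

theorem bl_add_right (f g g' : V → ℝ) :
    bl e f (fun v => g v + g' v) = bl e f g + bl e f g' := by
  unfold bl
  rw [← av_add]
  refine congrArg av (funext fun p => ?_)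
  rw [← av_add]
  refine congrArg av (funext fun q => ?_)
  ring

theorem bl_nonneg (h0 : ∀ p q, 0 ≤ e p q) (f g : V → ℝ) (hf : ∀ v, 0 ≤ f v) (hg : ∀ v, 0 ≤ g v) :
    0 ≤ bl e f g :=
  av_nonneg fun p => av_nonneg fun q => mul_nonneg (mul_nonneg (hf p) (hg q)) (h0 p q)

theorem bl_le (h1 : ∀ p q, e p q ≤ 1) (f g : V → ℝ) (hf : ∀ v, 0 ≤ f v) (hg : ∀ v, 0 ≤ g v) :
    bl e f g ≤ av f * av g := by
  rw [av_mul_av]
  exact av_mono fun p => av_mono fun q =>
    mul_le_of_le_one_right (mul_nonneg (hf p) (hg q)) (h1 p q)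

theorem bl_mono (h0 : ∀ p q, 0 ≤ e p q) (f g f' g' : V → ℝ) (hf : ∀ v, f v ≤ f' v)
    (hg : ∀ v, g v ≤ g' v) (hf0 : ∀ v, 0 ≤ f v) (hg0 : ∀ v, 0 ≤ g v) :
    bl e f g ≤ bl e f' g' :=
  av_mono fun p => av_mono fun q => mul_le_mul_of_nonneg_right
    (mul_le_mul (hf p) (hg q) (hg0 q) ((hf0 p).trans (hf p))) (h0 p q)

/-- The degree into `g`. -/
noncomputable def dg (g : V → ℝ) (v : V) : ℝ := av (fun q => g q * e v q)

theorem bl_eq (f g : V → ℝ) : bl e f g = av (fun v => f v * dg e g v) := by
  unfold bl dg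
  refine congrArg av (funext fun p => ?_)
  rw [← av_mul_left]
  refine congrArg av (funext fun q => ?_)
  ring

theorem dg_nonneg (h0 : ∀ p q, 0 ≤ e p q) (g : V → ℝ) (hg : ∀ v, 0 ≤ g v) (v : V) :
    0 ≤ dg e g v := av_nonneg fun q => mul_nonneg (hg q) (h0 v q)

theorem dg_mono (h0 : ∀ p q, 0 ≤ e p q) (g g' : V → ℝ) (hg : ∀ v, g v ≤ g' v) (v : V) :
    dg e g v ≤ dg e g' v := av_mono fun q => mul_le_mul_of_nonneg_right (hg q) (h0 v q)

/-- Mantel's bound for a set of vertices each in few triangles. -/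
theorem mantel (h0 : ∀ p q, 0 ≤ e p q) (h1 : ∀ p q, e p q ≤ 1) (hs : ∀ p q, e p q = e q p)
    (γ : ℝ) (hγ : 0 ≤ γ) (σ : V → ℝ) (hσ : ∀ v, σ v = 0 ∨ σ v = 1)
    (hT : ∀ v, σ v = 1 → triW e v ≤ γ) :
    bl e σ σ ≤ (av σ) ^ 2 / 2 + √(γ / 2) := by
  have s0 : ∀ v, 0 ≤ σ v := fun v => by rcases hσ v with h | h <;> rw [h]; norm_num
  have s1 : ∀ v, σ v ≤ 1 := fun v => by rcases hσ v with h | h <;> rw [h]; norm_num
  have ss : ∀ v, σ v * σ v = σ v := fun v => by rcases hσ v with h | h <;> rw [h] <;> norm_num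
  have as0 : 0 ≤ av σ := av_nonneg s0
  have as1 : av σ ≤ 1 := av_le zero_le_one s1
  have pt : ∀ p q r, σ p * σ q * e p q * (σ r * e p r + σ r * e q r) ≤
      σ p * σ q * e p q * σ r + σ p * (e p q * e q r * e r p) := by
    intro p q r
    have a1 := h0 p r
    have a2 := h0 q r
    have b1 := h1 p r
    have b2 := h1 q r
    have c1 := h0 p q
    have c2 := s0 p
    have c3 := s0 q
    have c4 := s0 r
    have c5 := s1 q
    have c6 := s1 r
    have i1 : σ r * e p r + σ r * e q r ≤ σ r + σ r * (e q r * e p r) := by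
      have : 0 ≤ (1 - e p r) * (1 - e q r) := mul_nonneg (by linarith) (by linarith)
      nlinarith
    calc σ p * σ q * e p q * (σ r * e p r + σ r * e q r)
        ≤ σ p * σ q * e p q * (σ r + σ r * (e q r * e p r)) :=
          mul_le_mul_of_nonneg_left i1 (by positivity)
      _ = σ p * σ q * e p q * σ r + σ p * (e p q * e q r * e p r) * (σ q * σ r) := by ring
      _ ≤ σ p * σ q * e p q * σ r + σ p * (e p q * e q r * e p r) * 1 := by
          have : σ q * σ r ≤ 1 := mul_le_one₀ c5 c4 c6
          gcongr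
      _ = _ := by rw [hs r p, mul_one]
  -- sum over all triples
  have sum1 : av (fun p => av (fun q => av (fun r =>
      σ p * σ q * e p q * (σ r * e p r + σ r * e q r)))) =
      2 * av (fun p => σ p * dg e σ p ^ 2) := by
    have e1 : av (fun p => av (fun q => av (fun r =>
        σ p * σ q * e p q * (σ r * e p r + σ r * e q r)))) =
        av (fun p => av (fun q => av (fun r => σ p * σ q * e p q * (σ r * e p r)))) +
        av (fun p => av (fun q => av (fun r => σ p * σ q * e p q * (σ r * e q r)))) := by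
      simp only [mul_add, av_add]
    have e2 : av (fun p => av (fun q => av (fun r => σ p * σ q * e p q * (σ r * e p r)))) =
        av (fun p => σ p * dg e σ p ^ 2) := by
      refine congrArg av (funext fun p => ?_)
      rw [sq]
      unfold dg
      rw [av_mul_av, ← av_mul_left]
      refine congrArg av (funext fun q => ?_)
      rw [← av_mul_left]
      refine congrArg av (funext fun r => ?_)
      ring
    have e3 : av (fun p => av (fun q => av (fun r => σ p * σ q * e p q * (σ r * e q r)))) =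
        av (fun p => σ p * dg e σ p ^ 2) := by
      rw [av_comm, ← e2]
      refine congrArg av (funext fun p => congrArg av (funext fun q =>
        congrArg av (funext fun r => ?_)))
      rw [hs q p]; ring
    rw [e1, e2, e3]; ring
  have sum2 : av (fun p => av (fun q => av (fun r =>
      σ p * σ q * e p q * σ r + σ p * (e p q * e q r * e r p)))) ≤
      bl e σ σ * av σ + γ := by
    have e1 : av (fun p => av (fun q => av (fun r =>
        σ p * σ q * e p q * σ r + σ p * (e p q * e q r * e r p)))) =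
        bl e σ σ * av σ + av (fun p => σ p * triW e p) := by
      simp only [av_add]
      congr 1
      · unfold bl
        rw [← av_mul_right]
        refine congrArg av (funext fun p => ?_)
        rw [← av_mul_right]
        refine congrArg av (funext fun q => ?_)
        rw [av_mul_left]
      · refine congrArg av (funext fun p => ?_)
        unfold triW
        rw [← av_mul_left]
        refine congrArg av (funext fun q => ?_)
        rw [av_mul_left]
    rw [e1]
    have : av (fun p => σ p * triW e p) ≤ γ := by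
      refine av_le hγ fun v => ?_
      rcases hσ v with h | h
      · rw [h, zero_mul]; exact hγ
      · rw [h, one_mul]; exact hT v h
    linarith
  have main : 2 * av (fun p => σ p * dg e σ p ^ 2) ≤ bl e σ σ * av σ + γ := by
    rw [← sum1]
    exact le_trans (av_mono fun p => av_mono fun q => av_mono fun r => pt p q r) sum2
  have cs : (bl e σ σ) ^ 2 ≤ av σ * av (fun p => σ p * dg e σ p ^ 2) := by
    rw [bl_eq]
    have h := av_cs (V := V) σ (fun v => σ v * dg e σ v)
    have e1 : (fun v => σ v * (σ v * dg e σ v)) = fun v => σ v * dg e σ v := by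
      funext v; rw [← mul_assoc, ss]
    have e2 : (fun v => σ v ^ 2) = σ := by funext v; rw [sq, ss]
    have e3 : (fun v => (σ v * dg e σ v) ^ 2) = fun v => σ v * dg e σ v ^ 2 := by
      funext v; rw [mul_pow, sq (σ v), ss]
    rw [e1, e2, e3] at h
    exact h
  have b0 : 0 ≤ bl e σ σ := bl_nonneg e h0 σ σ s0 s0
  set x := bl e σ σ
  set s := av σ
  set D := av (fun p => σ p * dg e σ p ^ 2)
  -- `x * (2 * x - s ^ 2) ≤ γ`
  have fin : x * (2 * x - s ^ 2) ≤ γ := by
    have h2 : 2 * x ^ 2 ≤ s * (x * s + γ) := by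
      calc 2 * x ^ 2 ≤ 2 * (s * D) := by linarith
        _ = s * (2 * D) := by ring
        _ ≤ s * (x * s + γ) := mul_le_mul_of_nonneg_left main as0
    nlinarith
  by_contra hcon
  push Not at hcon
  have hr : 0 ≤ √(γ / 2) := Real.sqrt_nonneg _
  have hrr : √(γ / 2) * √(γ / 2) = γ / 2 := Real.mul_self_sqrt (by positivity)
  have h3 : √(γ / 2) < x := by nlinarith [sq_nonneg s]
  have h4 : 2 * √(γ / 2) < 2 * x - s ^ 2 := by linarith
  have h5 : √(γ / 2) * (2 * √(γ / 2)) < x * (2 * x - s ^ 2) := by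
    apply mul_lt_mul'' h3 h4 hr (by positivity)
  have h6 : √(γ / 2) * (2 * √(γ / 2)) = γ := by
    calc √(γ / 2) * (2 * √(γ / 2)) = 2 * (√(γ / 2) * √(γ / 2)) := by ring
      _ = γ := by rw [hrr]; ring
  linarith

end Bilinear

/-- The numerical inequality. -/
theorem numeric (t a b u k : ℝ) (ht : 0 ≤ t) (ha : 0 ≤ a) (hb : 0 ≤ b)
    (hk : 0 ≤ k) (hsum : t + a + b + u = 1) (f : ℝ)
    (h1 : f ≤ t ^ 2 + 2 * t * a + (a + b + u) ^ 2 / 2)
    (h2 : f ≤ t ^ 2 + 2 * t * a + (a + b) ^ 2 / 2 + 2 * b * u + k) :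
    (f ≤ 1 / 2 - t ^ 2 / 2) ∨ f ≤ (1 - u) ^ 2 + k := by
  have e1 : u = 1 - t - a - b := by linarith
  subst e1
  rcases le_total (b + (1 - t - a - b)) (t + a + b) with h | h
  · right
    refine le_trans h2 ?_
    nlinarith [mul_nonneg hb (sub_nonneg.mpr h), sq_nonneg (a - b)]
  · left
    refine le_trans h1 ?_
    nlinarith [mul_nonneg ht (sub_nonneg.mpr h), mul_nonneg ha ht]

variable {Ω : Type} [Fintype Ω] [DecidableEq Ω]
variable {A : Finset (Finset Ω)} {e : Mem A → Mem A → ℝ} {δ : ℝ}

/-- Members which are both generic and in many triangles are few. -/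
theorem few_common (E : EG A e δ) (γ : ℝ) (hγ : 0 < γ) (μ₃ : ℝ) (χG χT : Mem A → ℝ)
    (hG01 : ∀ v, χG v = 0 ∨ χG v = 1)
    (hT : ∀ v, χT v = if γ ≤ triW e v then 1 else 0)
    (h3 : av (fun a => χG a * av (fun v => e a v * av (fun b => e v b * χT b))) ≤ μ₃) :
    av (fun v => dg e χG v * dg e χT v) ≤ μ₃ ∧ 0 ≤ μ₃ ∧
      av (fun v => χG v * χT v) ≤ √(μ₃ / γ) := by
  have e0 := E.e0
  have e1 := E.e1
  have es := E.es
  have hT01 : ∀ v, χT v = 0 ∨ χT v = 1 := fun v => by rw [hT]; split_ifs <;> simp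
  have hT0 : ∀ v, 0 ≤ χT v := fun v => by rcases hT01 v with h | h <;> rw [h]; norm_num
  have hG0 : ∀ v, 0 ≤ χG v := fun v => by rcases hG01 v with h | h <;> rw [h]; norm_num
  have hT1 : ∀ v, χT v ≤ 1 := fun v => by rcases hT01 v with h | h <;> rw [h]; norm_num
  have hG1 : ∀ v, χG v ≤ 1 := fun v => by rcases hG01 v with h | h <;> rw [h]; norm_num
  have tri_sq : ∀ b, triW e b ≤ av (fun c => e b c) ^ 2 := by
    intro b
    rw [sq]
    unfold triW
    rw [av_mul_av]
    refine av_mono fun y => av_mono fun z => ?_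
    rw [es z b]
    have h1 := e0 b y
    have h2 := e0 b z
    have h3 := e1 y z
    have : e b y * e y z * e b z = (e b y * e b z) * e y z := by ring
    rw [this]
    exact mul_le_of_le_one_right (mul_nonneg h1 h2) h3
  have hprod : av (fun v => dg e χG v * dg e χT v) ≤ μ₃ := by
    refine le_trans (le_of_eq ?_) h3
    have : ∀ v, dg e χG v * dg e χT v =
        av (fun a => χG a * (e a v * av (fun b => e v b * χT b))) := by
      intro v
      have hd : dg e χT v = av (fun b => e v b * χT b) :=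
        congrArg av (funext fun b => mul_comm _ _)
      rw [hd]
      unfold dg
      rw [← av_mul_right]
      refine congrArg av (funext fun a => ?_)
      rw [es v a]; ring
    simp only [this]
    rw [av_comm]
    refine congrArg av (funext fun a => ?_)
    rw [← av_mul_left]
  have dT0 : ∀ v, 0 ≤ dg e χT v := dg_nonneg e e0 χT hT0
  have dG0 : ∀ v, 0 ≤ dg e χG v := dg_nonneg e e0 χG hG0
  have μ30 : 0 ≤ μ₃ := le_trans (av_nonneg fun v => mul_nonneg (dG0 v) (dT0 v)) hprod
  refine ⟨hprod, μ30, ?_⟩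
  apply Real.le_sqrt_of_sq_le
  rw [le_div_iff₀ hγ]
  have i1 : av (fun v => χG v * χT v) * √γ ≤ av (fun v => dg e (fun w => χG w * χT w) v) := by
    have : av (fun v => dg e (fun w => χG w * χT w) v) =
        av (fun b => (χG b * χT b) * av (fun c => e b c)) := by
      unfold dg
      rw [av_comm]
      refine congrArg av (funext fun b => ?_)
      rw [← av_mul_left]
      refine congrArg av (funext fun c => ?_)
      rw [es c b]
    rw [this, ← av_mul_right]
    refine av_mono fun b => ?_
    rcases hT01 b with h | h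
    · rw [h]; simp
    · have h5 : γ ≤ triW e b := by
        by_contra hcon
        have := hT b
        rw [if_neg hcon, h] at this
        norm_num at this
      apply mul_le_mul_of_nonneg_left _ (mul_nonneg (hG0 b) (hT0 b))
      rw [Real.sqrt_le_left (av_nonneg fun c => e0 b c)]
      exact h5.trans (tri_sq b)
  have i2 : (av (fun v => dg e (fun w => χG w * χT w) v)) ^ 2 ≤ μ₃ := by
    refine le_trans (av_sq_le _) (le_trans (av_mono fun v => ?_) hprod)
    rw [sq]
    apply mul_le_mul
    · exact dg_mono e e0 _ _ (fun w => mul_le_of_le_one_right (hG0 w) (hT1 w)) v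
    · exact dg_mono e e0 _ _ (fun w => mul_le_of_le_one_left (hT0 w) (hG1 w)) v
    · exact dg_nonneg e e0 _ (fun w => mul_nonneg (hG0 w) (hT0 w)) v
    · exact dG0 v
  have i3 : 0 ≤ av (fun v => χG v * χT v) * √γ :=
    mul_nonneg (av_nonneg fun v => mul_nonneg (hG0 v) (hT0 v)) (Real.sqrt_nonneg _)
  calc (av (fun v => χG v * χT v)) ^ 2 * γ
      = (av (fun v => χG v * χT v) * √γ) ^ 2 := by rw [mul_pow, Real.sq_sqrt hγ.le]
    _ ≤ (av (fun v => dg e (fun w => χG w * χT w) v)) ^ 2 := pow_le_pow_left₀ i3 i1 2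
    _ ≤ μ₃ := i2

/-- The decomposition argument. `P` describes a set of generic members. The numbers `t`, `a`,
`b`, `u` are the densities of the four classes. -/
theorem decomposition [Nonempty (Mem A)] (E : EG A e δ) (γ : ℝ) (hγ : 0 < γ) (μ₂ μ₃ : ℝ)
    (P : Mem A → Prop) [DecidablePred P]
    (h2 : av (fun a => (if P a then 1 else 0) *
      av (fun v => e a v * (if γ ≤ triW e v then 1 else 0))) ≤ μ₂)
    (h3 : av (fun a => (if P a then 1 else 0) *
      av (fun v => e a v * av (fun b => e v b * (if γ ≤ triW e b then 1 else 0)))) ≤ μ₃) :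
    ∃ t a b u k : ℝ, 0 ≤ t ∧ 0 ≤ a ∧ 0 ≤ b ∧ 0 ≤ u ∧ 0 ≤ k ∧ t + a + b + u = 1 ∧
      av (fun a : Mem A => if P a then (1 : ℝ) else 0) - √(μ₃ / γ) ≤ u ∧
      k ≤ bl e (fun a => if P a then 1 else 0) (fun a => if P a then 1 else 0) ∧
      k ≤ u ^ 2 / 2 + √(γ / 2) ∧
      av (fun p => av (fun q => e p q)) - (4 * √μ₃ + 2 * μ₂ + √(γ / 2)) ≤
        t ^ 2 + 2 * t * a + (a + b + u) ^ 2 / 2 ∧
      av (fun p => av (fun q => e p q)) - (4 * √μ₃ + 2 * μ₂ + √(γ / 2)) ≤
        t ^ 2 + 2 * t * a + (a + b) ^ 2 / 2 + 2 * b * u + k ∧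
      av (fun v => triW e v) ≤ γ + t := by
  classical
  have e0 := E.e0
  have e1 := E.e1
  have es := E.es
  -- indicators
  obtain ⟨χG, hG⟩ : ∃ χG : Mem A → ℝ, ∀ v, χG v = if P v then 1 else 0 := ⟨_, fun _ => rfl⟩
  obtain ⟨χT, hT⟩ : ∃ χT : Mem A → ℝ, ∀ v, χT v = if γ ≤ triW e v then 1 else 0 :=
    ⟨_, fun _ => rfl⟩
  simp only [← hG, ← hT] at h2 h3
  simp only [← hG]
  have hT01 : ∀ v, χT v = 0 ∨ χT v = 1 := fun v => by rw [hT]; split_ifs <;> simp
  have hG01 : ∀ v, χG v = 0 ∨ χG v = 1 := fun v => by rw [hG]; split_ifs <;> simp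
  have hT0 : ∀ v, 0 ≤ χT v := fun v => by rcases hT01 v with h | h <;> rw [h]; norm_num
  have hG0 : ∀ v, 0 ≤ χG v := fun v => by rcases hG01 v with h | h <;> rw [h]; norm_num
  have hT1 : ∀ v, χT v ≤ 1 := fun v => by rcases hT01 v with h | h <;> rw [h]; norm_num
  have hG1 : ∀ v, χG v ≤ 1 := fun v => by rcases hG01 v with h | h <;> rw [h]; norm_num
  obtain ⟨hprod, μ30, hTG⟩ := few_common E γ hγ μ₃ χG χT hG01 hT h3
  -- generic members outside `T`
  obtain ⟨χU, hU⟩ : ∃ χU : Mem A → ℝ, ∀ v, χU v = χG v * (1 - χT v) := ⟨_, fun _ => rfl⟩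
  obtain ⟨χ1, h1⟩ : ∃ χ1 : Mem A → ℝ, ∀ v, χ1 v = (1 - χG v) * (1 - χT v) *
      (if dg e χU v ≤ dg e χT v then 1 else 0) := ⟨_, fun _ => rfl⟩
  obtain ⟨χ2, h2'⟩ : ∃ χ2 : Mem A → ℝ, ∀ v, χ2 v = (1 - χG v) * (1 - χT v) *
      (if dg e χU v ≤ dg e χT v then 0 else 1) := ⟨_, fun _ => rfl⟩
  have hU01 : ∀ v, χU v = 0 ∨ χU v = 1 := fun v => by
    rw [hU]
    rcases hG01 v with h | h <;> rcases hT01 v with h' | h' <;> rw [h, h'] <;> norm_num
  have h101 : ∀ v, χ1 v = 0 ∨ χ1 v = 1 := fun v => by
    rw [h1]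
    rcases hG01 v with h | h <;> rcases hT01 v with h' | h' <;> rw [h, h'] <;> split_ifs <;>
      norm_num
  have h201 : ∀ v, χ2 v = 0 ∨ χ2 v = 1 := fun v => by
    rw [h2']
    rcases hG01 v with h | h <;> rcases hT01 v with h' | h' <;> rw [h, h'] <;> split_ifs <;>
      norm_num
  have hU0 : ∀ v, 0 ≤ χU v := fun v => by rcases hU01 v with h | h <;> rw [h]; norm_num
  have h10 : ∀ v, 0 ≤ χ1 v := fun v => by rcases h101 v with h | h <;> rw [h]; norm_num
  have h20 : ∀ v, 0 ≤ χ2 v := fun v => by rcases h201 v with h | h <;> rw [h]; norm_num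
  have hUG : ∀ v, χU v ≤ χG v := fun v => by
    rw [hU]
    exact mul_le_of_le_one_right (hG0 v) (by have := hT0 v; linarith)
  have part : ∀ v, χT v + χ1 v + χ2 v + χU v = 1 := fun v => by
    rw [hU, h1, h2']
    split_ifs <;> ring
  have dT0 : ∀ v, 0 ≤ dg e χT v := dg_nonneg e e0 χT hT0
  have dU0 : ∀ v, 0 ≤ dg e χU v := dg_nonneg e e0 χU hU0
  have dG0 : ∀ v, 0 ≤ dg e χG v := dg_nonneg e e0 χG hG0
  have dUG : ∀ v, dg e χU v ≤ dg e χG v := dg_mono e e0 χU χG hUG
  -- few edges between the first part and `U`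
  have b1U : bl e χ1 χU ≤ √μ₃ := by
    apply Real.le_sqrt_of_sq_le
    rw [bl_eq]
    refine le_trans (av_sq_le _) (le_trans (av_mono fun v => ?_) hprod)
    rcases h101 v with h | h
    · rw [h, zero_mul]
      have := mul_nonneg (dG0 v) (dT0 v)
      nlinarith
    · rw [h, one_mul, sq]
      have h5 : dg e χU v ≤ dg e χT v := by
        by_contra hcon
        have := h1 v
        rw [if_neg hcon, mul_zero, h] at this
        norm_num at this
      exact mul_le_mul (dUG v) h5 (dU0 v) (dG0 v)
  have b2T : bl e χ2 χT ≤ √μ₃ := by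
    apply Real.le_sqrt_of_sq_le
    rw [bl_eq]
    refine le_trans (av_sq_le _) (le_trans (av_mono fun v => ?_) hprod)
    rcases h201 v with h | h
    · rw [h, zero_mul]
      have := mul_nonneg (dG0 v) (dT0 v)
      nlinarith
    · rw [h, one_mul, sq]
      have h5 : dg e χT v ≤ dg e χU v := by
        by_contra hcon
        push Not at hcon
        have := h2' v
        rw [if_pos hcon.le, mul_zero, h] at this
        norm_num at this
      exact mul_le_mul (h5.trans (dUG v)) le_rfl (dT0 v) (dG0 v)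
  have bUT : bl e χU χT ≤ μ₂ := by
    refine le_trans ?_ h2
    have : av (fun a => χG a * av (fun v => e a v * χT v)) = bl e χG χT := by
      rw [bl_eq]
      refine congrArg av (funext fun a => ?_)
      congr 1
      exact congrArg av (funext fun b => mul_comm _ _)
    rw [this]
    exact bl_mono e e0 χU χT χG χT hUG (fun _ => le_rfl) hU0 hT0
  -- Mantel bounds
  have small : ∀ v, χT v = 0 → triW e v ≤ γ := by
    intro v hv
    by_contra hcon
    push Not at hcon
    have := hT v
    rw [if_pos hcon.le, hv] at this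
    norm_num at this
  have m12U : bl e (fun v => χ1 v + χ2 v + χU v) (fun v => χ1 v + χ2 v + χU v) ≤
      (av χ1 + av χ2 + av χU) ^ 2 / 2 + √(γ / 2) := by
    have h := mantel e e0 e1 es γ hγ.le (fun v => χ1 v + χ2 v + χU v) (fun v => by
        have := part v
        rcases hT01 v with h | h
        · right; rw [h] at this; linarith
        · left; rw [h] at this; linarith) (fun v hv => small v (by
        have := part v
        linarith))
    have ea : av (fun v => χ1 v + χ2 v + χU v) = av χ1 + av χ2 + av χU := by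
      rw [av_add (fun v => χ1 v + χ2 v) χU, av_add]
    rwa [ea] at h
  have m12 : bl e (fun v => χ1 v + χ2 v) (fun v => χ1 v + χ2 v) ≤
      (av χ1 + av χ2) ^ 2 / 2 + √(γ / 2) := by
    have h := mantel e e0 e1 es γ hγ.le (fun v => χ1 v + χ2 v) (fun v => by
        rw [h1, h2']
        rcases hG01 v with h | h <;> rcases hT01 v with h' | h' <;> rw [h, h'] <;> split_ifs <;>
          norm_num) (fun v hv => small v (by
        have := part v
        have := hU0 v
        have := hT0 v
        linarith))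
    rwa [av_add] at h
  have mU : bl e χU χU ≤ (av χU) ^ 2 / 2 + √(γ / 2) :=
    mantel e e0 e1 es γ hγ.le χU hU01 (fun v hv => small v (by
      have := part v
      have := h10 v
      have := h20 v
      have := hT0 v
      linarith))
  -- expansion of the edge count
  have tot : av (fun p => av (fun q => e p q)) = bl e χT χT + 2 * bl e χT χ1 + 2 * bl e χ2 χT +
      2 * bl e χU χT + bl e (fun v => χ1 v + χ2 v + χU v) (fun v => χ1 v + χ2 v + χU v) := by
    have i1 : av (fun p => av (fun q => e p q)) =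
        bl e (fun v => χT v + (χ1 v + χ2 v + χU v)) (fun v => χT v + (χ1 v + χ2 v + χU v)) := by
      unfold bl
      refine congrArg av (funext fun p => congrArg av (funext fun q => ?_))
      have hp := part p
      have hq := part q
      have hp' : χT p + (χ1 p + χ2 p + χU p) = 1 := by linarith
      have hq' : χT q + (χ1 q + χ2 q + χU q) = 1 := by linarith
      show e p q = (χT p + (χ1 p + χ2 p + χU p)) * (χT q + (χ1 q + χ2 q + χU q)) * e p q
      rw [hp', hq']; ring
    rw [i1, bl_add_left e χT (fun v => χ1 v + χ2 v + χU v),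
      bl_add_right e χT χT (fun v => χ1 v + χ2 v + χU v),
      bl_add_right e (fun v => χ1 v + χ2 v + χU v) χT (fun v => χ1 v + χ2 v + χU v),
      bl_symm e es (fun v => χ1 v + χ2 v + χU v) χT,
      bl_add_right e χT (fun v => χ1 v + χ2 v) χU, bl_add_right e χT χ1 χ2,
      bl_symm e es χT χ2, bl_symm e es χT χU]
    ring
  have exp2 : bl e (fun v => χ1 v + χ2 v + χU v) (fun v => χ1 v + χ2 v + χU v) =
      bl e (fun v => χ1 v + χ2 v) (fun v => χ1 v + χ2 v) + 2 * bl e χ1 χU +
      2 * bl e χ2 χU + bl e χU χU := by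
    rw [bl_add_left e (fun v => χ1 v + χ2 v) χU,
      bl_add_right e (fun v => χ1 v + χ2 v) (fun v => χ1 v + χ2 v) χU,
      bl_add_right e χU (fun v => χ1 v + χ2 v) χU,
      bl_symm e es χU (fun v => χ1 v + χ2 v),
      bl_add_left e χ1 χ2 χU]
    ring
  have bTT := bl_le e e1 χT χT hT0 hT0
  have bT1 := bl_le e e1 χT χ1 hT0 h10
  have b2U := bl_le e e1 χ2 χU h20 hU0
  have bUU : bl e χU χU ≤ bl e χG χG := bl_mono e e0 χU χU χG χG hUG hUG hU0 hU0
  -- densities
  have sumd : av χT + av χ1 + av χ2 + av χU = 1 := by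
    rw [← av_add, ← av_add (fun v => χT v + χ1 v), ← av_add (fun v => χT v + χ1 v + χ2 v)]
    have : (fun v => χT v + χ1 v + χ2 v + χU v) = fun _ => (1 : ℝ) := funext part
    rw [this, av_const]
  have s3 : 0 ≤ √μ₃ := Real.sqrt_nonneg _
  refine ⟨av χT, av χ1, av χ2, av χU, bl e χU χU, av_nonneg hT0, av_nonneg h10, av_nonneg h20,
    av_nonneg hU0, bl_nonneg e e0 χU χU hU0 hU0, sumd, ?_, bUU, mU, ?_, ?_, ?_⟩
  · have : av χU = av χG - av (fun v => χG v * χT v) := by
      rw [← av_sub]
      refine congrArg av (funext fun v => ?_)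
      rw [hU]; ring
    rw [this]
    show av χG - √(μ₃ / γ) ≤ _
    linarith
  · rw [tot]; nlinarith
  · have hfin : bl e χT χT + 2 * bl e χT χ1 + 2 * bl e χ2 χT + 2 * bl e χU χT +
        (bl e (fun v => χ1 v + χ2 v) (fun v => χ1 v + χ2 v) + 2 * bl e χ1 χU +
        2 * bl e χ2 χU + bl e χU χU) - (4 * √μ₃ + 2 * μ₂ + √(γ / 2)) ≤
        av χT ^ 2 + 2 * av χT * av χ1 + (av χ1 + av χ2) ^ 2 / 2 + 2 * av χ2 * av χU +
        bl e χU χU := by nlinarith
    rw [tot, exp2]
    exact hfin
  · have : av (fun v => triW e v) ≤ av (fun v => γ + χT v) := by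
      refine av_mono fun v => ?_
      rcases hT01 v with h | h
      · rw [h, add_zero]; exact small v h
      · rw [h]
        have : triW e v ≤ 1 := by
          unfold triW
          exact av_le zero_le_one fun y => av_le zero_le_one fun z =>
            mul_le_one₀ (mul_le_one₀ (e1 _ _) (e0 _ _) (e1 _ _)) (e0 _ _) (e1 _ _)
        linarith
    rw [av_add, av_const] at this
    exact this

end Run7.h859
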