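import Pool.Agent.Run7.h859.Core

/-!
Vertices in many triangles: the coordinates of such a vertex have weighted sum close to
`√θ` times the total weight.
-/

namespace Run7.h859

open Finset

variable {V ι : Type} [Fintype V] [Fintype ι]
variable {e : V → V → ℝ} {x : V → ι → ℝ} {θ K : ℝ}

/-- Two neighbours of `b`, weighted by triangles, look like the two ends of an edge. -/
theorem Sys.A2 (S : Sys e x θ K) (W : ι → ℝ) (h0 : ∀ j, 0 ≤ W j) (h1 : ∀ j, W j ≤ 1) :
    av (fun b => av (fun c => av (fun d => triW e b * e b c * e b d *
      |∑ j, x c j * x d j * W j - θ * ∑ j, W j|))) ≤ 4 * K / θ + K := by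
  have key : ∀ b c d, triW e b * e b c * e b d *
      |∑ j, x c j * x d j * W j - θ * ∑ j, W j| ≤
      triW e b * e b d * |∑ j, (x d j - x b j) * (x c j * W j)| +
      e b c * |∑ j, x b j * x c j * W j - θ * ∑ j, W j| := by
    intro b c d
    have e1 : ∑ j, x c j * x d j * W j - θ * ∑ j, W j =
        ∑ j, (x d j - x b j) * (x c j * W j) + (∑ j, x b j * x c j * W j - θ * ∑ j, W j) := by
      have : ∑ j, x c j * x d j * W j = ∑ j, (x d j - x b j) * (x c j * W j) +
          ∑ j, x b j * x c j * W j := by
        rw [← Finset.sum_add_distrib]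
        exact Finset.sum_congr rfl fun j _ => by ring
      rw [this]; ring
    rw [e1]
    set A := ∑ j, (x d j - x b j) * (x c j * W j)
    set B := ∑ j, x b j * x c j * W j - θ * ∑ j, W j
    have h3 : |A + B| ≤ |A| + |B| := abs_add_le A B
    have hA := abs_nonneg A
    have hB := abs_nonneg B
    have a1 := S.e0 b c
    have a2 := S.e0 b d
    have b1 := S.e1 b c
    have b2 := S.e1 b d
    have t0 := S.triW_nonneg b
    have t1 := S.triW_le_one b
    calc triW e b * e b c * e b d * |A + B|
        ≤ triW e b * e b c * e b d * (|A| + |B|) :=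
          mul_le_mul_of_nonneg_left h3 (by positivity)
      _ = (triW e b * e b d * |A|) * e b c + (e b c * |B|) * (triW e b * e b d) := by ring
      _ ≤ (triW e b * e b d * |A|) * 1 + (e b c * |B|) * 1 := by
          apply add_le_add
          · exact mul_le_mul_of_nonneg_left b1 (by positivity)
          · exact mul_le_mul_of_nonneg_left (mul_le_one₀ t1 a2 b2) (by positivity)
      _ = _ := by ring
  have hx : ∀ v : V, (∀ j, 0 ≤ x v j * W j) ∧ (∀ j, x v j * W j ≤ 1) := fun v =>
    ⟨fun j => mul_nonneg (S.x0 v j) (h0 j), fun j => mul_le_one₀ (S.x1 v j) (h0 j) (h1 j)⟩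
  have hK1 : 0 ≤ 4 * K / θ := div_nonneg (mul_nonneg (by norm_num) S.K0) S.θpos.le
  calc _ ≤ av (fun b => av (fun c => av (fun d =>
          triW e b * e b d * |∑ j, (x d j - x b j) * (x c j * W j)| +
          e b c * |∑ j, x b j * x c j * W j - θ * ∑ j, W j|))) :=
        av_mono fun b => av_mono fun c => av_mono fun d => key b c d
    _ = av (fun b => av (fun c => av (fun d =>
          triW e b * e b d * |∑ j, (x d j - x b j) * (x c j * W j)|))) +
        av (fun b => av (fun c => av (fun _ : V =>
          e b c * |∑ j, x b j * x c j * W j - θ * ∑ j, W j|))) := by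
        simp only [av_add]
    _ ≤ 4 * K / θ + K := by
        apply add_le_add
        · rw [av_comm]
          exact av_le hK1 fun c => S.A1 _ (hx c).1 (hx c).2
        · refine le_trans (av_mono fun b => av_mono fun c => av_const_le ?_) (S.edge W h0 h1)
          exact mul_nonneg (S.e0 _ _) (abs_nonneg _)

/-- `Y b j` is the average of `x c j` over the neighbours `c` of `b`. -/
noncomputable def nbr (e : V → V → ℝ) (x : V → ι → ℝ) (b : V) (j : ι) : ℝ :=
  av (fun c => e b c * x c j)

theorem Sys.nbr_nonneg (S : Sys e x θ K) (b : V) (j : ι) : 0 ≤ nbr e x b j :=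
  av_nonneg fun c => mul_nonneg (S.e0 b c) (S.x0 c j)

theorem Sys.variance (S : Sys e x θ K) (W : ι → ℝ) (h0 : ∀ j, 0 ≤ W j) (h1 : ∀ j, W j ≤ 1) :
    av (fun b => triW e b * ∑ j, (nbr e x b j ^ 2 - θ * degW e b ^ 2) ^ 2 * W j)
      ≤ (1 + θ) * (4 * K / θ + K) := by
  have hP : ∀ b j, nbr e x b j ^ 2 - θ * degW e b ^ 2 =
      av (fun c => av (fun d => e b c * e b d * (x c j * x d j - θ))) := by
    intro b j
    rw [sq, sq]
    unfold nbr degW
    rw [av_mul_av, av_mul_av, ← av_mul_left]
    simp only [← av_mul_left]
    rw [← av_sub]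
    refine congrArg av (funext fun c => ?_)
    rw [← av_sub]
    refine congrArg av (funext fun d => ?_)
    ring
  have hP2 : ∀ b, triW e b * ∑ j, (nbr e x b j ^ 2 - θ * degW e b ^ 2) ^ 2 * W j =
      av (fun c => av (fun d => av (fun c' => av (fun d' =>
        triW e b * e b c * e b d * (e b c' * e b d' *
          ∑ j, (x c j * x d j - θ) * (x c' j * x d' j - θ) * W j))))) := by
    intro b
    have h1 : ∀ j, (nbr e x b j ^ 2 - θ * degW e b ^ 2) ^ 2 * W j =
        av (fun c => av (fun d => av (fun c' => av (fun d' =>
        e b c * e b d * (e b c' * e b d' *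
          ((x c j * x d j - θ) * (x c' j * x d' j - θ) * W j)))))) := by
      intro j
      rw [hP, sq, ← av_mul_right, ← av_mul_right]
      refine congrArg av (funext fun c => ?_)
      rw [← av_mul_right, ← av_mul_right]
      refine congrArg av (funext fun d => ?_)
      rw [← av_mul_left, ← av_mul_right]
      refine congrArg av (funext fun c' => ?_)
      rw [← av_mul_left, ← av_mul_right]
      refine congrArg av (funext fun d' => ?_)
      ring
    simp only [h1]
    simp only [← av_sum]
    rw [← av_mul_left]
    refine congrArg av (funext fun c => ?_)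
    rw [← av_mul_left]
    refine congrArg av (funext fun d => ?_)
    rw [← av_mul_left]
    refine congrArg av (funext fun c' => ?_)
    rw [← av_mul_left]
    refine congrArg av (funext fun d' => ?_)
    rw [Finset.mul_sum, Finset.mul_sum, Finset.mul_sum]
    exact Finset.sum_congr rfl fun j _ => by ring
  have key : ∀ b c d c' d', triW e b * e b c * e b d * (e b c' * e b d' *
          ∑ j, (x c j * x d j - θ) * (x c' j * x d' j - θ) * W j) ≤
      triW e b * e b c * e b d *
        |∑ j, x c j * x d j * (x c' j * x d' j * W j) - θ * ∑ j, x c' j * x d' j * W j| +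
      θ * (triW e b * e b c * e b d * |∑ j, x c j * x d j * W j - θ * ∑ j, W j|) := by
    intro b c d c' d'
    have e1 : ∑ j, (x c j * x d j - θ) * (x c' j * x d' j - θ) * W j =
        (∑ j, x c j * x d j * (x c' j * x d' j * W j) - θ * ∑ j, x c' j * x d' j * W j) -
        θ * (∑ j, x c j * x d j * W j - θ * ∑ j, W j) := by
      simp only [Finset.mul_sum, ← Finset.sum_sub_distrib]
      exact Finset.sum_congr rfl fun j _ => by ring
    rw [e1]
    set A := ∑ j, x c j * x d j * (x c' j * x d' j * W j) - θ * ∑ j, x c' j * x d' j * W j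
    set B := ∑ j, x c j * x d j * W j - θ * ∑ j, W j
    have hA := le_abs_self A
    have hB := neg_abs_le B
    have hA' := abs_nonneg A
    have hB' := abs_nonneg B
    have a1 := S.e0 b c
    have a2 := S.e0 b d
    have a3 := S.e0 b c'
    have a4 := S.e0 b d'
    have b3 := S.e1 b c'
    have b4 := S.e1 b d'
    have t0 := S.triW_nonneg b
    have hθ := S.θpos
    have h5 : A - θ * B ≤ |A| + θ * |B| := by nlinarith
    calc triW e b * e b c * e b d * (e b c' * e b d' * (A - θ * B))
        ≤ triW e b * e b c * e b d * (e b c' * e b d' * (|A| + θ * |B|)) := by gcongr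
      _ ≤ triW e b * e b c * e b d * (1 * (|A| + θ * |B|)) := by
          have h34 : e b c' * e b d' ≤ 1 := mul_le_one₀ b3 a4 b4
          gcongr
      _ = _ := by ring
  have hxx : ∀ c' d' : V, (∀ j, 0 ≤ x c' j * x d' j * W j) ∧ (∀ j, x c' j * x d' j * W j ≤ 1) :=
    fun c' d' => ⟨fun j => mul_nonneg (mul_nonneg (S.x0 c' j) (S.x0 d' j)) (h0 j),
      fun j => mul_le_one₀ (mul_le_one₀ (S.x1 c' j) (S.x0 d' j) (S.x1 d' j)) (h0 j) (h1 j)⟩
  have hK2 : 0 ≤ 4 * K / θ + K :=
    add_nonneg (div_nonneg (mul_nonneg (by norm_num) S.K0) S.θpos.le) S.K0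
  simp only [hP2]
  calc _ ≤ av (fun b => av (fun c => av (fun d => av (fun c' => av (fun d' =>
      triW e b * e b c * e b d *
        |∑ j, x c j * x d j * (x c' j * x d' j * W j) - θ * ∑ j, x c' j * x d' j * W j| +
      θ * (triW e b * e b c * e b d * |∑ j, x c j * x d j * W j - θ * ∑ j, W j|)))))) :=
        av_mono fun b => av_mono fun c => av_mono fun d => av_mono fun c' => av_mono fun d' =>
          key b c d c' d'
    _ = av (fun b => av (fun c => av (fun d => av (fun c' => av (fun d' =>
      triW e b * e b c * e b d *
        |∑ j, x c j * x d j * (x c' j * x d' j * W j) - θ * ∑ j, x c' j * x d' j * W j|))))) +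
        av (fun b => av (fun c => av (fun d => av (fun _ : V => av (fun _ : V =>
      θ * (triW e b * e b c * e b d * |∑ j, x c j * x d j * W j - θ * ∑ j, W j|)))))) := by
        simp only [av_add]
    _ ≤ (4 * K / θ + K) + θ * (4 * K / θ + K) := by
        apply add_le_add
        · have h1 : av (fun b => av (fun c => av (fun d => av (fun c' => av (fun d' =>
              triW e b * e b c * e b d * |∑ j, x c j * x d j * (x c' j * x d' j * W j) -
                θ * ∑ j, x c' j * x d' j * W j|))))) =
              av (fun c' => av (fun d' => av (fun b => av (fun c => av (fun d =>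
              triW e b * e b c * e b d * |∑ j, x c j * x d j * (x c' j * x d' j * W j) -
                θ * ∑ j, x c' j * x d' j * W j|))))) := by
            have s1 : ∀ b c, av (fun d => av (fun c' => av (fun d' =>
              triW e b * e b c * e b d * |∑ j, x c j * x d j * (x c' j * x d' j * W j) -
                θ * ∑ j, x c' j * x d' j * W j|))) = av (fun c' => av (fun d' => av (fun d =>
              triW e b * e b c * e b d * |∑ j, x c j * x d j * (x c' j * x d' j * W j) -
                θ * ∑ j, x c' j * x d' j * W j|))) := by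
              intro b c
              rw [av_comm]
              refine congrArg av (funext fun c' => ?_)
              exact av_comm _
            simp only [s1]
            have s2 : ∀ b, av (fun c => av (fun c' => av (fun d' => av (fun d =>
              triW e b * e b c * e b d * |∑ j, x c j * x d j * (x c' j * x d' j * W j) -
                θ * ∑ j, x c' j * x d' j * W j|)))) = av (fun c' => av (fun d' => av (fun c =>
                av (fun d =>
              triW e b * e b c * e b d * |∑ j, x c j * x d j * (x c' j * x d' j * W j) -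
                θ * ∑ j, x c' j * x d' j * W j|)))) := by
              intro b
              rw [av_comm]
              refine congrArg av (funext fun c' => ?_)
              exact av_comm _
            simp only [s2]
            rw [av_comm]
            refine congrArg av (funext fun c' => ?_)
            exact av_comm _
          rw [h1]
          exact av_le hK2 fun c' => av_le hK2 fun d' => S.A2 _ (hxx c' d').1 (hxx c' d').2
        · have nn : ∀ b c d, 0 ≤ θ * (triW e b * e b c * e b d *
              |∑ j, x c j * x d j * W j - θ * ∑ j, W j|) := fun b c d =>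
            mul_nonneg S.θpos.le (mul_nonneg (mul_nonneg (mul_nonneg (S.triW_nonneg _)
              (S.e0 _ _)) (S.e0 _ _)) (abs_nonneg _))
          calc _ ≤ av (fun b => av (fun c => av (fun d =>
                θ * (triW e b * e b c * e b d *
                  |∑ j, x c j * x d j * W j - θ * ∑ j, W j|)))) :=
                av_mono fun b => av_mono fun c => av_mono fun d =>
                  av_le (nn b c d) fun _ => av_const_le (nn b c d)
            _ = θ * av (fun b => av (fun c => av (fun d =>
                (triW e b * e b c * e b d *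
                  |∑ j, x c j * x d j * W j - θ * ∑ j, W j|)))) := by
                simp only [av_mul_left]
            _ ≤ _ := mul_le_mul_of_nonneg_left (S.A2 W h0 h1) S.θpos.le
    _ = (1 + θ) * (4 * K / θ + K) := by ring

/-- **Lemma K.** -/
theorem Sys.lemmaK (S : Sys e x θ K) (M : ℝ) (hM : (Fintype.card ι : ℝ) ≤ M)
    (W : ι → ℝ) (h0 : ∀ j, 0 ≤ W j) (h1 : ∀ j, W j ≤ 1) :
    av (fun b => triW e b * degW e b ^ 2 * |∑ j, x b j * W j - √θ * ∑ j, W j|)
      ≤ 4 * K / θ + √(M * ((1 + θ) * (4 * K / θ + K)) / θ) := by
  have hθ := S.θpos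
  have hsθ : 0 < √θ := Real.sqrt_pos.mpr hθ
  have hss : √θ * √θ = θ := Real.mul_self_sqrt hθ.le
  -- replacing `x b` by the neighbourhood average
  have step1 : av (fun b => triW e b * |∑ j, (nbr e x b j - degW e b * x b j) * W j|)
      ≤ 4 * K / θ := by
    refine le_trans (av_mono fun b => ?_) (S.A1 W h0 h1)
    have e1 : ∑ j, (nbr e x b j - degW e b * x b j) * W j =
        av (fun c => e b c * ∑ j, (x c j - x b j) * W j) := by
      have : ∀ j, (nbr e x b j - degW e b * x b j) * W j =
          av (fun c => e b c * ((x c j - x b j) * W j)) := by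
        intro j
        unfold nbr degW
        rw [← av_mul_right, ← av_sub, ← av_mul_right]
        refine congrArg av (funext fun c => ?_)
        ring
      simp only [this, ← av_sum, Finset.mul_sum]
    rw [e1]
    calc triW e b * |av (fun c => e b c * ∑ j, (x c j - x b j) * W j)|
        ≤ triW e b * av (fun c => |e b c * ∑ j, (x c j - x b j) * W j|) :=
          mul_le_mul_of_nonneg_left (abs_av_le _) (S.triW_nonneg b)
      _ = _ := by
          rw [← av_mul_left]
          refine congrArg av (funext fun c => ?_)
          rw [abs_mul, abs_of_nonneg (S.e0 b c)]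
          ring
  -- the neighbourhood average is close to `√θ` times the degree
  have step2 : av (fun b => triW e b * (degW e b * |∑ j, (nbr e x b j - √θ * degW e b) * W j|))
      ≤ √(M * ((1 + θ) * (4 * K / θ + K)) / θ) := by
    have pt : ∀ b, √θ * (degW e b * |∑ j, (nbr e x b j - √θ * degW e b) * W j|) ≤
        ∑ j, |nbr e x b j ^ 2 - θ * degW e b ^ 2| * W j := by
      intro b
      have hd := S.degW_nonneg b
      calc √θ * (degW e b * |∑ j, (nbr e x b j - √θ * degW e b) * W j|)
          ≤ √θ * (degW e b * ∑ j, |(nbr e x b j - √θ * degW e b) * W j|) := by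
            gcongr
            exact Finset.abs_sum_le_sum_abs _ _
        _ = ∑ j, (√θ * degW e b * |nbr e x b j - √θ * degW e b|) * W j := by
            rw [Finset.mul_sum, Finset.mul_sum]
            refine Finset.sum_congr rfl fun j _ => ?_
            rw [abs_mul, abs_of_nonneg (h0 j)]
            ring
        _ ≤ _ := by
            refine Finset.sum_le_sum fun j _ => mul_le_mul_of_nonneg_right ?_ (h0 j)
            have hY := S.nbr_nonneg b j
            have fac : nbr e x b j ^ 2 - θ * degW e b ^ 2 =
                (nbr e x b j + √θ * degW e b) * (nbr e x b j - √θ * degW e b) := by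
              have : θ * degW e b ^ 2 = (√θ * √θ) * degW e b ^ 2 := by rw [hss]
              rw [this]; ring
            have hpos : 0 ≤ nbr e x b j + √θ * degW e b := by positivity
            rw [fac, abs_mul, abs_of_nonneg hpos]
            apply mul_le_mul_of_nonneg_right _ (abs_nonneg _)
            linarith
    have cs : ∀ b, (∑ j, |nbr e x b j ^ 2 - θ * degW e b ^ 2| * W j) ^ 2 ≤
        M * ∑ j, (nbr e x b j ^ 2 - θ * degW e b ^ 2) ^ 2 * W j := by
      intro b
      calc (∑ j, |nbr e x b j ^ 2 - θ * degW e b ^ 2| * W j) ^ 2
          ≤ (Fintype.card ι : ℝ) *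
            ∑ j, (|nbr e x b j ^ 2 - θ * degW e b ^ 2| * W j) ^ 2 := by
            have := sq_sum_le_card_mul_sum_sq (s := (Finset.univ : Finset ι))
              (f := fun j => |nbr e x b j ^ 2 - θ * degW e b ^ 2| * W j)
            simpa using this
        _ ≤ M * ∑ j, (nbr e x b j ^ 2 - θ * degW e b ^ 2) ^ 2 * W j := by
            refine mul_le_mul hM (Finset.sum_le_sum fun j _ => ?_)
              (Finset.sum_nonneg fun j _ => sq_nonneg _) (le_trans (Nat.cast_nonneg _) hM)
            rw [mul_pow, sq_abs]
            apply mul_le_mul_of_nonneg_left _ (sq_nonneg _)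
            have := h0 j
            have := h1 j
            nlinarith
    have hM0 : 0 ≤ M := le_trans (Nat.cast_nonneg _) hM
    apply Real.le_sqrt_of_sq_le
    rw [le_div_iff₀ hθ]
    calc (av (fun b => triW e b *
            (degW e b * |∑ j, (nbr e x b j - √θ * degW e b) * W j|))) ^ 2 * θ
        = (av (fun b => triW e b * (√θ *
            (degW e b * |∑ j, (nbr e x b j - √θ * degW e b) * W j|)))) ^ 2 := by
          have : av (fun b => triW e b * (√θ *
            (degW e b * |∑ j, (nbr e x b j - √θ * degW e b) * W j|))) =
            √θ * av (fun b => triW e b *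
            (degW e b * |∑ j, (nbr e x b j - √θ * degW e b) * W j|)) := by
            rw [← av_mul_left]
            refine congrArg av (funext fun b => ?_)
            ring
          rw [this, mul_pow, Real.sq_sqrt hθ.le]
          ring
      _ ≤ (av (fun b => triW e b * ∑ j, |nbr e x b j ^ 2 - θ * degW e b ^ 2| * W j)) ^ 2 := by
          refine pow_le_pow_left₀ ?_ ?_ 2
          · exact av_nonneg fun b => mul_nonneg (S.triW_nonneg b) (mul_nonneg hsθ.le
              (mul_nonneg (S.degW_nonneg b) (abs_nonneg _)))
          · exact av_mono fun b => mul_le_mul_of_nonneg_left (pt b) (S.triW_nonneg b)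
      _ ≤ av (fun b => (triW e b * ∑ j, |nbr e x b j ^ 2 - θ * degW e b ^ 2| * W j) ^ 2) :=
          av_sq_le _
      _ ≤ av (fun b => M * (triW e b *
            ∑ j, (nbr e x b j ^ 2 - θ * degW e b ^ 2) ^ 2 * W j)) := by
          refine av_mono fun b => ?_
          rw [mul_pow]
          have t0 := S.triW_nonneg b
          have t1 := S.triW_le_one b
          have t2 : triW e b ^ 2 ≤ triW e b := by nlinarith
          calc triW e b ^ 2 * (∑ j, |nbr e x b j ^ 2 - θ * degW e b ^ 2| * W j) ^ 2
              ≤ triW e b * (M * ∑ j, (nbr e x b j ^ 2 - θ * degW e b ^ 2) ^ 2 * W j) :=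
                mul_le_mul t2 (cs b) (sq_nonneg _) t0
            _ = _ := by ring
      _ = M * av (fun b => triW e b *
            ∑ j, (nbr e x b j ^ 2 - θ * degW e b ^ 2) ^ 2 * W j) := av_mul_left _ _
      _ ≤ M * ((1 + θ) * (4 * K / θ + K)) :=
          mul_le_mul_of_nonneg_left (S.variance W h0 h1) hM0
  calc av (fun b => triW e b * degW e b ^ 2 * |∑ j, x b j * W j - √θ * ∑ j, W j|)
      ≤ av (fun b => triW e b * |∑ j, (nbr e x b j - degW e b * x b j) * W j| +
          triW e b * (degW e b * |∑ j, (nbr e x b j - √θ * degW e b) * W j|)) := by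
        refine av_mono fun b => ?_
        have hd := S.degW_nonneg b
        have hd1 := S.degW_le b
        have t0 := S.triW_nonneg b
        have e1 : degW e b * (∑ j, x b j * W j - √θ * ∑ j, W j) =
            ∑ j, (nbr e x b j - √θ * degW e b) * W j -
            ∑ j, (nbr e x b j - degW e b * x b j) * W j := by
          rw [mul_sub, Finset.mul_sum, Finset.mul_sum, Finset.mul_sum, ← Finset.sum_sub_distrib,
            ← Finset.sum_sub_distrib]
          exact Finset.sum_congr rfl fun j _ => by ring
        have e2 : degW e b * |∑ j, x b j * W j - √θ * ∑ j, W j| =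
            |∑ j, (nbr e x b j - √θ * degW e b) * W j -
            ∑ j, (nbr e x b j - degW e b * x b j) * W j| := by
          rw [← e1, abs_mul, abs_of_nonneg hd]
        have e3 : triW e b * degW e b ^ 2 * |∑ j, x b j * W j - √θ * ∑ j, W j| =
            triW e b * (degW e b * (degW e b * |∑ j, x b j * W j - √θ * ∑ j, W j|)) := by ring
        rw [e3, e2]
        set P := ∑ j, (nbr e x b j - √θ * degW e b) * W j
        set Q := ∑ j, (nbr e x b j - degW e b * x b j) * W j
        have h3 : |P - Q| ≤ |P| + |Q| := abs_sub P Q
        have hP := abs_nonneg P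
        have hQ := abs_nonneg Q
        rw [← mul_add]
        apply mul_le_mul_of_nonneg_left _ t0
        nlinarith
    _ = av (fun b => triW e b * |∑ j, (nbr e x b j - degW e b * x b j) * W j|) +
        av (fun b => triW e b * (degW e b * |∑ j, (nbr e x b j - √θ * degW e b) * W j|)) :=
        av_add _ _
    _ ≤ _ := add_le_add step1 step2

end Run7.h859
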