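import Pool.Agent.Run7.h859.Sums

/-!
Local optimality of the canonical basis: a 2-basis containing at least four fifths of the
subsets of `X` and of its complement, where `X` is half of the coordinates, has at least
`2 ^ (n + 1) - 1` members.
-/

namespace Run7.h859

open Finset

variable {Ω : Type} [Fintype Ω] [DecidableEq Ω]

/-- Every set is the union of two members. -/
def IsBasis (A : Finset (Finset Ω)) : Prop := ∀ x : Finset Ω, ∃ a ∈ A, ∃ b ∈ A, x = a ∪ b

theorem IsBasis.empty_mem {A : Finset (Finset Ω)} (hA : IsBasis A) : ∅ ∈ A := by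
  obtain ⟨a, ha, b, _, h⟩ := hA ∅
  have : a = ∅ := Finset.subset_empty.mp (by rw [h]; exact Finset.subset_union_left)
  rwa [this] at ha

theorem IsBasis.singleton_mem {A : Finset (Finset Ω)} (hA : IsBasis A) (i : Ω) : {i} ∈ A := by
  obtain ⟨a, ha, b, hb, h⟩ := hA {i}
  have h1 : a ⊆ {i} := by rw [h]; exact Finset.subset_union_left
  have h2 : b ⊆ {i} := by rw [h]; exact Finset.subset_union_right
  rcases Finset.subset_singleton_iff.mp h1 with h1 | h1
  · rcases Finset.subset_singleton_iff.mp h2 with h2 | h2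
    · rw [h1, h2] at h
      have : i ∈ (∅ : Finset Ω) := by
        have hi : i ∈ ({i} : Finset Ω) := Finset.mem_singleton_self i
        rw [h] at hi
        simp at hi
      exact absurd this (Finset.notMem_empty i)
    · rwa [h2] at hb
  · rwa [h1] at ha

theorem two_pow_half {k n : ℕ} (h : k + 1 ≤ n) : (2 : ℝ) ^ k ≤ 2 ^ n / 2 := by
  have : (2 : ℝ) ^ (k + 1) ≤ 2 ^ n := pow_le_pow_right₀ (by norm_num) h
  rw [pow_succ] at this
  linarith

theorem two_pow_quarter {k n : ℕ} (h : k + 2 ≤ n) : (2 : ℝ) ^ k ≤ 2 ^ n / 4 := by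
  have : (2 : ℝ) ^ (k + 2) ≤ 2 ^ n := pow_le_pow_right₀ (by norm_num) h
  rw [pow_add] at this
  linarith

/-- The mixed unions which cannot be written with the help of `X` and `Xᶜ` only. -/
def mixedD (A : Finset (Finset Ω)) (X : Finset Ω) : Finset (Finset Ω) :=
  Finset.univ.filter fun x => (x ∩ X ∉ A ∨ x ∩ Xᶜ ∉ A) ∧ x ∩ X ≠ ∅ ∧ x ∩ Xᶜ ≠ ∅

/-- The members not inside `X` or its complement. -/
def mixedE (A : Finset (Finset Ω)) (X : Finset Ω) : Finset (Finset Ω) :=
  A.filter fun a => a ∩ X ≠ ∅ ∧ a ∩ Xᶜ ≠ ∅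

theorem inter_inter_compl_union (X u v : Finset Ω) (hu : u ⊆ X) (hv : v ⊆ Xᶜ) :
    (u ∪ v) ∩ X = u ∧ (u ∪ v) ∩ Xᶜ = v := by
  constructor
  · ext i
    have h1 := @hu i
    have h2 := @hv i
    simp only [Finset.mem_inter, Finset.mem_union, Finset.mem_compl] at *
    tauto
  · ext i
    have h1 := @hu i
    have h2 := @hv i
    simp only [Finset.mem_inter, Finset.mem_union, Finset.mem_compl] at *
    tauto

theorem union_parts (X x : Finset Ω) : (x ∩ X) ∪ (x ∩ Xᶜ) = x := by
  ext i
  simp only [Finset.mem_inter, Finset.mem_union, Finset.mem_compl]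
  tauto

/-- The number of members, in terms of the missing and the mixed sets. -/
theorem card_split (A : Finset (Finset Ω)) (hA : ∅ ∈ A) (X : Finset Ω) :
    A.card + 1 = (A.filter fun a => a ⊆ X).card + (A.filter fun a => a ⊆ Xᶜ).card +
      (mixedE A X).card := by
  have h1 : A = ((A.filter fun a => a ⊆ X) ∪ (A.filter fun a => a ⊆ Xᶜ)) ∪ mixedE A X := by
    ext a
    simp only [mixedE, Finset.mem_union, Finset.mem_filter]
    constructor
    · intro ha
      by_cases h2 : a ∩ X = ∅
      · left; right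
        refine ⟨ha, ?_⟩
        rw [Finset.subset_compl_iff_disjoint_right]
        exact Finset.disjoint_iff_inter_eq_empty.mpr h2
      · by_cases h3 : a ∩ Xᶜ = ∅
        · left; left
          refine ⟨ha, ?_⟩
          have := Finset.disjoint_iff_inter_eq_empty.mpr h3
          intro i hi
          by_contra hiX
          exact Finset.disjoint_left.mp this hi (Finset.mem_compl.mpr hiX)
        · right; exact ⟨ha, h2, h3⟩
    · rintro ((h | h) | h) <;> exact h.1
  have h2 : Disjoint ((A.filter fun a => a ⊆ X) ∪ (A.filter fun a => a ⊆ Xᶜ)) (mixedE A X) := by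
    rw [Finset.disjoint_left]
    intro a ha hE
    simp only [mixedE, Finset.mem_union, Finset.mem_filter] at ha hE
    rcases ha with ha | ha
    · apply hE.2.2
      rw [← Finset.disjoint_iff_inter_eq_empty]
      exact Finset.disjoint_of_subset_left ha.2 disjoint_compl_right
    · apply hE.2.1
      rw [← Finset.disjoint_iff_inter_eq_empty]
      exact Finset.disjoint_of_subset_left ha.2 disjoint_compl_left
  have h3 : (A.filter fun a => a ⊆ X) ∩ (A.filter fun a => a ⊆ Xᶜ) = {∅} := by
    ext a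
    simp only [Finset.mem_inter, Finset.mem_filter, Finset.mem_singleton]
    constructor
    · rintro ⟨⟨_, h4⟩, ⟨_, h5⟩⟩
      have : a ⊆ X ∩ Xᶜ := Finset.subset_inter h4 h5
      rw [Finset.inter_compl] at this
      exact Finset.subset_empty.mp this
    · rintro rfl
      exact ⟨⟨hA, Finset.empty_subset _⟩, ⟨hA, Finset.empty_subset _⟩⟩
  have h4 := Finset.card_union_add_card_inter (A.filter fun a => a ⊆ X)
    (A.filter fun a => a ⊆ Xᶜ)
  rw [h3, Finset.card_singleton] at h4
  have h5 : A.card = ((A.filter fun a => a ⊆ X) ∪ (A.filter fun a => a ⊆ Xᶜ)).card +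
      (mixedE A X).card := by
    conv_lhs => rw [h1]
    exact Finset.card_union_of_disjoint h2
  omega

/-- Lower bound for the number of mixed unions. -/
theorem mixedD_card (A : Finset (Finset Ω)) (X : Finset Ω) (hA : ∅ ∈ A) :
    ((X.powerset \ A).card : ℝ) * (2 ^ Xᶜ.card - 1) + (2 ^ X.card - 1) * (Xᶜ.powerset \ A).card -
      (X.powerset \ A).card * (Xᶜ.powerset \ A).card ≤ (mixedD A X).card := by
  set DX := X.powerset \ A with hDX
  set DY := Xᶜ.powerset \ A with hDY
  set S := (DX ×ˢ (Xᶜ.powerset.erase ∅)) ∪ ((X.powerset.erase ∅) ×ˢ DY) with hS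
  have hDX0 : DX ⊆ X.powerset.erase ∅ := by
    intro u hu
    rw [hDX, Finset.mem_sdiff] at hu
    rw [Finset.mem_erase]
    exact ⟨fun h => hu.2 (h ▸ hA), hu.1⟩
  have hDY0 : DY ⊆ Xᶜ.powerset.erase ∅ := by
    intro u hu
    rw [hDY, Finset.mem_sdiff] at hu
    rw [Finset.mem_erase]
    exact ⟨fun h => hu.2 (h ▸ hA), hu.1⟩
  have hinter : (DX ×ˢ (Xᶜ.powerset.erase ∅)) ∩ ((X.powerset.erase ∅) ×ˢ DY) = DX ×ˢ DY := by
    ext r
    simp only [Finset.mem_inter, Finset.mem_product]
    constructor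
    · rintro ⟨⟨h1, _⟩, ⟨_, h4⟩⟩; exact ⟨h1, h4⟩
    · rintro ⟨h1, h2⟩; exact ⟨⟨h1, hDY0 h2⟩, ⟨hDX0 h1, h2⟩⟩
  have hcard := Finset.card_union_add_card_inter (DX ×ˢ (Xᶜ.powerset.erase ∅))
    ((X.powerset.erase ∅) ×ˢ DY)
  rw [hinter, Finset.card_product, Finset.card_product, Finset.card_product,
    Finset.card_erase_of_mem (Finset.empty_mem_powerset _),
    Finset.card_erase_of_mem (Finset.empty_mem_powerset _), Finset.card_powerset,
    Finset.card_powerset] at hcard
  have hinj : S.card ≤ (mixedD A X).card := by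
    apply Finset.card_le_card_of_injOn (fun r => r.1 ∪ r.2)
    · intro r hr
      rw [Finset.mem_coe, hS, Finset.mem_union, Finset.mem_product, Finset.mem_product] at hr
      have h1 : r.1 ⊆ X ∧ r.2 ⊆ Xᶜ := by
        rcases hr with hr | hr
        · exact ⟨Finset.mem_powerset.mp (Finset.mem_sdiff.mp hr.1).1,
            Finset.mem_powerset.mp (Finset.mem_erase.mp hr.2).2⟩
        · exact ⟨Finset.mem_powerset.mp (Finset.mem_erase.mp hr.1).2,
            Finset.mem_powerset.mp (Finset.mem_sdiff.mp hr.2).1⟩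
      obtain ⟨h2, h3⟩ := inter_inter_compl_union X r.1 r.2 h1.1 h1.2
      rw [Finset.mem_coe]
      simp only [mixedD, Finset.mem_filter, Finset.mem_univ, true_and, h2, h3]
      rcases hr with hr | hr
      · exact ⟨Or.inl (Finset.mem_sdiff.mp hr.1).2, (Finset.mem_erase.mp (hDX0 hr.1)).1,
          (Finset.mem_erase.mp hr.2).1⟩
      · exact ⟨Or.inr (Finset.mem_sdiff.mp hr.2).2, (Finset.mem_erase.mp hr.1).1,
          (Finset.mem_erase.mp (hDY0 hr.2)).1⟩
    · intro r hr r' hr' h
      have key : ∀ s ∈ (S : Set (Finset Ω × Finset Ω)), s.1 ⊆ X ∧ s.2 ⊆ Xᶜ := by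
        intro s hs
        rw [Finset.mem_coe, hS, Finset.mem_union, Finset.mem_product, Finset.mem_product] at hs
        rcases hs with hs | hs
        · exact ⟨Finset.mem_powerset.mp (Finset.mem_sdiff.mp hs.1).1,
            Finset.mem_powerset.mp (Finset.mem_erase.mp hs.2).2⟩
        · exact ⟨Finset.mem_powerset.mp (Finset.mem_erase.mp hs.1).2,
            Finset.mem_powerset.mp (Finset.mem_sdiff.mp hs.2).1⟩
      have h1 := inter_inter_compl_union X r.1 r.2 (key r hr).1 (key r hr).2
      have h2 := inter_inter_compl_union X r'.1 r'.2 (key r' hr').1 (key r' hr').2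
      have h' : r.1 ∪ r.2 = r'.1 ∪ r'.2 := h
      exact Prod.ext (by rw [← h1.1, h', h2.1]) (by rw [← h1.2, h', h2.2])
  have hX1 : (1 : ℕ) ≤ 2 ^ X.card := Nat.one_le_two_pow
  have hY1 : (1 : ℕ) ≤ 2 ^ Xᶜ.card := Nat.one_le_two_pow
  have hcard' : (S.card : ℝ) + DX.card * DY.card =
      DX.card * (2 ^ Xᶜ.card - 1) + (2 ^ X.card - 1) * DY.card := by
    have := congrArg (fun k : ℕ => (k : ℝ)) hcard
    simp only [Nat.cast_add, Nat.cast_mul, Nat.cast_sub hX1, Nat.cast_sub hY1, Nat.cast_pow,
      Nat.cast_ofNat, Nat.cast_one] at this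
    exact this
  have hinj' : (S.card : ℝ) ≤ (mixedD A X).card := by exact_mod_cast hinj
  linarith

/-- The number of unions of two members of a family. -/
theorem un_self_card (E : Finset (Finset Ω)) :
    ((un E E).card : ℝ) ≤ ((E.card : ℝ) ^ 2 + E.card) / 2 := by
  obtain ⟨α, β, _, h⟩ := exists_reps E
  have h2 : ∑ p ∈ E, ∑ q ∈ E, edg α β p q ≤ (E.card : ℝ) ^ 2 := by
    calc ∑ p ∈ E, ∑ q ∈ E, edg α β p q ≤ ∑ _p ∈ E, ∑ _q ∈ E, (1 : ℝ) :=
          Finset.sum_le_sum fun p _ => Finset.sum_le_sum fun q _ => edg_le_one α β p q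
      _ = (E.card : ℝ) ^ 2 := by simp [sq]
  linarith

/-- One mixed member gives few useful unions with members inside `X`. -/
theorem useful_card (A : Finset (Finset Ω)) (X e : Finset Ω) :
    (((A.filter fun a => a ⊆ X).image fun a => e ∪ a) ∩ mixedD A X).card ≤
      if e ∩ Xᶜ ∉ A then 2 ^ (X \ e).card else (X.powerset \ A).card := by
  by_cases h : e ∩ Xᶜ ∈ A
  swap
  · rw [if_pos h, ← Finset.card_powerset]
    have : ((A.filter fun a => a ⊆ X).image fun a => e ∪ a) ∩ mixedD A X ⊆
        (X \ e).powerset.image fun w => e ∪ w := by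
      intro x hx
      rw [Finset.mem_inter, Finset.mem_image] at hx
      obtain ⟨⟨a, ha, rfl⟩, _⟩ := hx
      rw [Finset.mem_filter] at ha
      rw [Finset.mem_image]
      refine ⟨a \ e, ?_, ?_⟩
      · rw [Finset.mem_powerset]
        exact Finset.sdiff_subset_sdiff ha.2 (le_refl e)
      · exact Finset.union_sdiff_self_eq_union
    exact (Finset.card_le_card this).trans Finset.card_image_le
  · rw [if_neg (not_not.mpr h)]
    have : ((A.filter fun a => a ⊆ X).image fun a => e ∪ a) ∩ mixedD A X ⊆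
        (X.powerset \ A).image fun u => u ∪ (e ∩ Xᶜ) := by
      intro x hx
      rw [Finset.mem_inter, Finset.mem_image] at hx
      obtain ⟨⟨a, ha, rfl⟩, hx⟩ := hx
      rw [Finset.mem_filter] at ha
      simp only [mixedD, Finset.mem_filter, Finset.mem_univ, true_and] at hx
      have h1 : (e ∪ a) ∩ Xᶜ = e ∩ Xᶜ := by
        ext i
        have := @ha.2 i
        simp only [Finset.mem_inter, Finset.mem_union, Finset.mem_compl]
        tauto
      rw [h1] at hx
      have h2 : (e ∪ a) ∩ X ∉ A := by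
        rcases hx.1 with h3 | h3
        · exact h3
        · exact absurd h h3
      rw [Finset.mem_image]
      refine ⟨(e ∪ a) ∩ X, ?_, ?_⟩
      · rw [Finset.mem_sdiff, Finset.mem_powerset]
        exact ⟨Finset.inter_subset_right, h2⟩
      · rw [← h1]
        exact union_parts X (e ∪ a)
    exact (Finset.card_le_card this).trans Finset.card_image_le

/-- **Local optimality.** -/
theorem local_opt (n : ℕ) (A : Finset (Finset Ω)) (hA : IsBasis A) (X : Finset Ω)
    (hX : X.card = n) (hXc : Xᶜ.card = n)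
    (h1 : 5 * (X.powerset \ A).card + 2 ≤ 2 ^ n) (h2 : 5 * (Xᶜ.powerset \ A).card + 2 ≤ 2 ^ n) :
    2 ^ (n + 1) ≤ A.card + 1 := by
  classical
  have h0 := hA.empty_mem
  set dX := (X.powerset \ A).card with hdX
  set dY := (Xᶜ.powerset \ A).card with hdY
  set E := mixedE A X with hE
  have cX : (A.filter fun a => a ⊆ X).card + dX = 2 ^ n := by
    rw [← hX, ← Finset.card_powerset, hdX]
    have : (A.filter fun a => a ⊆ X) = X.powerset ∩ A := by
      ext a; simp only [Finset.mem_filter, Finset.mem_inter, Finset.mem_powerset]; tauto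
    rw [this]
    exact Finset.card_inter_add_card_sdiff _ _
  have cY : (A.filter fun a => a ⊆ Xᶜ).card + dY = 2 ^ n := by
    rw [← hXc, ← Finset.card_powerset, hdY]
    have : (A.filter fun a => a ⊆ Xᶜ) = Xᶜ.powerset ∩ A := by
      ext a; simp only [Finset.mem_filter, Finset.mem_inter, Finset.mem_powerset]; tauto
    rw [this]
    exact Finset.card_inter_add_card_sdiff _ _
  have cs := card_split A h0 X
  rw [← hE] at cs
  by_contra hcon
  push Not at hcon
  have heD : E.card < dX + dY := by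
    have : 2 ^ (n + 1) = 2 ^ n + 2 ^ n := by ring
    omega
  -- every mixed union uses a mixed member
  have hcov : mixedD A X ⊆ (E.biUnion fun e =>
      (((A.filter fun a => a ⊆ X).image fun a => e ∪ a) ∩ mixedD A X) ∪
      (((A.filter fun a => a ⊆ Xᶜ).image fun a => e ∪ a) ∩ mixedD A X)) ∪ un E E := by
    intro x hx
    have hx' := hx
    simp only [mixedD, Finset.mem_filter, Finset.mem_univ, true_and] at hx'
    obtain ⟨a, ha, b, hb, hab⟩ := hA x
    have tri : ∀ c ∈ A, c ∈ E ∨ c ⊆ X ∨ c ⊆ Xᶜ := by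
      intro c hc
      by_cases h3 : c ∩ X = ∅
      · right; right
        rw [Finset.subset_compl_iff_disjoint_right]
        exact Finset.disjoint_iff_inter_eq_empty.mpr h3
      · by_cases h4 : c ∩ Xᶜ = ∅
        · right; left
          have := Finset.disjoint_iff_inter_eq_empty.mpr h4
          intro i hi
          by_contra hiX
          exact Finset.disjoint_left.mp this hi (Finset.mem_compl.mpr hiX)
        · left
          rw [hE, mixedE, Finset.mem_filter]
          exact ⟨hc, h3, h4⟩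
    have one : ∀ e ∈ E, ∀ c ∈ A, x = e ∪ c → x ∈ (E.biUnion fun e =>
      (((A.filter fun a => a ⊆ X).image fun a => e ∪ a) ∩ mixedD A X) ∪
      (((A.filter fun a => a ⊆ Xᶜ).image fun a => e ∪ a) ∩ mixedD A X)) ∪ un E E := by
      intro e he c hc hxe
      rcases tri c hc with h3 | h3 | h3
      · apply Finset.mem_union_right
        rw [hxe]
        exact Finset.mem_image₂_of_mem he h3
      · apply Finset.mem_union_left
        rw [Finset.mem_biUnion]
        refine ⟨e, he, Finset.mem_union_left _ ?_⟩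
        rw [Finset.mem_inter, Finset.mem_image]
        exact ⟨⟨c, Finset.mem_filter.mpr ⟨hc, h3⟩, hxe.symm⟩, hx⟩
      · apply Finset.mem_union_left
        rw [Finset.mem_biUnion]
        refine ⟨e, he, Finset.mem_union_right _ ?_⟩
        rw [Finset.mem_inter, Finset.mem_image]
        exact ⟨⟨c, Finset.mem_filter.mpr ⟨hc, h3⟩, hxe.symm⟩, hx⟩
    rcases tri a ha with h3 | h3 | h3
    · exact one a h3 b hb hab
    · rcases tri b hb with h4 | h4 | h4
      · exact one b h4 a ha (by rw [hab, Finset.union_comm])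
      · exfalso
        apply hx'.2.2
        rw [hab, ← Finset.disjoint_iff_inter_eq_empty]
        exact Finset.disjoint_of_subset_left (Finset.union_subset h3 h4) disjoint_compl_right
      · exfalso
        obtain ⟨h5, h6⟩ := inter_inter_compl_union X a b h3 h4
        rw [hab, h5, h6] at hx'
        rcases hx'.1 with h7 | h7
        · exact h7 ha
        · exact h7 hb
    · rcases tri b hb with h4 | h4 | h4
      · exact one b h4 a ha (by rw [hab, Finset.union_comm])
      · exfalso
        obtain ⟨h5, h6⟩ := inter_inter_compl_union X b a h4 h3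
        rw [hab, Finset.union_comm a b, h5, h6] at hx'
        rcases hx'.1 with h7 | h7
        · exact h7 hb
        · exact h7 ha
      · exfalso
        apply hx'.2.1
        rw [hab, ← Finset.disjoint_iff_inter_eq_empty]
        exact Finset.disjoint_of_subset_left (Finset.union_subset h3 h4) disjoint_compl_left
  -- count
  have hM : (dX : ℝ) ≤ max (dX : ℝ) dY := le_max_left _ _
  have hM' : (dY : ℝ) ≤ max (dX : ℝ) dY := le_max_right _ _
  set M : ℝ := max (dX : ℝ) dY with hMdef
  have h1' : 5 * (dX : ℝ) + 2 ≤ 2 ^ n := by exact_mod_cast h1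
  have h2' : 5 * (dY : ℝ) + 2 ≤ 2 ^ n := by exact_mod_cast h2
  have h5M : 5 * M + 2 ≤ 2 ^ n := by
    rcases max_choice (dX : ℝ) dY with h | h <;> rw [hMdef, h] <;> assumption
  have dX0 : (0 : ℝ) ≤ dX := Nat.cast_nonneg _
  have dY0 : (0 : ℝ) ≤ dY := Nat.cast_nonneg _
  have per : ∀ e ∈ E, (((((A.filter fun a => a ⊆ X).image fun a => e ∪ a) ∩ mixedD A X) ∪
      (((A.filter fun a => a ⊆ Xᶜ).image fun a => e ∪ a) ∩ mixedD A X)).card : ℝ) ≤
      2 ^ n / 2 + M := by
    intro e he
    rw [hE, mixedE, Finset.mem_filter] at he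
    have u1 := useful_card A X e
    have u2 := useful_card A Xᶜ e
    rw [compl_compl] at u2
    have u3 := Finset.card_union_le (((A.filter fun a => a ⊆ X).image fun a => e ∪ a) ∩
      mixedD A X) (((A.filter fun a => a ⊆ Xᶜ).image fun a => e ∪ a) ∩ mixedD A X)
    have hmix : mixedD A Xᶜ = mixedD A X := by
      ext x
      simp only [mixedD, Finset.mem_filter, Finset.mem_univ, true_and, compl_compl]
      tauto
    rw [hmix] at u2
    have eX : 1 ≤ (e ∩ X).card := Finset.card_pos.mpr (Finset.nonempty_iff_ne_empty.mpr he.2.1)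
    have eY : 1 ≤ (e ∩ Xᶜ).card := Finset.card_pos.mpr (Finset.nonempty_iff_ne_empty.mpr he.2.2)
    have sX : (X \ e).card + (e ∩ X).card = n := by
      rw [← hX, Finset.inter_comm]
      exact Finset.card_sdiff_add_card_inter X e
    have sY : (Xᶜ \ e).card + (e ∩ Xᶜ).card = n := by
      rw [← hXc, Finset.inter_comm]
      exact Finset.card_sdiff_add_card_inter Xᶜ e
    have big : ∀ c : Finset Ω, c ∉ A → 2 ≤ c.card := by
      intro c hc
      by_contra h3
      push Not at h3
      rcases Nat.lt_or_ge c.card 1 with h4 | h4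
      · have : c = ∅ := Finset.card_eq_zero.mp (by omega)
        exact hc (this ▸ h0)
      · obtain ⟨i, hi⟩ := Finset.card_eq_one.mp (show c.card = 1 by omega)
        exact hc (hi ▸ hA.singleton_mem i)
    have u3' : (((((A.filter fun a => a ⊆ X).image fun a => e ∪ a) ∩ mixedD A X) ∪
      (((A.filter fun a => a ⊆ Xᶜ).image fun a => e ∪ a) ∩ mixedD A X)).card : ℝ) ≤
      ((((A.filter fun a => a ⊆ X).image fun a => e ∪ a) ∩ mixedD A X).card : ℝ) +
      ((((A.filter fun a => a ⊆ Xᶜ).image fun a => e ∪ a) ∩ mixedD A X).card : ℝ) := by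
      exact_mod_cast u3
    refine le_trans u3' ?_
    by_cases c1 : e ∩ Xᶜ ∉ A <;> by_cases c2 : e ∩ X ∉ A
    · rw [if_pos c1] at u1
      rw [if_pos c2] at u2
      have b1 := big _ c1
      have b2 := big _ c2
      have v1 : ((((A.filter fun a => a ⊆ X).image fun a => e ∪ a) ∩ mixedD A X).card : ℝ) ≤
        2 ^ (X \ e).card := by exact_mod_cast u1
      have v2 : ((((A.filter fun a => a ⊆ Xᶜ).image fun a => e ∪ a) ∩ mixedD A X).card : ℝ) ≤
        2 ^ (Xᶜ \ e).card := by exact_mod_cast u2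
      have w1 : (2 : ℝ) ^ (X \ e).card ≤ 2 ^ n / 4 := two_pow_quarter (by omega)
      have w2 : (2 : ℝ) ^ (Xᶜ \ e).card ≤ 2 ^ n / 4 := two_pow_quarter (by omega)
      linarith
    · rw [if_pos c1] at u1
      rw [if_neg c2] at u2
      have v1 : ((((A.filter fun a => a ⊆ X).image fun a => e ∪ a) ∩ mixedD A X).card : ℝ) ≤
        2 ^ (X \ e).card := by exact_mod_cast u1
      have v2 : ((((A.filter fun a => a ⊆ Xᶜ).image fun a => e ∪ a) ∩ mixedD A X).card : ℝ) ≤
        dY := by exact_mod_cast u2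
      have w1 : (2 : ℝ) ^ (X \ e).card ≤ 2 ^ n / 2 := two_pow_half (by omega)
      linarith
    · rw [if_neg c1] at u1
      rw [if_pos c2] at u2
      have v1 : ((((A.filter fun a => a ⊆ X).image fun a => e ∪ a) ∩ mixedD A X).card : ℝ) ≤
        dX := by exact_mod_cast u1
      have v2 : ((((A.filter fun a => a ⊆ Xᶜ).image fun a => e ∪ a) ∩ mixedD A X).card : ℝ) ≤
        2 ^ (Xᶜ \ e).card := by exact_mod_cast u2
      have w2 : (2 : ℝ) ^ (Xᶜ \ e).card ≤ 2 ^ n / 2 := two_pow_half (by omega)
      linarith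
    · rw [if_neg c1] at u1
      rw [if_neg c2] at u2
      have v1 : ((((A.filter fun a => a ⊆ X).image fun a => e ∪ a) ∩ mixedD A X).card : ℝ) ≤
        dX := by exact_mod_cast u1
      have v2 : ((((A.filter fun a => a ⊆ Xᶜ).image fun a => e ∪ a) ∩ mixedD A X).card : ℝ) ≤
        dY := by exact_mod_cast u2
      linarith
  have tot : ((mixedD A X).card : ℝ) ≤ E.card * (2 ^ n / 2 + M) +
      ((E.card : ℝ) ^ 2 + E.card) / 2 := by
    have t1 := Finset.card_le_card hcov
    have t2 := Finset.card_union_le (E.biUnion fun e =>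
      (((A.filter fun a => a ⊆ X).image fun a => e ∪ a) ∩ mixedD A X) ∪
      (((A.filter fun a => a ⊆ Xᶜ).image fun a => e ∪ a) ∩ mixedD A X)) (un E E)
    have t3 : ((E.biUnion fun e =>
      (((A.filter fun a => a ⊆ X).image fun a => e ∪ a) ∩ mixedD A X) ∪
      (((A.filter fun a => a ⊆ Xᶜ).image fun a => e ∪ a) ∩ mixedD A X)).card : ℝ) ≤
      E.card * (2 ^ n / 2 + M) := by
      have t4 := Finset.card_biUnion_le (s := E) (t := fun e =>
        (((A.filter fun a => a ⊆ X).image fun a => e ∪ a) ∩ mixedD A X) ∪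
        (((A.filter fun a => a ⊆ Xᶜ).image fun a => e ∪ a) ∩ mixedD A X))
      have t5 : ((E.biUnion fun e =>
        (((A.filter fun a => a ⊆ X).image fun a => e ∪ a) ∩ mixedD A X) ∪
        (((A.filter fun a => a ⊆ Xᶜ).image fun a => e ∪ a) ∩ mixedD A X)).card : ℝ) ≤
        ∑ e ∈ E, (((((A.filter fun a => a ⊆ X).image fun a => e ∪ a) ∩ mixedD A X) ∪
        (((A.filter fun a => a ⊆ Xᶜ).image fun a => e ∪ a) ∩ mixedD A X)).card : ℝ) := by
        exact_mod_cast t4
      refine t5.trans ((Finset.sum_le_sum per).trans ?_)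
      rw [Finset.sum_const, nsmul_eq_mul]
    have t6 := un_self_card E
    have t7 : ((mixedD A X).card : ℝ) ≤ ((E.biUnion fun e =>
      (((A.filter fun a => a ⊆ X).image fun a => e ∪ a) ∩ mixedD A X) ∪
      (((A.filter fun a => a ⊆ Xᶜ).image fun a => e ∪ a) ∩ mixedD A X)).card : ℝ) +
      ((un E E).card : ℝ) := by exact_mod_cast t1.trans t2
    linarith
  have low := mixedD_card A X h0
  rw [← hdX, ← hdY, hX, hXc] at low
  have he1 : (E.card : ℝ) ≤ dX + dY - 1 := by
    have : E.card + 1 ≤ dX + dY := heD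
    have h3 : ((E.card + 1 : ℕ) : ℝ) ≤ ((dX + dY : ℕ) : ℝ) := by exact_mod_cast this
    push_cast at h3
    linarith
  have he0 : (0 : ℝ) ≤ E.card := Nat.cast_nonneg _
  set x : ℝ := (E.card : ℝ)
  set T : ℝ := (2 : ℝ) ^ n
  have hM0 : 0 ≤ M := dX0.trans hM
  have hprod : (dX : ℝ) * dY ≤ (dX + dY) ^ 2 / 4 := by nlinarith [sq_nonneg ((dX : ℝ) - dY)]
  have hD1 : (1 : ℝ) ≤ dX + dY := by linarith
  set D : ℝ := (dX : ℝ) + dY with hDdef
  have hD2 : D ≤ 2 * M := by linarith
  have up : x * (T / 2 + M) + (x ^ 2 + x) / 2 ≤ (D - 1) * (T / 2 + M) + (D - 1) * D / 2 := by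
    have : x * (T / 2 + M) ≤ (D - 1) * (T / 2 + M) := by
      apply mul_le_mul_of_nonneg_right he1
      have : 0 < T := by positivity
      linarith
    have h3 : x ^ 2 + x ≤ (D - 1) * D := by nlinarith
    linarith
  have lo : D * (T - 1) - D ^ 2 / 4 ≤ (mixedD A X).card := by
    have : (dX : ℝ) * (T - 1) + (T - 1) * dY - dX * dY = D * (T - 1) - dX * dY := by
      rw [hDdef]; ring
    linarith
  have fin : D * (T - 1) - D ^ 2 / 4 ≤ (D - 1) * (T / 2 + M) + (D - 1) * D / 2 := by linarith
  have hT : 0 < T := by positivity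
  nlinarith

end Run7.h859
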