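import Pool.Agent.Run7.h859.RWeight

/-!
Members with many pairwise disjoint moves inside the family have few typical neighbours.
-/

namespace Run7.h859

open Finset

set_option linter.unusedSectionVars false

variable {Ω : Type} [Fintype Ω] [DecidableEq Ω]

/-- Inclusion-exclusion for containing a set which is enumerated by `c`. -/
theorem subset_indicator {k : ℕ} (c : Fin k → Ω) (v : Finset Ω) :
    (if (Finset.univ.image c) ⊆ v then (1 : ℝ) else 0) =
      ∑ s ∈ (Finset.univ : Finset (Fin k)).powerset, (-1 : ℝ) ^ s.card * miss (s.image c) v := by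
  have h1 : (if (Finset.univ.image c) ⊆ v then (1 : ℝ) else 0) =
      ∏ i : Fin k, (1 + (if c i ∈ v then 0 else -1 : ℝ)) := by
    by_cases h : (Finset.univ.image c) ⊆ v
    · rw [if_pos h]
      symm
      apply Finset.prod_eq_one
      intro i _
      have : c i ∈ v := h (Finset.mem_image_of_mem c (Finset.mem_univ i))
      rw [if_pos this, add_zero]
    · rw [if_neg h]
      symm
      rw [Finset.not_subset] at h
      obtain ⟨y, hy, hyv⟩ := h
      rw [Finset.mem_image] at hy
      obtain ⟨i, _, rfl⟩ := hy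
      apply Finset.prod_eq_zero (Finset.mem_univ i)
      rw [if_neg hyv]; norm_num
  rw [h1, Finset.prod_one_add]
  refine Finset.sum_congr rfl fun s _ => ?_
  unfold miss
  by_cases h : Disjoint v (s.image c)
  · rw [if_pos h, mul_one]
    have : ∀ i ∈ s, (if c i ∈ v then (0 : ℝ) else -1) = -1 := by
      intro i hi
      rw [if_neg]
      intro hc
      exact Finset.disjoint_left.mp h hc (Finset.mem_image_of_mem c hi)
    rw [Finset.prod_congr rfl this, Finset.prod_const]
  · rw [if_neg h, mul_zero]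
    rw [Finset.not_disjoint_iff] at h
    obtain ⟨y, hyv, hy⟩ := h
    rw [Finset.mem_image] at hy
    obtain ⟨i, hi, rfl⟩ := hy
    exact Finset.prod_eq_zero hi (if_pos hyv)

theorem power_expand (k : ℕ) (r : ℝ) :
    (1 - r) ^ k = ∑ s ∈ (Finset.univ : Finset (Fin k)).powerset, (-1 : ℝ) ^ s.card * r ^ s.card := by
  have h1 : (1 - r) ^ k = ∏ _i : Fin k, (1 + (-r)) := by
    rw [Finset.prod_const, Finset.card_univ, Fintype.card_fin]
    ring
  rw [h1, Finset.prod_one_add]
  refine Finset.sum_congr rfl fun s _ => ?_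
  rw [Finset.prod_const, neg_pow]

variable {A : Finset (Finset Ω)} {e : Mem A → Mem A → ℝ} {δ : ℝ}

/-- A typical member contains the expected number of sets of a disjoint family of `k`-sets. -/
theorem RW.contain {d : ℕ} {ω : Mem A → ℝ} {κ : ℝ} (R : RW A d ω κ) {k : ℕ}
    (hk : k ≤ d) (F : Finset (Finset Ω)) (hF : ∀ Z ∈ F, Z.card = k)
    (hdis : ∀ Z ∈ F, ∀ Z' ∈ F, Z ≠ Z' → Disjoint Z Z') :
    av (fun v => ω v * |((F.filter fun Z => Z ⊆ v.1).card : ℝ) -
      (1 - √(1 / 2 : ℝ)) ^ k * F.card|) ≤ 2 ^ k * (κ * Fintype.card Ω) := by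
  classical
  -- enumeration of the members of `F`
  let c : {Z // Z ∈ F} → Fin k → Ω := fun Z i => ((Finset.equivFinOfCardEq (hF Z.1 Z.2)).symm i).1
  have cinj : ∀ Z, Function.Injective (c Z) := fun Z =>
    Subtype.val_injective.comp (Equiv.injective _)
  have cim : ∀ Z : {Z // Z ∈ F}, Finset.univ.image (c Z) = Z.1 := by
    intro Z
    ext y
    simp only [Finset.mem_image, Finset.mem_univ, true_and]
    constructor
    · rintro ⟨i, rfl⟩
      exact ((Finset.equivFinOfCardEq (hF Z.1 Z.2)).symm i).2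
    · intro hy
      refine ⟨Finset.equivFinOfCardEq (hF Z.1 Z.2) ⟨y, hy⟩, ?_⟩
      simp [c]
  have csub : ∀ (Z : {Z // Z ∈ F}) (s : Finset (Fin k)), s.image (c Z) ⊆ Z.1 := by
    intro Z s
    rw [← cim Z]
    exact Finset.image_subset_image (Finset.subset_univ s)
  have cdis : ∀ (s : Finset (Fin k)) (Z Z' : {Z // Z ∈ F}), Z ≠ Z' →
      Disjoint (s.image (c Z)) (s.image (c Z')) := by
    intro s Z Z' h
    have := hdis Z.1 Z.2 Z'.1 Z'.2 (fun h' => h (Subtype.ext h'))
    exact Finset.disjoint_of_subset_left (csub Z s)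
      (Finset.disjoint_of_subset_right (csub Z' s) this)
  have hFc : ((Fintype.card {Z // Z ∈ F} : ℕ) : ℝ) = F.card := by rw [Fintype.card_coe]
  have e1 : ∀ v : Mem A, ((F.filter fun Z => Z ⊆ v.1).card : ℝ) =
      ∑ Z : {Z // Z ∈ F}, ∑ s ∈ (Finset.univ : Finset (Fin k)).powerset,
        (-1 : ℝ) ^ s.card * miss (s.image (c Z)) v.1 := by
    intro v
    rw [← Finset.sum_boole, ← Finset.sum_coe_sort F (fun Z => if Z ⊆ v.1 then (1 : ℝ) else 0)]
    refine Finset.sum_congr rfl fun Z _ => ?_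
    rw [← subset_indicator (c Z) v.1, cim Z]
  have e2 : ∀ v : Mem A, ((F.filter fun Z => Z ⊆ v.1).card : ℝ) -
      (1 - √(1 / 2 : ℝ)) ^ k * F.card =
      ∑ s ∈ (Finset.univ : Finset (Fin k)).powerset, (-1 : ℝ) ^ s.card *
        (∑ Z : {Z // Z ∈ F}, miss (s.image (c Z)) v.1 * 1 -
          √((1 / 2 : ℝ) ^ s.card) * ∑ _Z : {Z // Z ∈ F}, (1 : ℝ)) := by
    intro v
    rw [e1, power_expand, Finset.sum_comm, Finset.sum_mul, ← Finset.sum_sub_distrib]
    refine Finset.sum_congr rfl fun s _ => ?_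
    rw [← Finset.mul_sum, sqrt_half_pow, Finset.sum_const, Finset.card_univ, nsmul_eq_mul,
      mul_one, hFc, mul_sub]
    simp only [mul_one]
    ring
  have e3 : ∀ s : Finset (Fin k), av (fun v => ω v *
      |∑ Z : {Z // Z ∈ F}, miss (s.image (c Z)) v.1 * 1 -
          √((1 / 2 : ℝ) ^ s.card) * ∑ _Z : {Z // Z ∈ F}, (1 : ℝ)|) ≤ κ * Fintype.card Ω := by
    intro s
    rcases Nat.eq_zero_or_pos s.card with h | h
    · have hs : s = ∅ := Finset.card_eq_zero.mp h
      subst hs
      have h0 : ∀ v : Mem A, ω v *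
          |∑ Z : {Z // Z ∈ F}, miss ((∅ : Finset (Fin k)).image (c Z)) v.1 * 1 -
          √((1 / 2 : ℝ) ^ (∅ : Finset (Fin k)).card) * ∑ _Z : {Z // Z ∈ F}, (1 : ℝ)| = 0 := by
        intro v
        simp [miss]
      simp only [h0]
      have : av (fun _ : Mem A => (0 : ℝ)) = 0 := by unfold av; simp
      rw [this]
      have := R.k0
      positivity
    · refine R.prop {Z // Z ∈ F} (fun Z => s.image (c Z)) s.card h ?_ ?_ (cdis s)
        (fun _ => 1) (fun _ => zero_le_one) (fun _ => le_rfl)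
      · exact le_trans (by simpa using Finset.card_le_univ s) hk
      · intro Z
        exact Finset.card_image_of_injective _ (cinj Z)
  calc av (fun v => ω v * |((F.filter fun Z => Z ⊆ v.1).card : ℝ) -
        (1 - √(1 / 2 : ℝ)) ^ k * F.card|)
      ≤ av (fun v => ∑ s ∈ (Finset.univ : Finset (Fin k)).powerset, ω v *
        |∑ Z : {Z // Z ∈ F}, miss (s.image (c Z)) v.1 * 1 -
          √((1 / 2 : ℝ) ^ s.card) * ∑ _Z : {Z // Z ∈ F}, (1 : ℝ)|) := by
        refine av_mono fun v => ?_
        rw [e2, ← Finset.mul_sum]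
        apply mul_le_mul_of_nonneg_left _ (R.w0 v)
        refine le_trans (Finset.abs_sum_le_sum_abs _ _) (Finset.sum_le_sum fun s _ => ?_)
        rw [abs_mul, abs_pow, abs_neg, abs_one, one_pow, one_mul]
    _ = ∑ s ∈ (Finset.univ : Finset (Fin k)).powerset, av (fun v => ω v *
        |∑ Z : {Z // Z ∈ F}, miss (s.image (c Z)) v.1 * 1 -
          √((1 / 2 : ℝ) ^ s.card) * ∑ _Z : {Z // Z ∈ F}, (1 : ℝ)|) := av_sum _ _
    _ ≤ ∑ _s ∈ (Finset.univ : Finset (Fin k)).powerset, κ * Fintype.card Ω :=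
        Finset.sum_le_sum fun s _ => e3 s
    _ = 2 ^ k * (κ * Fintype.card Ω) := by
        rw [Finset.sum_const, Finset.card_powerset, Finset.card_univ, Fintype.card_fin,
          nsmul_eq_mul]
        push_cast
        ring

theorem one_sub_sqrt_half_pos : 0 < 1 - √(1 / 2 : ℝ) := by
  have : √(1 / 2 : ℝ) < 1 := by
    rw [Real.sqrt_lt' one_pos]; norm_num
  linarith

theorem one_sub_sqrt_half_lt : 1 - √(1 / 2 : ℝ) < 1 := by
  have : 0 < √(1 / 2 : ℝ) := Real.sqrt_pos.mpr (by norm_num)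
  linarith

/-- Members with linearly many disjoint moves of one size. -/
theorem RW.m3a (E : EG A e δ) {d : ℕ} {ω : Mem A → ℝ} {κ : ℝ} (R : RW A d ω κ) {k : ℕ}
    (hk : k ≤ d) (hN : 0 < Fintype.card Ω) (c : ℝ) (hc : 0 < c)
    (P : Mem A → Prop) [DecidablePred P]
    (hP : ∀ a, P a → ∃ F : Finset (Finset Ω), (∀ Z ∈ F, Z.card = k ∧ symmDiff a.1 Z ∈ A) ∧
      (∀ Z ∈ F, ∀ Z' ∈ F, Z ≠ Z' → Disjoint Z Z') ∧ c * Fintype.card Ω ≤ F.card) :
    av (fun a => (if P a then 1 else 0) * av (fun v => e a v * ω v)) ≤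
      (2 ^ k * κ + 1 / Fintype.card Ω) / ((1 - √(1 / 2 : ℝ)) ^ k * c) := by
  classical
  have hN' : (0 : ℝ) < Fintype.card Ω := by exact_mod_cast hN
  set p : ℝ := 1 - √(1 / 2 : ℝ) with hp
  have hp0 : 0 < p := one_sub_sqrt_half_pos
  -- the families
  have hex : ∀ a : Mem A, ∃ F : Finset (Finset Ω), (∀ Z ∈ F, Z.card = k ∧ symmDiff a.1 Z ∈ A) ∧
      (∀ Z ∈ F, ∀ Z' ∈ F, Z ≠ Z' → Disjoint Z Z') ∧
      (P a → c * Fintype.card Ω ≤ F.card) := by
    intro a
    by_cases h : P a
    · obtain ⟨F, h1, h2, h3⟩ := hP a h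
      exact ⟨F, h1, h2, fun _ => h3⟩
    · exact ⟨∅, by simp, by simp, fun h' => absurd h' h⟩
  choose F hF1 hF2 hF3 using hex
  have hcont : ∀ a : Mem A, av (fun v => ω v * |(((F a).filter fun Z => Z ⊆ v.1).card : ℝ) -
      p ^ k * (F a).card|) ≤ 2 ^ k * (κ * Fintype.card Ω) := fun a =>
    R.contain hk (F a) (fun Z hZ => (hF1 a Z hZ).1) (hF2 a)
  have hmv : av (fun a => av (fun v => e a v *
      (((F a).filter fun Z => Z ⊆ v.1).card : ℝ))) ≤ 1 := by
    rw [av_comm]
    exact av_le zero_le_one fun b => E.mv F (fun a Z hZ => (hF1 a Z hZ).2) b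
  have hκ := R.k0
  have key : av (fun a => (if P a then 1 else 0) * av (fun v => e a v * ω v)) *
      (p ^ k * (c * Fintype.card Ω)) ≤ 1 + 2 ^ k * (κ * Fintype.card Ω) := by
    rw [← av_mul_right]
    calc av (fun a => (if P a then 1 else 0) * av (fun v => e a v * ω v) *
          (p ^ k * (c * Fintype.card Ω)))
        ≤ av (fun a => av (fun v => e a v * (((F a).filter fun Z => Z ⊆ v.1).card : ℝ) +
          ω v * |(((F a).filter fun Z => Z ⊆ v.1).card : ℝ) - p ^ k * (F a).card|)) := by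
          refine av_mono fun a => ?_
          split_ifs with h
          · rw [one_mul, ← av_mul_right]
            refine av_mono fun v => ?_
            have h3 := hF3 a h
            have a1 := E.e0 a v
            have a2 := E.e1 a v
            have b1 := R.w0 v
            have b2 := R.w1 v
            set n : ℝ := (((F a).filter fun Z => Z ⊆ v.1).card : ℝ) with hn
            have hn0 : 0 ≤ n := Nat.cast_nonneg _
            have h4 : p ^ k * (c * Fintype.card Ω) ≤ p ^ k * (F a).card := by gcongr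
            have h5 : p ^ k * ((F a).card : ℝ) ≤ n + |n - p ^ k * (F a).card| := by
              have := neg_abs_le (n - p ^ k * (F a).card)
              linarith
            have h6 := abs_nonneg (n - p ^ k * ((F a).card : ℝ))
            calc e a v * ω v * (p ^ k * (c * Fintype.card Ω))
                ≤ e a v * ω v * (n + |n - p ^ k * (F a).card|) := by
                  apply mul_le_mul_of_nonneg_left (h4.trans h5) (by positivity)
              _ = (e a v * n) * ω v + (ω v * |n - p ^ k * (F a).card|) * e a v := by ring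
              _ ≤ (e a v * n) * 1 + (ω v * |n - p ^ k * (F a).card|) * 1 := by gcongr
              _ = _ := by ring
          · rw [zero_mul, zero_mul]
            exact av_nonneg fun v => add_nonneg (mul_nonneg (E.e0 _ _) (Nat.cast_nonneg _))
              (mul_nonneg (R.w0 _) (abs_nonneg _))
      _ = av (fun a => av (fun v => e a v * (((F a).filter fun Z => Z ⊆ v.1).card : ℝ))) +
          av (fun a => av (fun v => ω v *
            |(((F a).filter fun Z => Z ⊆ v.1).card : ℝ) - p ^ k * (F a).card|)) := by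
          simp only [av_add]
      _ ≤ 1 + 2 ^ k * (κ * Fintype.card Ω) :=
          add_le_add hmv (av_le (by positivity) hcont)
  rw [le_div_iff₀ (by positivity)]
  have h7 : av (fun a => (if P a then 1 else 0) * av (fun v => e a v * ω v)) * (p ^ k * c) *
      Fintype.card Ω ≤ (2 ^ k * κ + 1 / Fintype.card Ω) * Fintype.card Ω := by
    have e1 : (2 ^ k * κ + 1 / (Fintype.card Ω : ℝ)) * Fintype.card Ω =
        1 + 2 ^ k * (κ * Fintype.card Ω) := by
      field_simp; ring
    rw [e1]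
    calc _ = av (fun a => (if P a then 1 else 0) * av (fun v => e a v * ω v)) *
        (p ^ k * (c * Fintype.card Ω)) := by ring
      _ ≤ _ := key
  exact le_of_mul_le_mul_right h7 hN'

/-- Members with linearly many disjoint moves of bounded size. -/
theorem RW.m3 (E : EG A e δ) {d : ℕ} {ω : Mem A → ℝ} {κ : ℝ} (R : RW A d ω κ)
    (hd : 1 ≤ d) (hN : 0 < Fintype.card Ω) (ε : ℝ) (hε : 0 < ε)
    (P : Mem A → Prop) [DecidablePred P]
    (hP : ∀ a, P a → ∃ F : Finset (Finset Ω),
      (∀ Z ∈ F, Z.Nonempty ∧ Z.card ≤ d ∧ symmDiff a.1 Z ∈ A) ∧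
      (∀ Z ∈ F, ∀ Z' ∈ F, Z ≠ Z' → Disjoint Z Z') ∧ ε * Fintype.card Ω < F.card) :
    av (fun a => (if P a then 1 else 0) * av (fun v => e a v * ω v)) ≤
      d * ((2 ^ d * κ + 1 / Fintype.card Ω) / ((1 - √(1 / 2 : ℝ)) ^ d * (ε / d))) := by
  classical
  have hN' : (0 : ℝ) < Fintype.card Ω := by exact_mod_cast hN
  have hd' : (0 : ℝ) < d := by exact_mod_cast hd
  have hκ := R.k0
  obtain ⟨Q, hQ⟩ : ∃ Q : ℕ → Mem A → Prop, ∀ k a, Q k a ↔ ∃ F : Finset (Finset Ω),
      (∀ Z ∈ F, Z.card = k ∧ symmDiff a.1 Z ∈ A) ∧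
      (∀ Z ∈ F, ∀ Z' ∈ F, Z ≠ Z' → Disjoint Z Z') ∧ (ε / d) * Fintype.card Ω ≤ F.card :=
    ⟨_, fun _ _ => Iff.rfl⟩
  have hPQ : ∀ a, P a → ∃ k ∈ Finset.Icc 1 d, Q k a := by
    intro a ha
    obtain ⟨F, h1, h2, h3⟩ := hP a ha
    by_contra hcon
    push Not at hcon
    have h4 : ∀ k ∈ Finset.Icc 1 d, ((F.filter fun Z => Z.card = k).card : ℝ) ≤
        (ε / d) * Fintype.card Ω := by
      intro k hk
      by_contra h5
      push Not at h5
      refine hcon k hk ((hQ k a).mpr ⟨F.filter fun Z => Z.card = k, ?_, ?_, h5.le⟩)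
      · intro Z hZ
        rw [Finset.mem_filter] at hZ
        exact ⟨hZ.2, (h1 Z hZ.1).2.2⟩
      · intro Z hZ Z' hZ' hne
        exact h2 Z (Finset.mem_filter.mp hZ).1 Z' (Finset.mem_filter.mp hZ').1 hne
    have h6 : F.card = ∑ k ∈ Finset.Icc 1 d, (F.filter fun Z => Z.card = k).card := by
      apply Finset.card_eq_sum_card_fiberwise
      intro Z hZ
      rw [Finset.mem_coe] at hZ
      rw [Finset.mem_coe, Finset.mem_Icc]
      exact ⟨Finset.card_pos.mpr (h1 Z hZ).1, (h1 Z hZ).2.1⟩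
    have h7 : (F.card : ℝ) ≤ ε * Fintype.card Ω := by
      rw [h6]
      push_cast
      calc ∑ k ∈ Finset.Icc 1 d, ((F.filter fun Z => Z.card = k).card : ℝ)
          ≤ ∑ _k ∈ Finset.Icc 1 d, (ε / d) * Fintype.card Ω := Finset.sum_le_sum h4
        _ = ε * Fintype.card Ω := by
            rw [Finset.sum_const, Nat.card_Icc, nsmul_eq_mul, Nat.add_sub_cancel]
            field_simp
    linarith
  have hp0 := one_sub_sqrt_half_pos
  have hp1 := one_sub_sqrt_half_lt
  calc av (fun a => (if P a then 1 else 0) * av (fun v => e a v * ω v))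
      ≤ av (fun a => ∑ k ∈ Finset.Icc 1 d,
          (if Q k a then 1 else 0) * av (fun v => e a v * ω v)) := by
        refine av_mono fun a => ?_
        have nn : 0 ≤ av (fun v => e a v * ω v) :=
          av_nonneg fun v => mul_nonneg (E.e0 _ _) (R.w0 _)
        split_ifs with h
        · obtain ⟨k, hk, hq⟩ := hPQ a h
          refine le_trans ?_ (Finset.single_le_sum (f := fun k =>
            (if Q k a then 1 else 0) * av (fun v => e a v * ω v)) ?_ hk)
          · rw [if_pos hq]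
          · intro k _
            show 0 ≤ (if Q k a then (1 : ℝ) else 0) * av (fun v => e a v * ω v)
            split_ifs
            · rw [one_mul]; exact nn
            · rw [zero_mul]
        · rw [zero_mul]
          refine Finset.sum_nonneg fun k _ => ?_
          split_ifs
          · rw [one_mul]; exact nn
          · rw [zero_mul]
    _ = ∑ k ∈ Finset.Icc 1 d,
          av (fun a => (if Q k a then 1 else 0) * av (fun v => e a v * ω v)) := av_sum _ _
    _ ≤ ∑ _k ∈ Finset.Icc 1 d,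
          ((2 ^ d * κ + 1 / Fintype.card Ω) / ((1 - √(1 / 2 : ℝ)) ^ d * (ε / d))) := by
        refine Finset.sum_le_sum fun k hk => ?_
        rw [Finset.mem_Icc] at hk
        refine le_trans (R.m3a E hk.2 hN (ε / d) (by positivity) (Q k)
          (fun a ha => (hQ k a).mp ha)) ?_
        have b1 : (2 : ℝ) ^ k ≤ 2 ^ d := pow_le_pow_right₀ (by norm_num) hk.2
        have b2 : (1 - √(1 / 2 : ℝ)) ^ d ≤ (1 - √(1 / 2 : ℝ)) ^ k :=
          pow_le_pow_of_le_one hp0.le hp1.le hk.2
        gcongr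
    _ = _ := by
        rw [Finset.sum_const, Nat.card_Icc, nsmul_eq_mul, Nat.add_sub_cancel]

/-- The bound on edges between typical and generic members. -/
noncomputable def muB (δ κ N ε : ℝ) (d : ℕ) : ℝ :=
  2 ^ d * (δ + κ) / ε + d * (2 ^ d * (δ + κ)) / ε ^ 2 +
    d * ((2 ^ d * κ + 1 / N) / ((1 - √(1 / 2 : ℝ)) ^ d * (ε / d)))

/-- **Lemma M.** -/
theorem RW.lemmaM (E : EG A e δ) {d : ℕ} {ω : Mem A → ℝ} {κ : ℝ} (R : RW A d ω κ)
    (hd : 1 ≤ d) (hN : 0 < Fintype.card Ω) (ε : ℝ) (hε : 0 < ε)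
    {I : Type} [Fintype I] (U : I → Finset (Finset Ω))
    (hU : ∀ i, ∀ Z ∈ U i, Z.Nonempty ∧ Z.card ≤ d)
    (hUd : ∀ i, ∀ Z ∈ U i, ∀ Z' ∈ U i, Z ≠ Z' → Disjoint Z Z')
    (P : Mem A → Prop) [DecidablePred P]
    (hP : ∀ a, P a → (ε * Fintype.card Ω <
        |(a.1.card : ℝ) - (1 - √(1 / 2 : ℝ)) * Fintype.card Ω|) ∨
      (ε * Fintype.card I < ((Finset.univ.filter fun i => ε * Fintype.card Ω <
        |(((U i).filter fun Z => Disjoint a.1 Z).card : ℝ) -
          ∑ Z ∈ U i, √(1 / 2 : ℝ) ^ Z.card|).card : ℝ)) ∨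
      (∃ F : Finset (Finset Ω),
        (∀ Z ∈ F, Z.Nonempty ∧ Z.card ≤ d ∧ symmDiff a.1 Z ∈ A) ∧
        (∀ Z ∈ F, ∀ Z' ∈ F, Z ≠ Z' → Disjoint Z Z') ∧ ε * Fintype.card Ω < F.card)) :
    av (fun a => (if P a then 1 else 0) * av (fun v => e a v * ω v)) ≤
      muB δ κ (Fintype.card Ω) ε d := by
  classical
  obtain ⟨P1, hP1⟩ : ∃ P1 : Mem A → Prop, ∀ a, P1 a ↔ ε * Fintype.card Ω <
        |(a.1.card : ℝ) - (1 - √(1 / 2 : ℝ)) * Fintype.card Ω| := ⟨_, fun _ => Iff.rfl⟩
  obtain ⟨P2, hP2⟩ : ∃ P2 : Mem A → Prop, ∀ a, P2 a ↔ ε * Fintype.card I <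
      ((Finset.univ.filter fun i => ε * Fintype.card Ω <
        |(((U i).filter fun Z => Disjoint a.1 Z).card : ℝ) -
          ∑ Z ∈ U i, √(1 / 2 : ℝ) ^ Z.card|).card : ℝ) :=
    ⟨_, fun _ => Iff.rfl⟩
  obtain ⟨P3, hP3⟩ : ∃ P3 : Mem A → Prop, ∀ a, P3 a ↔ ∃ F : Finset (Finset Ω),
        (∀ Z ∈ F, Z.Nonempty ∧ Z.card ≤ d ∧ symmDiff a.1 Z ∈ A) ∧
        (∀ Z ∈ F, ∀ Z' ∈ F, Z ≠ Z' → Disjoint Z Z') ∧ ε * Fintype.card Ω < F.card :=
    ⟨_, fun _ => Iff.rfl⟩
  have R' := R.next E
  have h1 := R'.m1 hd hN ε hε P1 (fun a h => (hP1 a).mp h)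
  have h2 := R'.m2 hN ε hε U hU hUd P2 (fun a h => (hP2 a).mp h)
  have h3 := R.m3 E hd hN ε hε P3 (fun a h => (hP3 a).mp h)
  unfold muB
  calc av (fun a => (if P a then 1 else 0) * av (fun v => e a v * ω v))
      ≤ av (fun a => (if P1 a then 1 else 0) * av (fun v => e a v * ω v) +
          (if P2 a then 1 else 0) * av (fun v => e a v * ω v) +
          (if P3 a then 1 else 0) * av (fun v => e a v * ω v)) := by
        refine av_mono fun a => ?_
        have nn : 0 ≤ av (fun v => e a v * ω v) :=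
          av_nonneg fun v => mul_nonneg (E.e0 _ _) (R.w0 _)
        have n1 : ∀ (X : Mem A → Prop), 0 ≤ (if X a then (1 : ℝ) else 0) := by
          intro X; split_ifs <;> norm_num
        rw [← add_mul, ← add_mul]
        apply mul_le_mul_of_nonneg_right _ nn
        by_cases h : P a
        · rw [if_pos h]
          rcases hP a h with h' | h' | h'
          · have : (if P1 a then (1 : ℝ) else 0) = 1 := if_pos ((hP1 a).mpr h')
            have := n1 P2
            have := n1 P3
            linarith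
          · have : (if P2 a then (1 : ℝ) else 0) = 1 := if_pos ((hP2 a).mpr h')
            have := n1 P1
            have := n1 P3
            linarith
          · have : (if P3 a then (1 : ℝ) else 0) = 1 := if_pos ((hP3 a).mpr h')
            have := n1 P2
            have := n1 P1
            linarith
        · rw [if_neg h]
          have := n1 P1
          have := n1 P2
          have := n1 P3
          linarith
    _ = av (fun a => (if P1 a then 1 else 0) * av (fun v => e a v * ω v)) +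
          av (fun a => (if P2 a then 1 else 0) * av (fun v => e a v * ω v)) +
          av (fun a => (if P3 a then 1 else 0) * av (fun v => e a v * ω v)) := by
        simp only [av_add]
    _ ≤ _ := add_le_add (add_le_add h1 h2) h3

end Run7.h859
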