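import Pool.Agent.Run7.h859.Cube

/-!
Weights concentrated on members of the family whose coordinates look like independent
coins of bias `√(1/2)`.
-/

namespace Run7.h859

open Finset

set_option linter.unusedSectionVars false

variable {Ω : Type} [Fintype Ω] [DecidableEq Ω]

/-- The members of a family, as a type. -/
abbrev Mem (A : Finset (Finset Ω)) : Type := {a : Finset Ω // a ∈ A}

theorem sqrt_half_pow (l : ℕ) : √((1 / 2 : ℝ) ^ l) = √(1 / 2 : ℝ) ^ l := by
  rw [Real.sqrt_eq_iff_mul_self_eq (by positivity) (by positivity), ← mul_pow,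
    Real.mul_self_sqrt (by norm_num)]

theorem half_pow_ge {l d : ℕ} (h : l ≤ d) : 1 / (1 / 2 : ℝ) ^ l ≤ 2 ^ d := by
  rw [one_div, one_div, inv_pow, inv_inv]
  exact pow_le_pow_right₀ (by norm_num) h

/-- An edge weight on the members of `A` with the concentration property and the property of
moves. -/
structure EG (A : Finset (Finset Ω)) (e : Mem A → Mem A → ℝ) (δ : ℝ) : Prop where
  e0 : ∀ p q, 0 ≤ e p q
  e1 : ∀ p q, e p q ≤ 1
  es : ∀ p q, e p q = e q p
  d0 : 0 ≤ δ
  sys : ∀ (ι : Type) [Fintype ι] (Z : ι → Finset Ω) (ℓ : ℕ), 1 ≤ ℓ → (∀ j, (Z j).card = ℓ) →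
    (∀ j k, j ≠ k → Disjoint (Z j) (Z k)) →
    Sys e (fun v j => miss (Z j) v.1) ((1 / 2 : ℝ) ^ ℓ) (δ * Fintype.card Ω)
  mv : ∀ F : Mem A → Finset (Finset Ω), (∀ a, ∀ Z ∈ F a, symmDiff a.1 Z ∈ A) → ∀ b : Mem A,
    av (fun a => e a b * (((F a).filter fun Z => Z ⊆ b.1).card : ℝ)) ≤ 1

/-- The edges given by chosen representations have the required properties. -/
theorem EG.of (A : Finset (Finset Ω)) (α β : Finset Ω → Finset Ω) (η : ℝ) (hη : 0 < η)
    (hA : η * 2 ^ Fintype.card Ω ≤ (A.card : ℝ) ^ 2) :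
    EG A (fun p q => edg α β p.1 q.1) (√(1 / (2 * η * Fintype.card Ω))) where
  e0 p q := edg_nonneg α β _ _
  e1 p q := edg_le_one α β _ _
  es p q := edg_symm α β _ _
  d0 := Real.sqrt_nonneg _
  sys ι _ Z ℓ h1 hc hd := by
    refine ⟨fun v j => miss_01 _ _, fun p q => edg_nonneg α β _ _, fun p q => edg_le_one α β _ _,
      fun p q => edg_symm α β _ _, by positivity, pow_le_one₀ (by norm_num) (by norm_num), ?_⟩
    intro W w0 w1
    have hm : 0 < (A.card : ℝ) ^ 2 := lt_of_lt_of_le (by positivity) hA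
    set X : Finset Ω → ℝ := fun x =>
      ∑ j, miss (Z j) x * W j - (1 / 2 : ℝ) ^ ℓ * ∑ j, W j with hX
    have hN : √(1 / (2 * η * Fintype.card Ω)) * (Fintype.card Ω : ℝ) =
        √((Fintype.card Ω : ℝ) / (2 * η)) := by
      rcases Nat.eq_zero_or_pos (Fintype.card Ω) with h | h
      · rw [h]; simp
      · have hp : (0 : ℝ) < Fintype.card Ω := by exact_mod_cast h
        have e1 : (Fintype.card Ω : ℝ) = √((Fintype.card Ω : ℝ) ^ 2) :=
          (Real.sqrt_sq hp.le).symm
        rw [show √(1 / (2 * η * Fintype.card Ω)) * (Fintype.card Ω : ℝ) =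
          √(1 / (2 * η * Fintype.card Ω)) * √((Fintype.card Ω : ℝ) ^ 2) by rw [← e1],
          ← Real.sqrt_mul (by positivity)]
        congr 1
        field_simp
    have key : av (fun p : Mem A => av (fun q : Mem A => edg α β p.1 q.1 *
        |∑ j, miss (Z j) p.1 * miss (Z j) q.1 * W j - (1 / 2 : ℝ) ^ ℓ * ∑ j, W j|)) ≤
        √((Fintype.card Ω : ℝ) / (2 * η)) := by
      apply Real.le_sqrt_of_sq_le
      have e1 : ∀ p q : Finset Ω, ∑ j, miss (Z j) p * miss (Z j) q * W j -
          (1 / 2 : ℝ) ^ ℓ * ∑ j, W j = X (p ∪ q) := by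
        intro p q
        simp only [hX, miss_union]
      simp only [e1]
      calc (av (fun p : Mem A => av (fun q : Mem A => edg α β p.1 q.1 * |X (p.1 ∪ q.1)|))) ^ 2
          ≤ av (fun p : Mem A =>
              (av (fun q : Mem A => edg α β p.1 q.1 * |X (p.1 ∪ q.1)|)) ^ 2) := av_sq_le _
        _ ≤ av (fun p : Mem A => av (fun q : Mem A =>
              (edg α β p.1 q.1 * |X (p.1 ∪ q.1)|) ^ 2)) := av_mono fun p => av_sq_le _
        _ = av (fun p : Mem A => av (fun q : Mem A =>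
              edg α β p.1 q.1 * X (p.1 ∪ q.1) ^ 2)) := by
            refine congrArg av (funext fun p => congrArg av (funext fun q => ?_))
            rw [mul_pow, sq_abs]
            rcases edg_01 α β p.1 q.1 with h | h <;> rw [h] <;> norm_num
        _ = (∑ p ∈ A, ∑ q ∈ A, edg α β p q * X (p ∪ q) ^ 2) / (A.card : ℝ) ^ 2 := by
            unfold av
            rw [Fintype.card_coe]
            have h3 : ∀ p : Mem A, ∑ q : Mem A, edg α β p.1 q.1 * X (p.1 ∪ q.1) ^ 2 =
                ∑ q ∈ A, edg α β p.1 q * X (p.1 ∪ q) ^ 2 := fun p =>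
              Finset.sum_coe_sort A (fun q => edg α β p.1 q * X (p.1 ∪ q) ^ 2)
            simp only [h3]
            rw [← Finset.sum_div, div_div, ← sq]
            congr 1
            exact Finset.sum_coe_sort A
              (fun p => ∑ q ∈ A, edg α β p q * X (p ∪ q) ^ 2)
        _ ≤ (2 * (2 ^ (Fintype.card Ω) * ((Fintype.card Ω : ℝ) / 4))) / (A.card : ℝ) ^ 2 := by
            apply div_le_div_of_nonneg_right _ hm.le
            refine le_trans (push α β (fun x => X x ^ 2) (fun x => sq_nonneg _) A) ?_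
            exact mul_le_mul_of_nonneg_left (sum_sq_le Z ℓ h1 hc hd W w0 w1) (by norm_num)
        _ ≤ (Fintype.card Ω : ℝ) / (2 * η) := by
            rw [div_le_div_iff₀ hm (by positivity)]
            have hN0 : (0 : ℝ) ≤ Fintype.card Ω := Nat.cast_nonneg _
            calc 2 * (2 ^ Fintype.card Ω * ((Fintype.card Ω : ℝ) / 4)) * (2 * η)
                = (Fintype.card Ω : ℝ) * (η * 2 ^ Fintype.card Ω) := by ring
              _ ≤ (Fintype.card Ω : ℝ) * (A.card : ℝ) ^ 2 :=
                mul_le_mul_of_nonneg_left hA hN0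
    rw [hN]
    exact key
  mv F hF b := by
    classical
    have hm : 0 < (A.card : ℝ) ^ 2 := lt_of_lt_of_le (by positivity) hA
    have hm' : 0 < (A.card : ℝ) := by
      have h0 : (0 : ℝ) ≤ A.card := Nat.cast_nonneg _
      rcases h0.eq_or_lt with h | h
      · rw [← h] at hm; norm_num at hm
      · exact h
    unfold av
    rw [Fintype.card_coe, div_le_one hm']
    have h1 := moves_le α β A b.1 (fun a => if h : a ∈ A then F ⟨a, h⟩ else ∅) (by
      intro a ha Z hZ
      rw [dif_pos ha] at hZ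
      exact hF ⟨a, ha⟩ Z hZ)
    rw [← Finset.sum_coe_sort A (fun a => edg α β a b.1 *
      (((if h : a ∈ A then F ⟨a, h⟩ else ∅).filter fun Z => Z ⊆ b.1).card : ℝ))] at h1
    refine le_trans (le_of_eq ?_) h1
    refine Finset.sum_congr rfl fun a _ => ?_
    rw [dif_pos a.2]

/-- Weights concentrated on typical members. -/
structure RW (A : Finset (Finset Ω)) (d : ℕ) (ω : Mem A → ℝ) (κ : ℝ) : Prop where
  w0 : ∀ v, 0 ≤ ω v
  w1 : ∀ v, ω v ≤ 1
  k0 : 0 ≤ κ
  prop : ∀ (ι : Type) [Fintype ι] (Z : ι → Finset Ω) (ℓ : ℕ), 1 ≤ ℓ → ℓ ≤ d →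
    (∀ j, (Z j).card = ℓ) → (∀ j k, j ≠ k → Disjoint (Z j) (Z k)) →
    ∀ W : ι → ℝ, (∀ j, 0 ≤ W j) → (∀ j, W j ≤ 1) →
    av (fun v => ω v * |∑ j, miss (Z j) v.1 * W j - √((1 / 2 : ℝ) ^ ℓ) * ∑ j, W j|) ≤
      κ * Fintype.card Ω

variable {A : Finset (Finset Ω)} {e : Mem A → Mem A → ℝ} {δ : ℝ}

/-- Vertices in many triangles are typical. -/
theorem EG.tri (E : EG A e δ) (d : ℕ) (γ : ℝ) (hγ : 0 < γ) :
    RW A d (fun v => if γ ≤ triW e v then 1 else 0)
      ((4 * 2 ^ d * δ + √(10 * (2 ^ d * 2 ^ d) * δ)) / γ ^ 2) where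
  w0 v := by show 0 ≤ if γ ≤ triW e v then (1 : ℝ) else 0; split_ifs <;> norm_num
  w1 v := by show (if γ ≤ triW e v then (1 : ℝ) else 0) ≤ 1; split_ifs <;> norm_num
  k0 := by have := E.d0; positivity
  prop ι _ Z ℓ h1 hℓ hc hd W w0 w1 := by
    have S := E.sys ι Z ℓ h1 hc hd
    have hN0 : (0 : ℝ) ≤ Fintype.card Ω := Nat.cast_nonneg _
    have hM : (Fintype.card ι : ℝ) ≤ Fintype.card Ω := by
      exact_mod_cast card_le_of_disjoint Z ℓ h1 hc hd
    have hK := S.lemmaK (Fintype.card Ω) hM W w0 w1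
    have hθ := S.θpos
    have hθ1 := S.θle
    have hθ2 := half_pow_ge hℓ
    set θ : ℝ := (1 / 2 : ℝ) ^ ℓ with hθdef
    have hδ := E.d0
    have hg2 : 0 < γ ^ 2 := by positivity
    have e1 : av (fun v => (if γ ≤ triW e v then (1 : ℝ) else 0) *
        |∑ j, miss (Z j) v.1 * W j - √θ * ∑ j, W j|) * γ ^ 2 ≤
        av (fun b => triW e b * degW e b ^ 2 * |∑ j, miss (Z j) b.1 * W j - √θ * ∑ j, W j|) := by
      rw [← av_mul_right]
      refine av_mono fun v => ?_
      have t0 := S.triW_nonneg v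
      have t1 := S.triW_le_sq v
      split_ifs with h
      · rw [one_mul, mul_comm]
        apply mul_le_mul_of_nonneg_right _ (abs_nonneg _)
        calc γ ^ 2 = γ * γ := sq γ
          _ ≤ triW e v * degW e v ^ 2 := mul_le_mul h (h.trans t1) hγ.le t0
      · rw [zero_mul, zero_mul]
        exact mul_nonneg (mul_nonneg t0 (sq_nonneg _)) (abs_nonneg _)
    rw [div_mul_eq_mul_div, le_div_iff₀ hg2]
    refine le_trans e1 (le_trans hK ?_)
    have a1 : 4 * (δ * (Fintype.card Ω : ℝ)) / θ ≤ 4 * 2 ^ d * δ * Fintype.card Ω := by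
      calc 4 * (δ * (Fintype.card Ω : ℝ)) / θ = 4 * (δ * Fintype.card Ω) * (1 / θ) := by ring
        _ ≤ 4 * (δ * Fintype.card Ω) * 2 ^ d := by gcongr
        _ = _ := by ring
    have a2 : (Fintype.card Ω : ℝ) * ((1 + θ) * (4 * (δ * Fintype.card Ω) / θ +
        δ * Fintype.card Ω)) / θ ≤ (10 * (2 ^ d * 2 ^ d) * δ) * (Fintype.card Ω : ℝ) ^ 2 := by
      have b1 : (1 : ℝ) ≤ 1 / θ := by rw [le_div_iff₀ hθ]; linarith
      calc (Fintype.card Ω : ℝ) * ((1 + θ) * (4 * (δ * Fintype.card Ω) / θ +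
          δ * Fintype.card Ω)) / θ
          = ((1 + θ) * (4 * (1 / θ) + 1)) * (1 / θ) * (δ * (Fintype.card Ω : ℝ) ^ 2) := by
            field_simp
        _ ≤ ((1 + 1) * (4 * 2 ^ d + 2 ^ d)) * 2 ^ d * (δ * (Fintype.card Ω : ℝ) ^ 2) := by
            have b2 : (1 : ℝ) ≤ 2 ^ d := b1.trans hθ2
            gcongr
        _ = _ := by ring
    have a3 : √((Fintype.card Ω : ℝ) * ((1 + θ) * (4 * (δ * Fintype.card Ω) / θ +
        δ * Fintype.card Ω)) / θ) ≤ √(10 * (2 ^ d * 2 ^ d) * δ) * (Fintype.card Ω : ℝ) := by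
      refine le_trans (Real.sqrt_le_sqrt a2) ?_
      rw [Real.sqrt_mul (by positivity), Real.sqrt_sq hN0]
    calc _ ≤ 4 * 2 ^ d * δ * Fintype.card Ω +
          √(10 * (2 ^ d * 2 ^ d) * δ) * (Fintype.card Ω : ℝ) := add_le_add a1 a3
      _ = _ := by ring

/-- **Lemma P.** Typicality passes to neighbours. -/
theorem RW.next (E : EG A e δ) {d : ℕ} {ω : Mem A → ℝ} {κ : ℝ} (R : RW A d ω κ) :
    RW A d (fun v => av (fun b => e v b * ω b)) (2 ^ d * (δ + κ)) where
  w0 v := av_nonneg fun b => mul_nonneg (E.e0 _ _) (R.w0 _)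
  w1 v := av_le zero_le_one fun b => mul_le_one₀ (E.e1 _ _) (R.w0 _) (R.w1 _)
  k0 := by have := E.d0; have := R.k0; positivity
  prop ι _ Z ℓ h1 hℓ hc hd W w0 w1 := by
    have S := E.sys ι Z ℓ h1 hc hd
    have RP := R.prop ι Z ℓ h1 hℓ hc hd
    have hθ := S.θpos
    have hθ1 := S.θle
    have hθ2 := half_pow_ge hℓ
    set θ : ℝ := (1 / 2 : ℝ) ^ ℓ with hθdef
    have hN0 : (0 : ℝ) ≤ Fintype.card Ω := Nat.cast_nonneg _
    have hs : 0 < √θ := Real.sqrt_pos.mpr hθ
    have hss : √θ * √θ = θ := Real.mul_self_sqrt hθ.le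
    have hsle : θ ≤ √θ := Real.le_sqrt_of_sq_le (by nlinarith)
    have hδ := E.d0
    have hκ := R.k0
    have key : √θ * av (fun v => av (fun b => e v b * ω b) *
        |∑ j, miss (Z j) v.1 * W j - √θ * ∑ j, W j|) ≤ (δ + κ) * Fintype.card Ω := by
      have pt : ∀ v b : Mem A, √θ * (e v b * ω b *
          |∑ j, miss (Z j) v.1 * W j - √θ * ∑ j, W j|) ≤
          e v b * |∑ j, miss (Z j) v.1 * miss (Z j) b.1 * W j - θ * ∑ j, W j| +
          ω b * |∑ j, miss (Z j) b.1 * (miss (Z j) v.1 * W j) -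
            √θ * ∑ j, miss (Z j) v.1 * W j| := by
        intro v b
        have i1 : √θ * (∑ j, miss (Z j) v.1 * W j - √θ * ∑ j, W j) =
            (∑ j, miss (Z j) v.1 * miss (Z j) b.1 * W j - θ * ∑ j, W j) -
            (∑ j, miss (Z j) b.1 * (miss (Z j) v.1 * W j) -
            √θ * ∑ j, miss (Z j) v.1 * W j) := by
          have i2 : ∑ j, miss (Z j) v.1 * miss (Z j) b.1 * W j =
              ∑ j, miss (Z j) b.1 * (miss (Z j) v.1 * W j) :=
            Finset.sum_congr rfl fun j _ => by ring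
          rw [i2, mul_sub, ← mul_assoc, hss]
          ring
        have i3 : √θ * |∑ j, miss (Z j) v.1 * W j - √θ * ∑ j, W j| =
            |(∑ j, miss (Z j) v.1 * miss (Z j) b.1 * W j - θ * ∑ j, W j) -
            (∑ j, miss (Z j) b.1 * (miss (Z j) v.1 * W j) -
            √θ * ∑ j, miss (Z j) v.1 * W j)| := by
          rw [← i1, abs_mul, abs_of_pos hs]
        have i4 : √θ * (e v b * ω b * |∑ j, miss (Z j) v.1 * W j - √θ * ∑ j, W j|) =
            e v b * ω b * (√θ * |∑ j, miss (Z j) v.1 * W j - √θ * ∑ j, W j|) := by ring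
        rw [i4, i3]
        set P := ∑ j, miss (Z j) v.1 * miss (Z j) b.1 * W j - θ * ∑ j, W j
        set Q := ∑ j, miss (Z j) b.1 * (miss (Z j) v.1 * W j) -
            √θ * ∑ j, miss (Z j) v.1 * W j
        have h3 : |P - Q| ≤ |P| + |Q| := abs_sub P Q
        have hP := abs_nonneg P
        have hQ := abs_nonneg Q
        have a1 := E.e0 v b
        have a2 := E.e1 v b
        have a3 := R.w0 b
        have a4 := R.w1 b
        calc e v b * ω b * |P - Q| ≤ e v b * ω b * (|P| + |Q|) := by gcongr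
          _ = (e v b * |P|) * ω b + (ω b * |Q|) * e v b := by ring
          _ ≤ (e v b * |P|) * 1 + (ω b * |Q|) * 1 := by gcongr
          _ = _ := by ring
      have hx : ∀ v : Mem A, (∀ j, 0 ≤ miss (Z j) v.1 * W j) ∧
          (∀ j, miss (Z j) v.1 * W j ≤ 1) := fun v =>
        ⟨fun j => mul_nonneg (S.x0 v j) (w0 j), fun j => mul_le_one₀ (S.x1 v j) (w0 j) (w1 j)⟩
      calc √θ * av (fun v => av (fun b => e v b * ω b) *
            |∑ j, miss (Z j) v.1 * W j - √θ * ∑ j, W j|)
          = av (fun v => av (fun b => √θ * (e v b * ω b *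
            |∑ j, miss (Z j) v.1 * W j - √θ * ∑ j, W j|))) := by
            simp only [av_mul_left, av_mul_right]
        _ ≤ av (fun v => av (fun b =>
            e v b * |∑ j, miss (Z j) v.1 * miss (Z j) b.1 * W j - θ * ∑ j, W j| +
            ω b * |∑ j, miss (Z j) b.1 * (miss (Z j) v.1 * W j) -
              √θ * ∑ j, miss (Z j) v.1 * W j|)) := av_mono fun v => av_mono fun b => pt v b
        _ = av (fun v : Mem A => av (fun b : Mem A =>
            e v b * |∑ j, miss (Z j) v.1 * miss (Z j) b.1 * W j - θ * ∑ j, W j|)) +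
            av (fun v : Mem A => av (fun b : Mem A =>
            ω b * |∑ j, miss (Z j) b.1 * (miss (Z j) v.1 * W j) -
              √θ * ∑ j, miss (Z j) v.1 * W j|)) := by
            simp only [av_add]
        _ ≤ δ * Fintype.card Ω + κ * Fintype.card Ω := by
            apply add_le_add
            · exact S.edge W w0 w1
            · exact av_le (by positivity) fun v => RP _ (hx v).1 (hx v).2
        _ = _ := by ring
    have nn : 0 ≤ av (fun v => av (fun b => e v b * ω b) *
        |∑ j, miss (Z j) v.1 * W j - √θ * ∑ j, W j|) := av_nonneg fun v =>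
      mul_nonneg (av_nonneg fun b => mul_nonneg (E.e0 _ _) (R.w0 _)) (abs_nonneg _)
    set I := av (fun v => av (fun b => e v b * ω b) *
        |∑ j, miss (Z j) v.1 * W j - √θ * ∑ j, W j|)
    have h5 : θ * I ≤ (δ + κ) * Fintype.card Ω :=
      le_trans (mul_le_mul_of_nonneg_right hsle nn) key
    calc I = 1 / θ * (θ * I) := by field_simp
      _ ≤ 1 / θ * ((δ + κ) * Fintype.card Ω) := by gcongr
      _ ≤ 2 ^ d * ((δ + κ) * Fintype.card Ω) := by gcongr
      _ = _ := by ring

/-- Sizes. -/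
theorem RW.m1 {d : ℕ} {ω : Mem A → ℝ} {κ : ℝ} (R : RW A d ω κ) (hd : 1 ≤ d)
    (hN : 0 < Fintype.card Ω) (ε : ℝ) (hε : 0 < ε) (P : Mem A → Prop) [DecidablePred P]
    (hP : ∀ a, P a → ε * Fintype.card Ω <
      |(a.1.card : ℝ) - (1 - √(1 / 2 : ℝ)) * Fintype.card Ω|) :
    av (fun a => (if P a then 1 else 0) * ω a) ≤ κ / ε := by
  have hN' : (0 : ℝ) < Fintype.card Ω := by exact_mod_cast hN
  have h := R.prop Ω (fun i => {i}) 1 le_rfl hd (fun j => Finset.card_singleton j)
    (fun j k hjk => by simpa using hjk) (fun _ => 1) (fun _ => zero_le_one) (fun _ => le_rfl)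
  have e1 : ∀ v : Mem A, ∑ j, miss {j} v.1 * (1 : ℝ) = (Fintype.card Ω : ℝ) - v.1.card := by
    intro v
    unfold miss
    simp only [Finset.disjoint_singleton_right, mul_one]
    rw [Finset.sum_boole]
    have : (Finset.univ.filter fun j => j ∉ v.1) = v.1ᶜ := by ext j; simp
    rw [this, Finset.card_compl, Nat.cast_sub (Finset.card_le_univ _)]
  simp only [e1, pow_one] at h
  simp only [Finset.sum_const, Finset.card_univ, nsmul_eq_mul, mul_one] at h
  rw [le_div_iff₀ hε]
  have h2 : av (fun a : Mem A => (if P a then 1 else 0) * ω a) * ε * Fintype.card Ω ≤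
      κ * Fintype.card Ω := by
    refine le_trans ?_ h
    rw [← av_mul_right, ← av_mul_right]
    refine av_mono fun a => ?_
    have hw := R.w0 a
    split_ifs with hp
    · have h3 := hP a hp
      have h4 : |(a.1.card : ℝ) - (1 - √(1 / 2 : ℝ)) * Fintype.card Ω| =
          |(Fintype.card Ω : ℝ) - a.1.card - √(1 / 2) * Fintype.card Ω| := by
        rw [abs_sub_comm]
        congr 1
        ring
      rw [h4] at h3
      calc 1 * ω a * ε * Fintype.card Ω = ω a * (ε * Fintype.card Ω) := by ring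
        _ ≤ _ := mul_le_mul_of_nonneg_left h3.le hw
    · have : (0 : ℝ) * ω a * ε * Fintype.card Ω = 0 := by ring
      rw [this]
      exact mul_nonneg hw (abs_nonneg _)
  exact le_of_mul_le_mul_right h2 hN'

/-- Test families of disjoint sets of bounded size: the number of missed sets. -/
theorem RW.family {d : ℕ} {ω : Mem A → ℝ} {κ : ℝ} (R : RW A d ω κ) (F : Finset (Finset Ω))
    (hF : ∀ Z ∈ F, Z.Nonempty ∧ Z.card ≤ d)
    (hdis : ∀ Z ∈ F, ∀ Z' ∈ F, Z ≠ Z' → Disjoint Z Z') :
    av (fun v => ω v * |((F.filter fun Z => Disjoint v.1 Z).card : ℝ) -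
      ∑ Z ∈ F, √(1 / 2 : ℝ) ^ Z.card|) ≤ d * (κ * Fintype.card Ω) := by
  classical
  have maps : ∀ Z ∈ F, Z.card ∈ Finset.Icc 1 d := by
    intro Z hZ
    rw [Finset.mem_Icc]
    exact ⟨Finset.card_pos.mpr (hF Z hZ).1, (hF Z hZ).2⟩
  have e1 : ∀ v : Mem A, ((F.filter fun Z => Disjoint v.1 Z).card : ℝ) -
      ∑ Z ∈ F, √(1 / 2 : ℝ) ^ Z.card = ∑ k ∈ Finset.Icc 1 d,
        ∑ Z ∈ F.filter (fun Z => Z.card = k), (miss Z v.1 - √(1 / 2 : ℝ) ^ Z.card) := by
    intro v
    rw [Finset.sum_fiberwise_of_maps_to maps (fun Z => miss Z v.1 - √(1 / 2 : ℝ) ^ Z.card),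
      Finset.sum_sub_distrib, ← Finset.sum_boole]
    rfl
  have e2 : ∀ k ∈ Finset.Icc 1 d, av (fun v : Mem A => ω v *
      |∑ Z ∈ F.filter (fun Z => Z.card = k), (miss Z v.1 - √(1 / 2 : ℝ) ^ Z.card)|) ≤
      κ * Fintype.card Ω := by
    intro k hk
    rw [Finset.mem_Icc] at hk
    have h := R.prop {Z // Z ∈ F.filter (fun Z => Z.card = k)} (fun Z => Z.1) k hk.1 hk.2
      (fun Z => (Finset.mem_filter.mp Z.2).2)
      (fun Z Z' hne => hdis Z.1 (Finset.mem_filter.mp Z.2).1 Z'.1 (Finset.mem_filter.mp Z'.2).1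
        (fun h => hne (Subtype.ext h)))
      (fun _ => 1) (fun _ => zero_le_one) (fun _ => le_rfl)
    refine le_trans (le_of_eq ?_) h
    refine congrArg av (funext fun v => ?_)
    congr 2
    rw [← Finset.sum_coe_sort (F.filter (fun Z => Z.card = k))
      (fun Z => miss Z v.1 - √(1 / 2 : ℝ) ^ Z.card), Finset.sum_sub_distrib, Finset.mul_sum]
    congr 1
    · exact Finset.sum_congr (by ext x; simp) fun Z _ => (mul_one _).symm
    · refine Finset.sum_congr (by ext x; simp) fun Z _ => ?_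
      rw [(Finset.mem_filter.mp Z.2).2, sqrt_half_pow, mul_one]
  calc av (fun v => ω v * |((F.filter fun Z => Disjoint v.1 Z).card : ℝ) -
        ∑ Z ∈ F, √(1 / 2 : ℝ) ^ Z.card|)
      ≤ av (fun v => ∑ k ∈ Finset.Icc 1 d, ω v *
        |∑ Z ∈ F.filter (fun Z => Z.card = k), (miss Z v.1 - √(1 / 2 : ℝ) ^ Z.card)|) := by
        refine av_mono fun v => ?_
        rw [e1, ← Finset.mul_sum]
        exact mul_le_mul_of_nonneg_left (Finset.abs_sum_le_sum_abs _ _) (R.w0 v)
    _ = ∑ k ∈ Finset.Icc 1 d, av (fun v => ω v *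
        |∑ Z ∈ F.filter (fun Z => Z.card = k), (miss Z v.1 - √(1 / 2 : ℝ) ^ Z.card)|) :=
        av_sum _ _
    _ ≤ ∑ _k ∈ Finset.Icc 1 d, κ * Fintype.card Ω := Finset.sum_le_sum e2
    _ = d * (κ * Fintype.card Ω) := by
        rw [Finset.sum_const, Nat.card_Icc, nsmul_eq_mul, Nat.add_sub_cancel]

/-- Lists of test families. -/
theorem RW.m2 {d : ℕ} {ω : Mem A → ℝ} {κ : ℝ} (R : RW A d ω κ)
    (hN : 0 < Fintype.card Ω) (ε : ℝ) (hε : 0 < ε) {I : Type} [Fintype I]
    (U : I → Finset (Finset Ω))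
    (hU : ∀ i, ∀ Z ∈ U i, Z.Nonempty ∧ Z.card ≤ d)
    (hUd : ∀ i, ∀ Z ∈ U i, ∀ Z' ∈ U i, Z ≠ Z' → Disjoint Z Z')
    (P : Mem A → Prop) [DecidablePred P]
    (hP : ∀ a, P a → ε * Fintype.card I <
      ((Finset.univ.filter fun i => ε * Fintype.card Ω <
        |(((U i).filter fun Z => Disjoint a.1 Z).card : ℝ) -
          ∑ Z ∈ U i, √(1 / 2 : ℝ) ^ Z.card|).card : ℝ)) :
    av (fun a => (if P a then 1 else 0) * ω a) ≤ d * κ / ε ^ 2 := by
  have hN' : (0 : ℝ) < Fintype.card Ω := by exact_mod_cast hN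
  have hκ := R.k0
  rcases isEmpty_or_nonempty I with hI | hI
  · have : ∀ a, ¬ P a := by
      intro a ha
      have := hP a ha
      simp at this
    have h0 : av (fun a : Mem A => (if P a then 1 else 0) * ω a) = 0 := by
      have : (fun a : Mem A => (if P a then 1 else 0) * ω a) = fun _ => 0 := by
        funext a
        rw [if_neg (this a), zero_mul]
      rw [this]
      unfold av
      simp
    rw [h0]
    positivity
  have hcI : (0 : ℝ) < Fintype.card I := by exact_mod_cast Fintype.card_pos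
  obtain ⟨D, hD⟩ : ∃ D : I → Finset Ω → ℝ, ∀ i v, D i v =
      |(((U i).filter fun Z => Disjoint v Z).card : ℝ) - ∑ Z ∈ U i, √(1 / 2 : ℝ) ^ Z.card| :=
    ⟨_, fun _ _ => rfl⟩
  simp only [← hD] at hP
  have hD0 : ∀ i v, 0 ≤ D i v := fun i v => by rw [hD]; exact abs_nonneg _
  have hi : ∀ i : I, av (fun a : Mem A => ω a * D i a.1) ≤ d * (κ * Fintype.card Ω) := by
    intro i
    simp only [hD]
    exact R.family (U i) (hU i) (hUd i)
  rw [le_div_iff₀ (by positivity)]
  have h2 : av (fun a : Mem A => (if P a then 1 else 0) * ω a) * ε ^ 2 *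
      (Fintype.card Ω * Fintype.card I) ≤ d * κ * (Fintype.card Ω * Fintype.card I) := by
    calc av (fun a : Mem A => (if P a then 1 else 0) * ω a) * ε ^ 2 *
          (Fintype.card Ω * Fintype.card I)
        = av (fun a : Mem A => (if P a then 1 else 0) * ω a *
          (ε ^ 2 * (Fintype.card Ω * Fintype.card I))) := by
          rw [av_mul_right]; ring
      _ ≤ av (fun a : Mem A => ∑ i : I, ω a * D i a.1) := by
          refine av_mono fun a => ?_
          have hw := R.w0 a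
          split_ifs with hp
          · have h3 := hP a hp
            rw [← Finset.mul_sum]
            have h4 : ε * Fintype.card Ω * ((Finset.univ.filter fun i => ε * Fintype.card Ω <
                D i a.1).card : ℝ) ≤ ∑ i : I, D i a.1 := by
              rw [mul_comm, ← nsmul_eq_mul]
              refine le_trans (Finset.card_nsmul_le_sum _ (fun i => D i a.1) _ ?_) ?_
              · intro i hi
                exact (Finset.mem_filter.mp hi).2.le
              · exact Finset.sum_le_sum_of_subset_of_nonneg (Finset.filter_subset _ _)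
                  fun i _ _ => hD0 i a.1
            have h5 : ε ^ 2 * ((Fintype.card Ω : ℝ) * Fintype.card I) ≤ ∑ i : I, D i a.1 := by
              refine le_trans ?_ h4
              calc ε ^ 2 * ((Fintype.card Ω : ℝ) * Fintype.card I) =
                  ε * Fintype.card Ω * (ε * Fintype.card I) := by ring
                _ ≤ _ := mul_le_mul_of_nonneg_left h3.le (by positivity)
            calc 1 * ω a * (ε ^ 2 * ((Fintype.card Ω : ℝ) * Fintype.card I)) =
                ω a * (ε ^ 2 * ((Fintype.card Ω : ℝ) * Fintype.card I)) := by ring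
              _ ≤ _ := mul_le_mul_of_nonneg_left h5 hw
          · rw [zero_mul, zero_mul]
            exact Finset.sum_nonneg fun i _ => mul_nonneg hw (hD0 i a.1)
      _ = ∑ i : I, av (fun a : Mem A => ω a * D i a.1) := av_sum _ _
      _ ≤ ∑ _i : I, d * (κ * Fintype.card Ω) := Finset.sum_le_sum fun i _ => hi i
      _ = d * κ * (Fintype.card Ω * Fintype.card I) := by
          rw [Finset.sum_const, Finset.card_univ, nsmul_eq_mul]; ring
  exact le_of_mul_le_mul_right h2 (by positivity)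

end Run7.h859
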