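import Pool.Agent.Run7.h859.Final

/-!
The bounds for the number of unions, for a general finite ground set.
-/

namespace Run7.h859

open Finset Filter Topology

set_option linter.unusedSectionVars false

/-- Choice of the parameters. -/
theorem choose_N (ε ζ : ℝ) (hζ : 0 < ζ) (d : ℕ) (η : ℝ) :
    ∃ N₀ : ℕ, ∀ N : ℕ, N₀ ≤ N → 0 < N ∧
      errY d ε (ζ ^ 2 / 128) (√(1 / (2 * η * N))) (1 / N) ≤ ζ / 32 ∧
      4 / ζ ^ 2 ≤ (2 : ℝ) ^ N := by
  have h1 := (errY_tendsto d ε (ζ ^ 2 / 128) η).eventually (gt_mem_nhds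
    (show (0 : ℝ) < ζ / 32 by positivity))
  have h2 : ∀ᶠ N : ℕ in atTop, 4 / ζ ^ 2 ≤ (2 : ℝ) ^ N :=
    (tendsto_pow_atTop_atTop_of_one_lt (by norm_num : (1 : ℝ) < 2)).eventually_ge_atTop _
  have h3 : ∀ᶠ N : ℕ in atTop, 0 < N := eventually_gt_atTop 0
  obtain ⟨N₀, h⟩ := eventually_atTop.mp (h1.and (h2.and h3))
  refine ⟨N₀, fun N hN => ?_⟩
  obtain ⟨a1, a2, a3⟩ := h N hN
  exact ⟨a3, a1.le, a2⟩

theorem sqrt_gamma (ζ : ℝ) (hζ : 0 < ζ) : √(ζ ^ 2 / 128 / 2) = ζ / 16 := by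
  rw [show ζ ^ 2 / 128 / 2 = (ζ / 16) ^ 2 by ring]
  exact Real.sqrt_sq (by positivity)

/-- The final arithmetic. -/
theorem arith (ε m M D G E : ℝ) (hε : 0 < ε) (hM : 4 / ε ^ 2 ≤ M)
    (hm4 : m ^ 2 ≤ 4 * M) (hE : E ≤ ε / 4) (h : 2 * D - m ≤ (G + E) * m ^ 2) :
    D ≤ G * m ^ 2 / 2 + ε * M := by
  have hM0 : 0 < M := lt_of_lt_of_le (by positivity) hM
  have h1 : m ≤ ε * M := by
    have h2 : 4 ≤ ε ^ 2 * M := by
      rw [div_le_iff₀ (by positivity)] at hM
      linarith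
    have h3 : m ^ 2 ≤ (ε * M) ^ 2 := by
      calc m ^ 2 ≤ 4 * M := hm4
        _ ≤ (ε ^ 2 * M) * M := by gcongr
        _ = (ε * M) ^ 2 := by ring
    exact le_of_sq_le_sq h3 (by positivity)
  have h4 : E * m ^ 2 ≤ ε / 4 * (4 * M) := by
    calc E * m ^ 2 ≤ ε / 4 * m ^ 2 := by gcongr
      _ ≤ ε / 4 * (4 * M) := by gcongr
  nlinarith

variable {Ω : Type} [Fintype Ω] [DecidableEq Ω]

theorem un_le_pow (A B : Finset (Finset Ω)) : ((un A B).card : ℝ) ≤ 2 ^ Fintype.card Ω := by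
  have := Finset.card_le_univ (un A B)
  rw [Fintype.card_finset] at this
  exact_mod_cast this

theorem un_le_sq (A : Finset (Finset Ω)) : ((un A A).card : ℝ) ≤ (A.card : ℝ) ^ 2 := by
  have := un_card_le A A
  rw [sq]
  exact_mod_cast this

/-- The edge sum as an average. -/
theorem sum_edg_eq (A : Finset (Finset Ω)) (hA : A.Nonempty) (α β : Finset Ω → Finset Ω) :
    ∑ p ∈ A, ∑ q ∈ A, edg α β p q =
      av (fun p : Mem A => av (fun q : Mem A => edg α β p.1 q.1)) * (A.card : ℝ) ^ 2 := by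
  have hm : (0 : ℝ) < A.card := by exact_mod_cast Finset.card_pos.mpr hA
  rw [av_av_mem A (fun p q => edg α β p q)]
  field_simp

/-- Choose a representation of every union; count. -/
theorem exists_reps (A : Finset (Finset Ω)) :
    ∃ α β : Finset Ω → Finset Ω, (∀ x ∈ un A A, α x ∈ A ∧ β x ∈ A ∧ α x ∪ β x = x) ∧
      2 * ((un A A).card : ℝ) - A.card ≤ ∑ p ∈ A, ∑ q ∈ A, edg α β p q := by
  have hch : ∀ x : Finset Ω, ∃ r : Finset Ω × Finset Ω, x ∈ un A A →
      r.1 ∈ A ∧ r.2 ∈ A ∧ r.1 ∪ r.2 = x := by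
    intro x
    by_cases hx : x ∈ un A A
    · obtain ⟨a, ha, b, hb, hab⟩ := Finset.mem_image₂.mp hx
      exact ⟨(a, b), fun _ => ⟨ha, hb, hab⟩⟩
    · exact ⟨(∅, ∅), fun h => absurd h hx⟩
  choose r hr using hch
  refine ⟨fun x => (r x).1, fun x => (r x).2, fun x hx => hr x hx, ?_⟩
  have hc := count_edges (fun x => (r x).1) (fun x => (r x).2) A (un A A)
    (fun x hx => hr x hx)
    (fun _ _ => 1) (fun _ _ => zero_le_one) (fun _ _ => le_rfl) (fun _ _ => rfl)
    (fun _ _ => rfl)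
  simpa only [mul_one] using hc

/-- **Master bound**, general ground set. -/
theorem master (ε : ℝ) (hε : 0 < ε) (d : ℕ) (hd : 1 ≤ d) :
    ∃ N₀ : ℕ, ∀ (Ω : Type) [Fintype Ω] [DecidableEq Ω], N₀ ≤ Fintype.card Ω →
    ∀ (A : Finset (Finset Ω)) (I : Type) [Fintype I] (U : I → Finset (Finset Ω)), Adm U d →
      ∀ B ⊆ A, (∀ a ∈ B, Gen A U ε d a) →
      ((un A A).card : ℝ) ≤
        max ((A.card : ℝ) ^ 2 / 4)
          (((A.card : ℝ) - B.card) ^ 2 / 2 + min ((un B B).card : ℝ) ((B.card : ℝ) ^ 2 / 4)) +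
          ε * 2 ^ Fintype.card Ω := by
  classical
  obtain ⟨N₀, hN₀⟩ := choose_N ε ε hε d ε
  refine ⟨N₀, fun Ω _ _ hΩ A I _ U hU B hBA hB => ?_⟩
  obtain ⟨hN, hE, hP⟩ := hN₀ _ hΩ
  have hγ : (0 : ℝ) < ε ^ 2 / 128 := by positivity
  have hm : (0 : ℝ) ≤ A.card := Nat.cast_nonneg _
  have hl := le_max_left ((A.card : ℝ) ^ 2 / 4)
    (((A.card : ℝ) - B.card) ^ 2 / 2 + min ((un B B).card : ℝ) ((B.card : ℝ) ^ 2 / 4))
  have hr := le_max_right ((A.card : ℝ) ^ 2 / 4)
    (((A.card : ℝ) - B.card) ^ 2 / 2 + min ((un B B).card : ℝ) ((B.card : ℝ) ^ 2 / 4))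
  have hpos : 0 ≤ ε * 2 ^ Fintype.card Ω := by positivity
  rcases A.eq_empty_or_nonempty with hA | hA
  · have : un A A = ∅ := by unfold un; exact Finset.image₂_eq_empty_iff.mpr (Or.inl hA)
    rw [this]
    simp only [Finset.card_empty, Nat.cast_zero]
    positivity
  by_cases h1 : ε * 2 ^ Fintype.card Ω ≤ (A.card : ℝ) ^ 2
  swap
  · push Not at h1
    have := un_le_sq A
    have : 0 ≤ (A.card : ℝ) ^ 2 / 4 := by positivity
    linarith
  by_cases h2 : (A.card : ℝ) ^ 2 ≤ 4 * 2 ^ Fintype.card Ω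
  swap
  · push Not at h2
    have := un_le_pow A A
    linarith
  obtain ⟨α, β, _, hc⟩ := exists_reps A
  rw [sum_edg_eq A hA α β] at hc
  obtain ⟨t, a, b, u, k, ht, ha, hb, hu, hk, hsum, hBu, hkB, hkM, k1, k2, _⟩ :=
    core A hA α β ε hε h1 d hd hN ε hε (ε ^ 2 / 128) hγ U hU B hBA hB
  rw [sqrt_gamma ε hε] at k1 k2 hkM
  have hA' : (0 : ℝ) < A.card := by exact_mod_cast Finset.card_pos.mpr hA
  set m : ℝ := (A.card : ℝ) with hmdef
  set f := av (fun p : Mem A => av (fun q : Mem A => edg α β p.1 q.1)) with hf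
  set E := errY d ε (ε ^ 2 / 128) (√(1 / (2 * ε * Fintype.card Ω))) (1 / Fintype.card Ω)
  have quarter : f - (E + ε / 16) ≤ 1 / 2 + 2 * (ε / 32) + ε / 16 →
      ((un A A).card : ℝ) ≤ m ^ 2 / 4 + ε * 2 ^ Fintype.card Ω := by
    intro h
    have h9 := arith ε m (2 ^ Fintype.card Ω) ((un A A).card) (1 / 2)
      (E + ε / 16 + (2 * (ε / 32) + ε / 16)) hε hP h2 (by linarith) (hc.trans (by
        apply mul_le_mul_of_nonneg_right _ (by positivity)
        linarith))
    linarith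
  rcases numeric t a b u k ht ha hb hk hsum
    (f - (E + ε / 16)) k1 k2 with h | h
  · have := quarter (by nlinarith [sq_nonneg t])
    linarith
  · have hβ1 : (B.card : ℝ) ≤ m := by
      rw [hmdef]; exact_mod_cast Finset.card_le_card hBA
    have hβ0 : (0 : ℝ) ≤ B.card := Nat.cast_nonneg _
    have hb1 : (B.card : ℝ) / m ≤ 1 := by rw [div_le_one hA']; exact hβ1
    have hb0 : 0 ≤ (B.card : ℝ) / m := by positivity
    have hu1 : u ≤ 1 := by linarith
    have hE0 : 0 ≤ ε / 32 := by positivity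
    rcases le_total ((un B B).card : ℝ) ((B.card : ℝ) ^ 2 / 4) with hmin | hmin
    · rw [min_eq_left hmin] at hl hr
      rw [min_eq_left hmin]
      have hsq : (1 - u) ^ 2 ≤ (1 - (B.card : ℝ) / m) ^ 2 + 2 * (ε / 32) := by
        by_cases h5 : (B.card : ℝ) / m ≤ u
        · nlinarith
        · push Not at h5
          have h6 : (B.card : ℝ) / m - u ≤ ε / 32 := by linarith
          have h7 : (1 - u) ^ 2 - (1 - (B.card : ℝ) / m) ^ 2 =
              ((B.card : ℝ) / m - u) * (2 - u - (B.card : ℝ) / m) := by ring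
          have h8 : ((B.card : ℝ) / m - u) * (2 - u - (B.card : ℝ) / m) ≤
              ((B.card : ℝ) / m - u) * 2 :=
            mul_le_mul_of_nonneg_left (by linarith) (by linarith)
          linarith
      have h9 := arith ε m (2 ^ Fintype.card Ω) ((un A A).card)
        ((1 - (B.card : ℝ) / m) ^ 2 + 2 * ((un B B).card : ℝ) / m ^ 2)
        (E + ε / 16 + 2 * (ε / 32)) hε hP h2 (by linarith) (hc.trans (by
          apply mul_le_mul_of_nonneg_right _ (by positivity)
          linarith))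
      have h10 : ((1 - (B.card : ℝ) / m) ^ 2 + 2 * ((un B B).card : ℝ) / m ^ 2) * m ^ 2 / 2 =
          (m - B.card) ^ 2 / 2 + (un B B).card := by
        field_simp
      rw [h10] at h9
      linarith
    · rw [min_eq_right hmin] at hl hr
      rw [min_eq_right hmin]
      -- the convex function `(1 - u) ^ 2 + u ^ 2 / 2`
      have hconv : (1 - u) ^ 2 + u ^ 2 / 2 ≤ 1 / 2 + 2 * (ε / 32) ∨
          (1 - u) ^ 2 + u ^ 2 / 2 ≤
            (1 - (B.card : ℝ) / m) ^ 2 + ((B.card : ℝ) / m) ^ 2 / 2 + 2 * (ε / 32) := by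
        by_cases h5 : (B.card : ℝ) / m ≤ u
        · by_cases h6 : u ≤ 1 / 3
          · right
            nlinarith [mul_nonneg (sub_nonneg.mpr h5)
              (show 0 ≤ 2 - 3 / 2 * (u + (B.card : ℝ) / m) by linarith)]
          · left
            push Not at h6
            nlinarith [mul_nonneg (show 0 ≤ 1 - u by linarith) (show 0 ≤ u - 1 / 3 by linarith)]
        · right
          push Not at h5
          have h6 : (B.card : ℝ) / m - u ≤ ε / 32 := by linarith
          have h7 : (1 - u) ^ 2 + u ^ 2 / 2 - ((1 - (B.card : ℝ) / m) ^ 2 +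
              ((B.card : ℝ) / m) ^ 2 / 2) =
              ((B.card : ℝ) / m - u) * (2 - 3 / 2 * (u + (B.card : ℝ) / m)) := by ring
          have h8 : ((B.card : ℝ) / m - u) * (2 - 3 / 2 * (u + (B.card : ℝ) / m)) ≤
              ((B.card : ℝ) / m - u) * 2 :=
            mul_le_mul_of_nonneg_left (by linarith) (by linarith)
          linarith
      rcases hconv with hconv | hconv
      · have := quarter (by linarith)
        linarith
      · have h9 := arith ε m (2 ^ Fintype.card Ω) ((un A A).card)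
          ((1 - (B.card : ℝ) / m) ^ 2 + ((B.card : ℝ) / m) ^ 2 / 2)
          (E + ε / 16 + (2 * (ε / 32) + ε / 16)) hε hP h2 (by linarith) (hc.trans (by
            apply mul_le_mul_of_nonneg_right _ (by positivity)
            linarith))
        have h10 : ((1 - (B.card : ℝ) / m) ^ 2 + ((B.card : ℝ) / m) ^ 2 / 2) * m ^ 2 / 2 =
            (m - B.card) ^ 2 / 2 + (B.card : ℝ) ^ 2 / 4 := by
          field_simp
          ring
        rw [h10] at h9
        linarith

/-- **Sums with a generic summand**, general ground set. -/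
theorem generic_sums_bound (ε : ℝ) (hε : 0 < ε) (d : ℕ) (hd : 1 ≤ d) :
    ∃ N₀ : ℕ, ∀ (Ω : Type) [Fintype Ω] [DecidableEq Ω], N₀ ≤ Fintype.card Ω →
    ∀ (A : Finset (Finset Ω)) (I : Type) [Fintype I] (U : I → Finset (Finset Ω)), Adm U d →
      ∀ B ⊆ A, (∀ a ∈ B, Gen A U ε d a) →
      ((un B A).card : ℝ) ≤ (A.card : ℝ) ^ 2 / 4 + ε * 2 ^ Fintype.card Ω := by
  classical
  obtain ⟨N₀, hN₀⟩ := choose_N ε ε hε d ε
  refine ⟨N₀, fun Ω _ _ hΩ A I _ U hU B hBA hB => ?_⟩
  obtain ⟨hN, hE, hP⟩ := hN₀ _ hΩ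
  have hm : (0 : ℝ) ≤ A.card := Nat.cast_nonneg _
  set D := un B A with hD
  rcases A.eq_empty_or_nonempty with hA | hA
  · have : D = ∅ := by rw [hD]; exact Finset.image₂_eq_empty_iff.mpr (Or.inr hA)
    rw [this]
    simp only [Finset.card_empty, Nat.cast_zero]
    positivity
  by_cases h1 : ε * 2 ^ Fintype.card Ω ≤ (A.card : ℝ) ^ 2
  · by_cases h2 : (A.card : ℝ) ^ 2 ≤ 4 * 2 ^ Fintype.card Ω
    · have hch : ∀ x : Finset Ω, ∃ r : Finset Ω × Finset Ω, x ∈ D →
          r.1 ∈ B ∧ r.2 ∈ A ∧ r.1 ∪ r.2 = x := by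
        intro x
        by_cases hx : x ∈ D
        · obtain ⟨a, ha, b, hb, hab⟩ := Finset.mem_image₂.mp hx
          exact ⟨(a, b), fun _ => ⟨ha, hb, hab⟩⟩
        · exact ⟨(∅, ∅), fun h => absurd h hx⟩
      choose r hr using hch
      have hc := count_edges (fun x => (r x).1) (fun x => (r x).2) A D
        (fun x hx => ⟨hBA (hr x hx).1, (hr x hx).2.1, (hr x hx).2.2⟩)
        (fun p q => if Gen A U ε d p ∨ Gen A U ε d q then 1 else 0)
        (fun _ _ => by split_ifs <;> norm_num) (fun _ _ => by split_ifs <;> norm_num)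
        (fun p q => by
          by_cases h : Gen A U ε d p <;> by_cases h' : Gen A U ε d q <;> simp [h, h'])
        (fun x hx => by rw [if_pos (Or.inl (hB _ (hr x hx).1))])
      have hb := touch_bound A hA (fun x => (r x).1) (fun x => (r x).2) ε hε h1 d hd hN ε hε
        (ε ^ 2 / 128) (by positivity) U hU
      rw [sqrt_gamma ε hε, add_assoc] at hb
      have := arith ε A.card (2 ^ Fintype.card Ω) D.card (1 / 2) _ hε hP h2
        (by linarith) (hc.trans hb)
      linarith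
    · push Not at h2
      have h3 := un_le_pow B A
      have h4 : 0 ≤ ε * 2 ^ Fintype.card Ω := by positivity
      linarith
  · push Not at h1
    have h3 : (D.card : ℝ) ≤ (A.card : ℝ) ^ 2 := by
      have h5 := un_card_le B A
      have h6 : B.card ≤ A.card := Finset.card_le_card hBA
      have h7 : D.card ≤ A.card * A.card := h5.trans (Nat.mul_le_mul_right _ h6)
      rw [sq]
      exact_mod_cast h7
    nlinarith

end Run7.h859
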